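import Pool.Agent.Lib.MP_a8dae7_an.D4.Spec
import Pool.Agent.Lib.MP_a8dae7_an.CV.ZS
import Pool.Agent.Lib.MP_a8dae7_an.CV.NG

/-!
# MP_a8dae7_an, D4: DE. Decay of the Fourier transform of the surface measure of a nondegenerate
chart.

With `rho = ‖η‖^(-1/2)` the integral is averaged over the balls of radius `rho`; on the ball with
centre `q0` the non-stationary phase (`CV.SpecNS`) with `H = c ‖η‖^(1/2) ‖q0 - q*‖` is used.
-/

set_option autoImplicit false

open MeasureTheory Metric Set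
open scoped ContDiff

namespace Pool.Agent.Lib.MP_a8dae7_an.D4.DEM

open Pool.Agent.Lib.MP_a8dae7_an.CV

noncomputable section

/-- averaging over balls, with a bound depending on the ball -/
lemma avg' (k : ℕ) {rho : ℝ} (hr : 0 < rho) (hr1 : rho ≤ 1) (F : EE k → ℂ) (hF : Continuous F)
    (h0 : ∀ q, 1 < ‖q‖ → F q = 0) (T : EE k → ℝ) (hTi : Integrable T)
    (h : ∀ᵐ q0 : EE k, ‖∫ q, ((bm k (rho⁻¹ • (q - q0)) : ℝ) : ℂ) * F q‖ ≤ T q0 * rho ^ k) :
    ‖∫ q, F q‖ ≤ (∫ x : EE k, (bm k x : ℝ))⁻¹ * ∫ q0, T q0 := by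
  have hc : 0 < ∫ x : EE k, (bm k x : ℝ) := (bm k).integral_pos
  have hcont : Continuous (fun p : EE k × EE k =>
      ((bm k (rho⁻¹ • (p.1 - p.2)) : ℝ) : ℂ) * F p.1) := by
    have h1 : Continuous (fun x : EE k => (bm k x : ℝ)) := (bm k).continuous
    exact (Complex.continuous_ofReal.comp (h1.comp (by fun_prop))).mul (hF.comp continuous_fst)
  have hsupp : HasCompactSupport (fun p : EE k × EE k =>
      ((bm k (rho⁻¹ • (p.1 - p.2)) : ℝ) : ℂ) * F p.1) := by
    refine HasCompactSupport.intro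
      ((isCompact_closedBall (0 : EE k) 1).prod (isCompact_closedBall (0 : EE k) 2)) ?_
    rintro ⟨q, q0⟩ hq
    simp only [mem_prod, mem_closedBall, dist_zero_right, not_and_or, not_le] at hq
    dsimp only
    by_cases h1 : 1 < ‖q‖
    · rw [h0 q h1, mul_zero]
    · have h2 : 2 < ‖q0‖ := hq.resolve_left h1
      rw [NGM.bump_zero k hr, Complex.ofReal_zero, zero_mul]
      rw [mem_ball, not_lt]
      have h3 : ‖q0‖ ≤ ‖q‖ + dist q q0 := by
        have := norm_sub_norm_le q0 q
        rw [dist_comm, dist_eq_norm]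
        linarith
      linarith [not_lt.1 h1]
  have hint : Integrable (fun p : EE k × EE k =>
      ((bm k (rho⁻¹ • (p.1 - p.2)) : ℝ) : ℂ) * F p.1) (volume.prod volume) :=
    hcont.integrable_of_hasCompactSupport hsupp
  have h1 : (((rho ^ k * ∫ x : EE k, (bm k x : ℝ) : ℝ)) : ℂ) * ∫ q, F q =
      ∫ q0 : EE k, ∫ q : EE k, ((bm k (rho⁻¹ • (q - q0)) : ℝ) : ℂ) * F q := by
    rw [← integral_integral_swap hint, ← integral_const_mul]
    refine integral_congr_ae (Filter.Eventually.of_forall fun q => ?_)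
    dsimp only
    rw [integral_mul_const, ← NGM.bump_mass k hr q, integral_complex_ofReal]
  have h2 : ‖∫ q0 : EE k, ∫ q : EE k, ((bm k (rho⁻¹ • (q - q0)) : ℝ) : ℂ) * F q‖ ≤
      (∫ q0, T q0) * rho ^ k := by
    rw [← integral_mul_const]
    exact norm_integral_le_of_norm_le (hTi.mul_const _) h
  rw [← h1, norm_mul, Complex.norm_real, Real.norm_of_nonneg (by positivity)] at h2
  have h5 : 0 < rho ^ k := by positivity
  have h6 : rho ^ k * ((∫ x : EE k, (bm k x : ℝ)) * ‖∫ q, F q‖) ≤ rho ^ k * ∫ q0, T q0 := by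
    calc _ = rho ^ k * (∫ x : EE k, (bm k x : ℝ)) * ‖∫ q, F q‖ := by ring
      _ ≤ _ := h2
      _ = _ := by ring
  have h7 := le_of_mul_le_mul_left h6 h5
  rw [inv_mul_eq_div, le_div_iff₀ hc]
  linarith

/-- derivatives are bounded on balls -/
lemma deriv_bdd {E F : Type*} [NormedAddCommGroup E] [NormedSpace ℝ E] [ProperSpace E]
    [NormedAddCommGroup F] [NormedSpace ℝ F] (f : E → F) (hf : ContDiff ℝ ∞ f) (R : ℝ) (n : ℕ) :
    ∃ M : ℝ, 0 ≤ M ∧ ∀ j ≤ n, ∀ q ∈ closedBall (0 : E) R, ‖iteratedFDeriv ℝ j f q‖ ≤ M := by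
  have h : ∀ j : ℕ, ∃ M : ℝ, 0 ≤ M ∧ ∀ q ∈ closedBall (0 : E) R,
      ‖iteratedFDeriv ℝ j f q‖ ≤ M := by
    intro j
    have hc : Continuous (iteratedFDeriv ℝ j f) :=
      hf.continuous_iteratedFDeriv (by exact_mod_cast le_top)
    obtain ⟨M, hM⟩ := (isCompact_closedBall (0 : E) R).exists_bound_of_continuousOn hc.continuousOn
    exact ⟨|M|, abs_nonneg _, fun q hq => (hM q hq).trans (le_abs_self _)⟩
  choose M hM0 hM using h
  refine ⟨∑ j ∈ Finset.range (n + 1), M j, Finset.sum_nonneg fun j _ => hM0 j,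
    fun j hj q hq => ?_⟩
  exact (hM j q hq).trans (Finset.single_le_sum (f := M) (fun i _ => hM0 i)
    (Finset.mem_range.2 (by omega)))

/-- `x ↦ i ⟨η, x⟩` -/
def Lin {d : ℕ} (eta : EE d) : EE d →L[ℝ] ℂ :=
  (ContinuousLinearMap.mul ℝ ℂ Complex.I).comp (Complex.ofRealCLM.comp (innerSL ℝ eta))

lemma Lin_apply {d : ℕ} (eta x : EE d) :
    Lin eta x = Complex.I * ((inner ℝ eta x : ℝ) : ℂ) := rfl

lemma Lin_norm {d : ℕ} (eta : EE d) : ‖Lin eta‖ ≤ ‖eta‖ := by
  refine ContinuousLinearMap.opNorm_le_bound _ (norm_nonneg _) fun x => ?_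
  rw [Lin_apply, norm_mul, Complex.norm_I, one_mul, Complex.norm_real]
  exact norm_inner_le_norm eta x

lemma Lin_norm_exp {d : ℕ} (eta x : EE d) : ‖Complex.exp (Lin eta x)‖ = 1 := by
  rw [Lin_apply, mul_comm, Complex.norm_exp_ofReal_mul_I]

/-- the trivial bound on one ball -/
lemma triv (k : ℕ) {rho : ℝ} (hr : 0 < rho) (q0 : EE k) (F : EE k → ℂ) (hF : ∀ q, ‖F q‖ ≤ 1) :
    ‖∫ q, ((bm k (rho⁻¹ • (q - q0)) : ℝ) : ℂ) * F q‖ ≤
      volume.real (ball (0 : EE k) 1) * rho ^ k := by
  have h2 : ∫ q, ((bm k (rho⁻¹ • (q - q0)) : ℝ) : ℂ) * F q =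
      ∫ q in ball q0 rho, ((bm k (rho⁻¹ • (q - q0)) : ℝ) : ℂ) * F q := by
    symm
    apply setIntegral_eq_integral_of_forall_compl_eq_zero
    intro q hq
    rw [NGM.bump_zero k hr hq, Complex.ofReal_zero, zero_mul]
  rw [h2]
  have h3 : ∀ q ∈ ball q0 rho, ‖((bm k (rho⁻¹ • (q - q0)) : ℝ) : ℂ) * F q‖ ≤ 1 := by
    intro q _
    rw [norm_mul, Complex.norm_real, Real.norm_of_nonneg ((bm k).nonneg)]
    exact mul_le_one₀ (bm k).le_one (norm_nonneg _) (hF q)
  refine (norm_setIntegral_le_of_norm_le_const measure_ball_lt_top h3).trans ?_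
  have h4 : volume.real (ball q0 rho) = rho ^ k * volume.real (ball (0 : EE k) 1) := by
    rw [Measure.real, Measure.real, Measure.addHaar_ball_of_pos _ _ hr, ENNReal.toReal_mul,
      ENNReal.toReal_ofReal (by positivity)]
    simp
  rw [h4, one_mul, mul_comm]

/-- **DE** -/
theorem specDE (hLW : SpecLW) (hDI : SpecDI) : SpecDE := by
  intro k ch c1 hk hND
  obtain ⟨c, hc, hc1, hlw⟩ := hLW k ch c1 hND
  obtain ⟨CD, hCD, hdi⟩ := hDI k
  have hdl := ch.dl_pos
  have hdl64 := ch.dl_le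
  obtain ⟨MX, hMX0, hMX⟩ := deriv_bdd ch.X ch.smooth (4 * ch.dl) (k + 3)
  have hasm : ContDiff ℝ ∞ (fun q : EE k => ((CG.cut ch k q : ℝ) : ℂ)) :=
    Complex.ofRealCLM.contDiff.comp (CG.cut ch k).contDiff
  obtain ⟨MA, hMA0, hMA⟩ := deriv_bdd _ hasm (4 * ch.dl) (k + 1)
  obtain ⟨CN, hCN, hns⟩ := NSM.specNS k (k + 1) MX
  have hI : 0 < ∫ x : EE k, (bm k x : ℝ) := (bm k).integral_pos
  set I0 := ∫ x : EE k, (bm k x : ℝ) with hI0
  set v1 := volume.real (ball (0 : EE k) 1) with hv1
  have hv10 : 0 ≤ v1 := measureReal_nonneg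
  set V0 := ∫ q : EE k, (CG.cut ch k q : ℝ) with hV0
  have hV00 : 0 ≤ V0 := integral_nonneg fun q => (CG.cut ch k).nonneg
  set C1 := CN * MA + v1 with hC1
  have hC10 : 0 ≤ C1 := by positivity
  have : Nonempty (Fin k) := ⟨⟨0, hk⟩⟩
  have : Nontrivial (EE k) := inferInstance
  refine ⟨I0⁻¹ * (C1 * (CD * c⁻¹ ^ k)) + V0 * (2 / ch.dl) ^ k + 1, by positivity, ?_⟩
  intro eta heta
  set s := √‖eta‖ with hs
  have hs2 : s ^ 2 = ‖eta‖ := Real.sq_sqrt (norm_nonneg _)
  have hs1 : 1 ≤ s := by rw [hs]; exact Real.one_le_sqrt.2 heta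
  have hs0 : 0 < s := by linarith
  have hpow : ‖eta‖ ^ (-((k : ℝ) / 2)) = s⁻¹ ^ k := by
    rw [Real.rpow_neg (norm_nonneg _), hs, Real.sqrt_eq_rpow, inv_pow, ← Real.rpow_natCast,
      ← Real.rpow_mul (norm_nonneg _)]
    congr 2
    ring
  rw [hpow]
  have hF1 : ∀ q : EE k, ‖((CG.cut ch k q : ℝ) : ℂ) * ex eta (ch.X q)‖ ≤ (CG.cut ch k q : ℝ) := by
    intro q
    rw [norm_mul, Complex.norm_real, Real.norm_of_nonneg (CG.cut ch k).nonneg]
    have : ‖ex eta (ch.X q)‖ = 1 := Lin_norm_exp eta (ch.X q)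
    rw [this, mul_one]
  have hsk : 0 ≤ s⁻¹ ^ k := by positivity
  have hterm1 : 0 ≤ I0⁻¹ * (C1 * (CD * c⁻¹ ^ k)) := by positivity
  have hterm2 : 0 ≤ V0 * (2 / ch.dl) ^ k := by positivity
  by_cases hbig : 2 / ch.dl ≤ s
  · -- the main case
    set rho := s⁻¹ with hrho
    have hr : 0 < rho := by positivity
    have hr2 : rho ≤ ch.dl / 2 := by
      rw [hrho, inv_le_comm₀ hs0 (by positivity)]
      rw [inv_div]
      exact hbig
    have hr1 : rho ≤ 1 := by linarith
    obtain ⟨qs, hqs, hgrad⟩ := hlw eta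
    set T : EE k → ℝ := fun q0 => C1 * min 1 ((c * s * ‖q0 - qs‖)⁻¹ ^ (k + 1)) with hT
    obtain ⟨hint, hval⟩ := hdi (c * s) qs (by positivity)
    have hTi : Integrable T := hint.const_mul C1
    have hcont : Continuous (fun q : EE k => ((CG.cut ch k q : ℝ) : ℂ) * ex eta (ch.X q)) := by
      refine hasm.continuous.mul ?_
      exact Complex.continuous_exp.comp ((Lin eta).continuous.comp ch.smooth.continuous)
    have hout : (CG.cut ch k).rOut = 5 / 2 * ch.dl := rfl
    have hzero : ∀ q : EE k, 5 / 2 * ch.dl ≤ ‖q‖ →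
        ((CG.cut ch k q : ℝ) : ℂ) * ex eta (ch.X q) = 0 := by
      intro q hq
      have : (CG.cut ch k q : ℝ) = 0 := by
        apply (CG.cut ch k).zero_of_le_dist
        rw [dist_zero_right, hout]
        exact hq
      rw [this, Complex.ofReal_zero, zero_mul]
    have hne : ∀ᵐ q0 : EE k, q0 ≠ qs := by
      have h0 : volume ({qs} : Set (EE k)) = 0 := measure_singleton qs
      filter_upwards [measure_eq_zero_iff_ae_notMem.1 h0] with q hq
      simpa using hq
    have key := avg' k hr hr1 _ hcont (fun q hq => hzero q (by linarith)) T hTi ?_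
    · have h1 : ∫ q0, T q0 ≤ C1 * (CD * (c * s)⁻¹ ^ k) := by
        rw [hT, integral_const_mul]
        exact mul_le_mul_of_nonneg_left hval hC10
      calc ‖∫ q, ((CG.cut ch k q : ℝ) : ℂ) * ex eta (ch.X q)‖
          ≤ I0⁻¹ * ∫ q0, T q0 := key
        _ ≤ I0⁻¹ * (C1 * (CD * (c * s)⁻¹ ^ k)) := by gcongr
        _ = (I0⁻¹ * (C1 * (CD * c⁻¹ ^ k))) * s⁻¹ ^ k := by rw [mul_inv, mul_pow]; ring
        _ ≤ (I0⁻¹ * (C1 * (CD * c⁻¹ ^ k)) + V0 * (2 / ch.dl) ^ k + 1) * s⁻¹ ^ k := by
            gcongr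
            linarith
    · filter_upwards [hne] with q0 hq0
      by_cases hq3 : ‖q0‖ ≤ 3 * ch.dl
      · -- near the support
        have hsub : ∀ q ∈ ball q0 rho, q ∈ closedBall (0 : EE k) (4 * ch.dl) := by
          intro q hq
          rw [mem_closedBall, dist_zero_right]
          rw [mem_ball, dist_eq_norm] at hq
          have := norm_sub_norm_le q q0
          linarith
        obtain ⟨v, hv1', hv⟩ := hgrad q0 hq3
        have hd : 0 < ‖q0 - qs‖ := norm_pos_iff.2 (sub_ne_zero.2 hq0)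
        have hThd : ContDiff ℝ ∞ (fun q => Lin eta (ch.X q)) := (Lin eta).contDiff.comp ch.smooth
        have hfd : ∀ w : EE k, fderiv ℝ (fun q => Lin eta (ch.X q)) q0 w =
            Lin eta (fderiv ℝ ch.X q0 w) := by
          intro w
          have h1 : HasFDerivAt ch.X (fderiv ℝ ch.X q0) q0 :=
            (ch.smooth.differentiable (by simp)).differentiableAt.hasFDerivAt
          have h2 := (Lin eta).hasFDerivAt.comp q0 h1
          have h3 : fderiv ℝ (fun q => Lin eta (ch.X q)) q0 = (Lin eta).comp (fderiv ℝ ch.X q0) :=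
            h2.fderiv
          rw [h3]
          rfl
        have hns' := hns q0 rho MA (c * s * ‖q0 - qs‖)
          (fun q => ((CG.cut ch k q : ℝ) : ℂ)) (fun q => Lin eta (ch.X q)) hr hMA0
          (by positivity) hasm hThd ?_ ?_ ?_ ?_
        · have htriv := triv k hr q0 (fun q => ((CG.cut ch k q : ℝ) : ℂ) * ex eta (ch.X q))
            (fun q => (hF1 q).trans (CG.cut ch k).le_one)
          set h := (c * s * ‖q0 - qs‖)⁻¹ ^ (k + 1) with hh
          have hh0 : 0 ≤ h := by positivity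
          have hn : ‖∫ q, ((bm k (rho⁻¹ • (q - q0)) : ℝ) : ℂ) *
              (((CG.cut ch k q : ℝ) : ℂ) * ex eta (ch.X q))‖ ≤ CN * MA * h * rho ^ k := by
            refine hns'.trans (le_of_eq ?_)
            rw [Lin_norm_exp]
            ring
          have hrk : 0 ≤ rho ^ k := by positivity
          have hm : 0 ≤ min 1 h := le_min zero_le_one hh0
          have hCM : 0 ≤ CN * MA := by positivity
          rw [hT]
          dsimp only
          rw [hC1]
          rcases le_total 1 h with h1 | h1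
          · rw [min_eq_left h1, mul_one]
            refine htriv.trans ?_
            gcongr
            linarith
          · rw [min_eq_right h1]
            refine hn.trans ?_
            gcongr
            linarith
        · intro q hq j hj
          calc ‖iteratedFDeriv ℝ j (fun q : EE k => ((CG.cut ch k q : ℝ) : ℂ)) q‖ * rho ^ j
              ≤ MA * 1 := by
                gcongr
                · exact hMA j hj q (hsub q hq)
                · exact pow_le_one₀ hr.le hr1
            _ = MA := mul_one _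
        · intro q hq j hj2 hj
          have h1 : ‖iteratedFDeriv ℝ j (fun q => Lin eta (ch.X q)) q‖ ≤ ‖eta‖ * MX := by
            have h2 := (Lin eta).norm_iteratedFDeriv_comp_left (f := ch.X) (x := q) (n := j)
              (N := ∞) ch.smooth.contDiffAt (by exact_mod_cast le_top)
            refine h2.trans ?_
            gcongr
            · exact Lin_norm eta
            · exact hMX j (by omega) q (hsub q hq)
          have h2 : rho ^ j ≤ rho ^ 2 := pow_le_pow_of_le_one hr.le hr1 hj2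
          have h3 : ‖eta‖ * rho ^ 2 = 1 := by
            rw [← hs2, hrho]
            field_simp
          calc ‖iteratedFDeriv ℝ j (fun q => Lin eta (ch.X q)) q‖ * rho ^ j
              ≤ (‖eta‖ * MX) * rho ^ 2 := by gcongr
            _ = MX * (‖eta‖ * rho ^ 2) := by ring
            _ = MX := by rw [h3, mul_one]
        · intro w
          rw [hfd, Lin_apply]
          simp only [Complex.mul_re, Complex.I_re, Complex.ofReal_re, zero_mul, Complex.I_im,
            Complex.ofReal_im, mul_zero, sub_zero, abs_zero]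
          positivity
        · refine ⟨v, hv1', ?_⟩
          rw [hfd, Lin_apply]
          simp only [Complex.mul_im, Complex.I_re, Complex.ofReal_im, mul_zero, Complex.I_im,
            Complex.ofReal_re, one_mul, zero_add]
          have h1 : c * s * ‖q0 - qs‖ = rho * (c * ‖eta‖ * ‖q0 - qs‖) := by
            rw [← hs2, hrho]
            field_simp
          rw [h1]
          gcongr
          exact hv.trans (le_abs_self _)
      · -- far from the support
        rw [not_le] at hq3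
        have hz : ∀ q : EE k, ((bm k (rho⁻¹ • (q - q0)) : ℝ) : ℂ) *
            (((CG.cut ch k q : ℝ) : ℂ) * ex eta (ch.X q)) = 0 := by
          intro q
          by_cases hq : q ∈ ball q0 rho
          · rw [hzero q, mul_zero]
            rw [mem_ball, dist_comm, dist_eq_norm] at hq
            have := norm_sub_norm_le q0 q
            linarith
          · rw [NGM.bump_zero k hr hq, Complex.ofReal_zero, zero_mul]
        simp only [hz, integral_zero, norm_zero]
        have : 0 ≤ T q0 := by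
          rw [hT]
          positivity
        positivity
  · -- small `η`
    rw [not_le] at hbig
    have h1 : ‖∫ q, ((CG.cut ch k q : ℝ) : ℂ) * ex eta (ch.X q)‖ ≤ V0 := by
      refine norm_integral_le_of_norm_le ?_ (Filter.Eventually.of_forall hF1)
      exact (CG.cut ch k).integrable
    have h2 : (1 : ℝ) ≤ (2 / ch.dl) ^ k * s⁻¹ ^ k := by
      rw [← mul_pow]
      apply one_le_pow₀
      rw [← div_eq_mul_inv, one_le_div hs0]
      exact hbig.le
    calc ‖∫ q, ((CG.cut ch k q : ℝ) : ℂ) * ex eta (ch.X q)‖ ≤ V0 * 1 := by rw [mul_one]; exact h1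
      _ ≤ V0 * ((2 / ch.dl) ^ k * s⁻¹ ^ k) := by gcongr
      _ = (V0 * (2 / ch.dl) ^ k) * s⁻¹ ^ k := by ring
      _ ≤ (I0⁻¹ * (C1 * (CD * c⁻¹ ^ k)) + V0 * (2 / ch.dl) ^ k + 1) * s⁻¹ ^ k := by
          gcongr
          linarith

end

end Pool.Agent.Lib.MP_a8dae7_an.D4.DEM
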