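import Pool.Agent.Lib.MP_a8dae7_an.D4.Spec
import Pool.Agent.Lib.MP_a8dae7_an.CG.FIN
import Pool.Agent.Lib.MP_1446ad_nt.SM.All

section
/-!
# MP_a8dae7_an, D4, module FI: from the charts to the set
-/
set_option autoImplicit false

open MeasureTheory
open scoped ContDiff ENNReal

namespace Pool.Agent.Lib.MP_a8dae7_an.D4.FIM

open Pool.Agent.Lib.MP_a8dae7_an.CV

/-- the set is covered by finitely many nondegenerate charts -/
theorem cover (hIC : SpecIC) {k : ℕ} {Sg : Set (EE (k + 1))} (hS : Nondeg Sg) :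
    ∃ (ι : Type) (_ : Fintype ι) (ch : ι → CG.Chart k) (c1 : ι → ℝ), (∀ i, ND (ch i) (c1 i)) ∧
      Sg ⊆ ⋃ i, (ch i).X '' Metric.closedBall 0 (ch i).dl := by
  classical
  obtain ⟨hc, hp⟩ := hS
  choose ch c1 rho hnd hrho hch using fun (p : EE (k + 1)) (h : p ∈ Sg) => hIC k Sg p (hp p h)
  obtain ⟨t, ht⟩ := hc.elim_nhds_subcover' (fun p h => Metric.ball p (rho p h))
    (fun p h => Metric.ball_mem_nhds p (hrho p h))
  refine ⟨t, inferInstance, fun i => ch i.1.1 i.1.2, fun i => c1 i.1.1 i.1.2,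
    fun i => hnd i.1.1 i.1.2, fun x hx => ?_⟩
  obtain ⟨p, hpt, hxp⟩ := Set.mem_iUnion₂.1 (ht hx)
  have h1 : ‖x - p.1‖ < rho p.1 p.2 := by
    have h2 : x ∈ Metric.ball p.1 (rho p.1 p.2) := hxp
    rwa [mem_ball_iff_norm] at h2
  obtain ⟨q, hq, hxq⟩ := hch p.1 p.2 x hx h1
  refine Set.mem_iUnion.2 ⟨⟨p, hpt⟩, q, ?_, hxq⟩
  rw [mem_closedBall_zero_iff]
  exact hq

/-- from the charts to the set, in dimension `m + 2` and with an arbitrary exponent `x` -/
theorem fin_gen (hIC : SpecIC) (hHM : SpecHM) (m : ℕ) (x : ℝ)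
    (hC : ∀ (ch : CG.Chart (m + 1)) (c1 : ℝ), ND ch c1 → CG.FINM.CX ch x)
    (Sg : Set (EE (m + 2))) (hS : Nondeg (k := m + 1) Sg) :
    ∃ C : ℝ, 0 < C ∧ ∀ (lam : ℝ) (s : Finset (Fin (m + 2) → ℤ)) (a : (Fin (m + 2) → ℤ) → ℂ), 1 ≤ lam →
    (∀ n ∈ s, ‖zv n‖ = lam) →
    ∫⁻ y in Sg, ENNReal.ofReal (‖es s a y‖ ^ 2) ∂(Measure.hausdorffMeasure ((m + 1 : ℕ) : ℝ)) ≤
      ENNReal.ofReal (C * lam ^ x * ∑ n ∈ s, ‖a n‖ ^ 2) := by
  obtain ⟨ι, hι, ch, c1, hnd, hcov⟩ := cover hIC (k := m + 1) hS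
  choose C hC0 hCb using fun i => CG.FINM.chart hHM (ch i) x (hC (ch i) (c1 i) (hnd i))
  refine ⟨∑ i, C i + 1, by
    have : 0 ≤ ∑ i, C i := Finset.sum_nonneg fun i _ => (hC0 i).le
    linarith, fun lam s a hlam hs => ?_⟩
  set F : EE (m + 2) → ℝ≥0∞ := fun x => ENNReal.ofReal (‖es s a x‖ ^ 2) with hF
  set mu : Measure (EE (m + 2)) := Measure.hausdorffMeasure ((m + 1 : ℕ) : ℝ) with hmu
  have hsum0 : 0 ≤ ∑ n ∈ s, ‖a n‖ ^ 2 := Finset.sum_nonneg fun n _ => by positivity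
  have hl0 : 0 ≤ lam ^ x := Real.rpow_nonneg (by linarith) _
  calc ∫⁻ x in Sg, F x ∂mu ≤ ∫⁻ x in ⋃ i, (ch i).X '' Metric.closedBall 0 (ch i).dl, F x ∂mu :=
        lintegral_mono_set hcov
    _ ≤ ∑' i, ∫⁻ x in (ch i).X '' Metric.closedBall 0 (ch i).dl, F x ∂mu :=
        lintegral_iUnion_le _ _
    _ = ∑ i, ∫⁻ x in (ch i).X '' Metric.closedBall 0 (ch i).dl, F x ∂mu := tsum_fintype _
    _ ≤ ∑ i, ENNReal.ofReal (C i * lam ^ x * ∑ n ∈ s, ‖a n‖ ^ 2) :=
        Finset.sum_le_sum fun i _ => hCb i lam s a hlam hs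
    _ = ENNReal.ofReal (∑ i, C i * lam ^ x * ∑ n ∈ s, ‖a n‖ ^ 2) := by
        rw [ENNReal.ofReal_sum_of_nonneg]
        exact fun i _ => mul_nonneg (mul_nonneg (hC0 i).le hl0) hsum0
    _ ≤ ENNReal.ofReal ((∑ i, C i + 1) * lam ^ x * ∑ n ∈ s, ‖a n‖ ^ 2) := by
        refine ENNReal.ofReal_le_ofReal ?_
        rw [← Finset.sum_mul, ← Finset.sum_mul]
        have h5 : ∑ i, C i ≤ ∑ i, C i + 1 := by linarith
        exact mul_le_mul_of_nonneg_right (mul_le_mul_of_nonneg_right h5 hl0) hsum0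

theorem specFI (hCH : SpecCH) (hIC : SpecIC) (hHM : SpecHM) : SpecFI := by
  intro Sg hS eps heps
  obtain ⟨C, hC, h⟩ := fin_gen hIC hHM 2 eps
    (fun ch c1 hnd => hCH ch c1 hnd eps heps) Sg hS
  refine ⟨C, hC, fun lam s a hlam hs => ?_⟩
  have h1 := h lam s a hlam hs
  have h3 : (((2 + 1 : ℕ) : ℝ)) = 3 := by norm_num
  rw [h3] at h1
  exact h1

end Pool.Agent.Lib.MP_a8dae7_an.D4.FIM
end

section
/-!
# MP_a8dae7_an, D4: module GA, the square root bound for quadratic Gauss sums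
-/
set_option autoImplicit false

namespace Pool.Agent.Lib.MP_a8dae7_an.D4.GAM

open Pool.Agent.Lib.MP_a8dae7_an.D4

/-- at most two `h` with `2 h = 0` -/
theorem card_two (q : ℕ) [NeZero q] (a : (ZMod q)ˣ) :
    (Finset.univ.filter (fun h : ZMod q => 2 * (a : ZMod q) * h = 0)).card ≤ 2 := by
  classical
  have hsub : Finset.univ.filter (fun h : ZMod q => 2 * (a : ZMod q) * h = 0) ⊆
      {(0 : ZMod q), ((q / 2 : ℕ) : ZMod q)} := by
    intro h hh
    have h1 : 2 * (a : ZMod q) * h = 0 := (Finset.mem_filter.mp hh).2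
    have h2 : (2 : ZMod q) * h = 0 := by
      have h3 : (a : ZMod q) * (2 * h) = 0 := by rw [← h1]; ring
      exact (Units.mul_right_eq_zero a).mp h3
    have h4 : ((2 * h.val : ℕ) : ZMod q) = 0 := by
      rw [Nat.cast_mul, ZMod.natCast_zmod_val]
      exact_mod_cast h2
    have h5 : q ∣ 2 * h.val := (ZMod.natCast_eq_zero_iff _ _).mp h4
    have h6 : h.val < q := ZMod.val_lt h
    obtain ⟨k, hk⟩ := h5
    have hk2 : k < 2 := by
      by_contra hcon
      push Not at hcon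
      have : q * 2 ≤ q * k := Nat.mul_le_mul_left q hcon
      omega
    rw [Finset.mem_insert, Finset.mem_singleton]
    interval_cases k
    · left
      have : h.val = 0 := by omega
      exact (ZMod.val_eq_zero h).mp this
    · right
      have h7 : h.val = q / 2 := by omega
      rw [← h7, ZMod.natCast_zmod_val]
  exact (Finset.card_le_card hsub).trans Finset.card_le_two

/-- the square of the absolute value -/
theorem sq_expand (q : ℕ) [NeZero q] (a b : ZMod q) :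
    Gs q a b * (starRingEnd ℂ) (Gs q a b) =
      ∑ h : ZMod q, ZMod.stdAddChar (a * h ^ 2 + b * h) *
        ∑ y : ZMod q, (ZMod.stdAddChar (y * (2 * a * h)) : ℂ) := by
  have h1 : (starRingEnd ℂ) (Gs q a b) = ∑ y : ZMod q, (ZMod.stdAddChar (-(a * y ^ 2 + b * y)) : ℂ) := by
    unfold Gs
    rw [map_sum]
    refine Finset.sum_congr rfl fun y _ => ?_
    rw [AddChar.map_neg_eq_conj]
  rw [h1]
  unfold Gs
  rw [Finset.mul_sum]
  have h2 : ∀ y : ZMod q, (∑ x : ZMod q, (ZMod.stdAddChar (a * x ^ 2 + b * x) : ℂ)) *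
      ZMod.stdAddChar (-(a * y ^ 2 + b * y)) =
      ∑ h : ZMod q, (ZMod.stdAddChar (a * h ^ 2 + b * h) : ℂ) * ZMod.stdAddChar (y * (2 * a * h)) := by
    intro y
    rw [Finset.sum_mul, ← Equiv.sum_comp (Equiv.addRight y)]
    refine Finset.sum_congr rfl fun h _ => ?_
    rw [Equiv.coe_addRight, ← AddChar.map_add_eq_mul, ← AddChar.map_add_eq_mul]
    congr 1
    ring
  rw [Finset.sum_congr rfl fun y _ => h2 y, Finset.sum_comm]
  refine Finset.sum_congr rfl fun h _ => ?_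
  rw [Finset.mul_sum]

theorem specGA : SpecGA := by
  classical
  intro q _ a b
  have h1 : ((‖Gs q a b‖ ^ 2 : ℝ) : ℂ) = Gs q a b * (starRingEnd ℂ) (Gs q a b) := by
    rw [Complex.mul_conj, Complex.normSq_eq_norm_sq]
  have h2 : ‖Gs q a b‖ ^ 2 = ‖Gs q a b * (starRingEnd ℂ) (Gs q a b)‖ := by
    rw [← h1, Complex.norm_real, Real.norm_of_nonneg (sq_nonneg _)]
  rw [h2, sq_expand]
  have h3 : ∀ h : ZMod q, ‖(ZMod.stdAddChar ((a : ZMod q) * h ^ 2 + b * h) : ℂ) *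
      ∑ y : ZMod q, (ZMod.stdAddChar (y * (2 * (a : ZMod q) * h)) : ℂ)‖ =
      if 2 * (a : ZMod q) * h = 0 then (q : ℝ) else 0 := by
    intro h
    rw [AddChar.sum_mulShift _ (ZMod.isPrimitive_stdAddChar q), norm_mul, AddChar.norm_apply, one_mul]
    split_ifs with hh
    · rw [ZMod.card]; simp
    · simp
  refine (norm_sum_le _ _).trans ?_
  rw [Finset.sum_congr rfl fun h _ => h3 h, ← Finset.sum_filter, Finset.sum_const, nsmul_eq_mul]
  have h4 : ((Finset.univ.filter (fun h : ZMod q => 2 * (a : ZMod q) * h = 0)).card : ℝ) ≤ 2 := by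
    exact_mod_cast card_two q a
  exact mul_le_mul_of_nonneg_right h4 (Nat.cast_nonneg q)

end Pool.Agent.Lib.MP_a8dae7_an.D4.GAM
end

section
/-!
# Module GF: the fourth power of the Gauss sum, odd squarefree modulus
-/
set_option autoImplicit false

namespace Pool.Agent.Lib.MP_a8dae7_an.D4.GFM

open Pool.Agent.Lib.MP_a8dae7_an.D4

variable {u : ℕ} [NeZero u]

/-- the standard character -/
noncomputable def e (t : ZMod u) : ℂ := ZMod.stdAddChar t

theorem e_add (s t : ZMod u) : e (s + t) = e s * e t := by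
  simp only [e]
  exact AddChar.map_add_eq_mul _ s t

theorem e_zero : e (0 : ZMod u) = 1 := by
  simp only [e]
  exact AddChar.map_zero_eq_one _

theorem e_norm (t : ZMod u) : ‖e t‖ = 1 := by
  simp only [e, ZMod.stdAddChar_apply]
  exact Circle.norm_coe _

theorem e_conj (t : ZMod u) : (starRingEnd ℂ) (e t) = e (-t) := by
  have h1 : e t * e (-t) = 1 := by rw [← e_add, add_neg_cancel, e_zero]
  have h2 : e t * (starRingEnd ℂ) (e t) = 1 := by
    rw [Complex.mul_conj, Complex.normSq_eq_norm_sq, e_norm]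
    norm_num
  have h0 : e t ≠ 0 := by
    intro h
    have := e_norm t
    rw [h, norm_zero] at this
    exact zero_ne_one this
  exact mul_left_cancel₀ h0 (h2.trans h1.symm)

theorem e_sum (b : ZMod u) : ∑ x : ZMod u, e (x * b) = if b = 0 then (u : ℂ) else 0 := by
  have h := AddChar.sum_mulShift b (ZMod.isPrimitive_stdAddChar u)
  rw [ZMod.card] at h
  simp only [e]
  rw [h]
  split_ifs <;> simp

theorem two_unit (hu : Odd u) : IsUnit (2 : ZMod u) := by
  have h : IsUnit ((2 : ℕ) : ZMod u) := by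
    rw [ZMod.isUnit_iff_coprime]
    exact Nat.coprime_two_left.mpr hu
  exact_mod_cast h

/-- (i) the absolute value -/
theorem norm_G (hu : Odd u) (a : (ZMod u)ˣ) :
    Gs u a 0 * (starRingEnd ℂ) (Gs u a 0) = (u : ℂ) := by
  have hG : Gs u a 0 = ∑ x : ZMod u, e ((a : ZMod u) * x ^ 2) := by
    simp only [Gs, zero_mul, add_zero, e]
  have hG2 : (starRingEnd ℂ) (Gs u a 0) = ∑ x : ZMod u, e (-((a : ZMod u) * x ^ 2)) := by
    rw [hG, map_sum]
    exact Finset.sum_congr rfl fun x _ => e_conj _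
  rw [hG2, hG, Finset.sum_mul_sum, Finset.sum_comm]
  have h1 : ∀ y : ZMod u, ∑ x : ZMod u, e ((a : ZMod u) * x ^ 2) * e (-((a : ZMod u) * y ^ 2)) =
      ∑ h : ZMod u, e ((a : ZMod u) * h ^ 2) * e (y * (2 * (a : ZMod u) * h)) := by
    intro y
    rw [← Equiv.sum_comp (Equiv.addRight y)]
    refine Finset.sum_congr rfl fun h _ => ?_
    rw [← e_add, ← e_add]
    congr 1
    simp only [Equiv.coe_addRight]
    ring
  rw [Finset.sum_congr rfl fun y _ => h1 y, Finset.sum_comm]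
  have h2 : ∀ h : ZMod u, ∑ y : ZMod u, e ((a : ZMod u) * h ^ 2) * e (y * (2 * (a : ZMod u) * h)) =
      if h = 0 then (u : ℂ) else 0 := by
    intro h
    rw [← Finset.mul_sum, e_sum]
    have h3 : (2 * (a : ZMod u) * h = 0) ↔ h = 0 := by
      rw [mul_assoc]
      rw [(two_unit hu).mul_right_eq_zero, a.isUnit.mul_right_eq_zero]
    simp only [h3]
    split_ifs with h4
    · rw [h4]
      simp [e_zero]
    · rw [mul_zero]
  rw [Finset.sum_congr rfl fun h _ => h2 h, Finset.sum_ite_eq' Finset.univ (0 : ZMod u)]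
  simp

/-- (ii) `-1` is a sum of two squares -/
theorem two_sq : ∀ u : ℕ, Squarefree u → ∃ α β : ZMod u, α ^ 2 + β ^ 2 = -1 := by
  intro u
  induction u using induction_on_primes with
  | zero => exact fun h => absurd h not_squarefree_zero
  | one => exact fun _ => ⟨0, 0, Subsingleton.elim _ _⟩
  | prime_mul p a hp ih =>
    intro h
    have hc : Nat.Coprime p a := (Nat.squarefree_mul_iff.mp h).1
    obtain ⟨α, β, h1⟩ := ih (Nat.squarefree_mul_iff.mp h).2.2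
    haveI : Fact p.Prime := ⟨hp⟩
    obtain ⟨γ, δ, h2⟩ := ZMod.sq_add_sq p (-1)
    refine ⟨(ZMod.chineseRemainder hc).symm (γ, α), (ZMod.chineseRemainder hc).symm (δ, β), ?_⟩
    rw [← map_pow, ← map_pow, ← map_add]
    apply (ZMod.chineseRemainder hc).injective
    rw [RingEquiv.apply_symm_apply, map_neg, map_one]
    ext
    · exact h2
    · exact h1

/-- (iii) -/
theorem G_sq {α β : ZMod u} (h : α ^ 2 + β ^ 2 = -1) (a : (ZMod u)ˣ) :
    Gs u a 0 ^ 2 = (starRingEnd ℂ) (Gs u a 0) ^ 2 := by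
  have hG : Gs u a 0 = ∑ x : ZMod u, e ((a : ZMod u) * x ^ 2) := by
    simp only [Gs, zero_mul, add_zero, e]
  have hG2 : (starRingEnd ℂ) (Gs u a 0) = ∑ x : ZMod u, e (-((a : ZMod u) * x ^ 2)) := by
    rw [hG, map_sum]
    exact Finset.sum_congr rfl fun x _ => e_conj _
  have h1 : Gs u a 0 ^ 2 = ∑ z : ZMod u × ZMod u, e ((a : ZMod u) * (z.1 ^ 2 + z.2 ^ 2)) := by
    rw [hG, sq, Finset.sum_mul_sum, Fintype.sum_prod_type]
    refine Finset.sum_congr rfl fun x _ => Finset.sum_congr rfl fun y _ => ?_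
    rw [← e_add, mul_add]
  have h2 : (starRingEnd ℂ) (Gs u a 0) ^ 2 =
      ∑ z : ZMod u × ZMod u, e (-((a : ZMod u) * (z.1 ^ 2 + z.2 ^ 2))) := by
    rw [hG2, sq, Finset.sum_mul_sum, Fintype.sum_prod_type]
    refine Finset.sum_congr rfl fun x _ => Finset.sum_congr rfl fun y _ => ?_
    rw [← e_add, mul_add, neg_add]
  have hinj : Function.Injective
      (fun z : ZMod u × ZMod u => (α * z.1 - β * z.2, β * z.1 + α * z.2)) := by
    rintro ⟨x, y⟩ ⟨x', y'⟩ hz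
    simp only [Prod.mk.injEq] at hz
    obtain ⟨e1, e2⟩ := hz
    have e3 : (α ^ 2 + β ^ 2) * x = (α ^ 2 + β ^ 2) * x' := by linear_combination α * e1 + β * e2
    have e4 : (α ^ 2 + β ^ 2) * y = (α ^ 2 + β ^ 2) * y' := by linear_combination α * e2 - β * e1
    rw [h] at e3 e4
    ext
    · linear_combination -e3
    · linear_combination -e4
  have hbij := Finite.injective_iff_bijective.mp hinj
  rw [h1, h2, ← hbij.sum_comp fun z : ZMod u × ZMod u => e ((a : ZMod u) * (z.1 ^ 2 + z.2 ^ 2))]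
  refine Finset.sum_congr rfl fun z _ => ?_
  congr 1
  linear_combination (a : ZMod u) * (z.1 ^ 2 + z.2 ^ 2) * h

theorem specGF : SpecGF := by
  intro u _ hu hsq a
  obtain ⟨α, β, h⟩ := two_sq u hsq
  have h1 := G_sq h a
  have h2 := norm_G hu a
  calc Gs u a 0 ^ 4 = Gs u a 0 ^ 2 * Gs u a 0 ^ 2 := by ring
    _ = Gs u a 0 ^ 2 * (starRingEnd ℂ) (Gs u a 0) ^ 2 := by rw [← h1]
    _ = (Gs u a 0 * (starRingEnd ℂ) (Gs u a 0)) ^ 2 := by ring
    _ = (u : ℂ) ^ 2 := by rw [h2]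

end Pool.Agent.Lib.MP_a8dae7_an.D4.GFM
end

section
/-!
# Module GS: odd squarefree modulus, the complete sum is a Kloosterman sum
-/
set_option autoImplicit false

namespace Pool.Agent.Lib.MP_a8dae7_an.D4.GSM

open Pool.Agent.Lib.MP_a8dae7_an.D4 GFM Pool.Agent.Lib.MP_1446ad_nt.SM

variable {u : ℕ} [NeZero u]

/-- completing the square; `w` is the inverse of `4` -/
theorem G_shift {w : ZMod u} (hw : 4 * w = 1) (a : (ZMod u)ˣ) (b : ZMod u) :
    Gs u a b = e (-(w * ((a⁻¹ : (ZMod u)ˣ) : ZMod u) * b ^ 2)) * Gs u a 0 := by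
  have hG : Gs u a 0 = ∑ x : ZMod u, e ((a : ZMod u) * x ^ 2) := by
    simp only [Gs, zero_mul, add_zero, e]
  have hGb : Gs u a b = ∑ x : ZMod u, e ((a : ZMod u) * x ^ 2 + b * x) := rfl
  have ha : (a : ZMod u) * ((a⁻¹ : (ZMod u)ˣ) : ZMod u) = 1 := a.mul_inv
  rw [hG, hGb, Finset.mul_sum,
    ← Equiv.sum_comp (Equiv.addRight (-(2 * w * ((a⁻¹ : (ZMod u)ˣ) : ZMod u) * b)))]
  refine Finset.sum_congr rfl fun x _ => ?_
  rw [← e_add]
  congr 1
  simp only [Equiv.coe_addRight]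
  linear_combination (x * b * (-(4 * w) + 0) + w * ((a⁻¹ : (ZMod u)ˣ) : ZMod u) * b ^ 2 * (4 * w)) * ha
    - x * b * hw + w * ((a⁻¹ : (ZMod u)ˣ) : ZMod u) * b ^ 2 * hw

/-- the product of the four Gauss sums -/
theorem G_prod (hu : Odd u) (hsq : Squarefree u) {w : ZMod u} (hw : 4 * w = 1) (a : (ZMod u)ˣ)
    (b : Fin 4 → ℤ) : ∏ i, Gs u a (b i : ZMod u) =
      (u : ℂ) ^ 2 * e (-(w * ((a⁻¹ : (ZMod u)ˣ) : ZMod u) * ∑ i, (b i : ZMod u) ^ 2)) := by
  have h1 : ∀ i, Gs u a (b i : ZMod u) =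
      e (-(w * ((a⁻¹ : (ZMod u)ˣ) : ZMod u) * (b i : ZMod u) ^ 2)) * Gs u a 0 := fun i =>
    G_shift hw a _
  rw [Finset.prod_congr rfl fun i _ => h1 i, Finset.prod_mul_distrib, Finset.prod_const,
    Finset.card_univ, Fintype.card_fin, specGF u hu hsq a, mul_comm]
  congr 1
  simp only [Fin.prod_univ_four, Fin.sum_univ_four, ← e_add]
  congr 1
  ring

/-- the Kloosterman sum as a sum over the units -/
theorem kc_one (h k : ℤ) : kc u 1 h k =
    ∑ x : (ZMod u)ˣ, e ((h : ZMod u) * (x : ZMod u) +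
      (k : ZMod u) * ((x⁻¹ : (ZMod u)ˣ) : ZMod u)) := by
  rw [kc, ← Fintype.sum_prod_type' (f := fun x z : ZMod u =>
    if x * z = ((1 : ℤ) : ZMod u) then
      ZMod.stdAddChar ((h : ZMod u) * x + (k : ZMod u) * z) else 0), ← Finset.sum_filter]
  symm
  refine Finset.sum_bij (fun (x : (ZMod u)ˣ) _ =>
    ((x : ZMod u), ((x⁻¹ : (ZMod u)ˣ) : ZMod u))) ?_ ?_ ?_ ?_
  · intro x _
    simp only [Finset.mem_filter, Finset.mem_univ, true_and, Int.cast_one]
    exact x.mul_inv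
  · intro x _ y _ hxy
    exact Units.ext (Prod.mk.inj hxy).1
  · rintro ⟨x, z⟩ hxz
    simp only [Finset.mem_filter, Finset.mem_univ, true_and, Int.cast_one] at hxz
    exact ⟨⟨x, z, hxz, by rw [mul_comm]; exact hxz⟩, Finset.mem_univ _, rfl⟩
  · intro x _
    rfl

/-- the complete sum is a Kloosterman sum -/
theorem Sc_eq (hu : Odd u) (hsq : Squarefree u) (A B C : ℤ) (b : Fin 4 → ℤ)
    (hA : Int.gcd A u = 1) : ∃ k : ℤ, Sc u A B C b = (u : ℂ) ^ 2 * kc u 1 B k := by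
  have h4 : IsUnit (4 : ZMod u) := by
    have h := (two_unit hu).mul (two_unit hu)
    have h5 : (2 : ZMod u) * 2 = 4 := by norm_num
    rwa [h5] at h
  obtain ⟨w, hw⟩ := h4.exists_right_inv
  have hAu : IsUnit (A : ZMod u) := by
    rw [ZMod.coe_int_isUnit_iff_isCoprime, Int.isCoprime_iff_gcd_eq_one, Int.gcd_comm]
    exact hA
  obtain ⟨A', hA'⟩ := hAu
  set k0 : ZMod u := (C : ZMod u) - w * ((A'⁻¹ : (ZMod u)ˣ) : ZMod u) * ∑ i, (b i : ZMod u) ^ 2
    with hk0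
  refine ⟨(k0.val : ℤ), ?_⟩
  have hk : (((k0.val : ℤ) : ℤ) : ZMod u) = k0 := by
    rw [Int.cast_natCast, ZMod.natCast_zmod_val]
  rw [kc_one, Finset.mul_sum, Sc]
  refine Finset.sum_congr rfl fun x _ => ?_
  have h1 : ∀ i, Gs u ((A : ZMod u) * (x : ZMod u)) (b i : ZMod u) =
      Gs u ((A' * x : (ZMod u)ˣ) : ZMod u) (b i : ZMod u) := by
    intro i
    rw [Units.val_mul, hA']
  rw [Finset.prod_congr rfl fun i _ => h1 i, G_prod hu hsq hw, hk, mul_assoc]
  congr 1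
  have h2 : ZMod.stdAddChar ((B : ZMod u) * (x : ZMod u) +
      (C : ZMod u) * ((x⁻¹ : (ZMod u)ˣ) : ZMod u)) =
      e ((B : ZMod u) * (x : ZMod u) + (C : ZMod u) * ((x⁻¹ : (ZMod u)ˣ) : ZMod u)) := rfl
  rw [h2, ← e_add]
  congr 1
  rw [mul_inv, Units.val_mul, hk0]
  ring

theorem specGS : SpecGS := by
  intro u _ hu hsq A B C b hA
  obtain ⟨k, hk⟩ := Sc_eq hu hsq A B C b hA
  have h := allSQF u hsq 1 B k
  rw [hk, norm_mul, norm_pow, Complex.norm_natCast]
  refine mul_le_mul_of_nonneg_left (h.trans (le_of_eq ?_)) (by positivity)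
  rw [Int.one_gcd, Nat.cast_one, Real.sqrt_one, mul_one]

end Pool.Agent.Lib.MP_a8dae7_an.D4.GSM
end
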