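import Pool.Agent.Lib.MP_a8dae7_an.D4.Spec
import Pool.Agent.Lib.MP_1446ad_nt.SM.GEO
import Pool.Agent.Lib.MP_1446ad_nt.SM.FOU
import Pool.Agent.Lib.MP_1446ad_nt.SM.BOX

/-!
# MP_a8dae7_an, D4, module KS: completion of incomplete sums
-/

set_option autoImplicit false

namespace Pool.Agent.Lib.MP_a8dae7_an.D4.KSM

open Finset
open Pool.Agent.Lib.MP_1446ad_nt.SM

/-- The sum of the Fourier coefficients of an interval (compare `BOXM.sumG`). -/
theorem sumG (hGEO : SpecGEO) (P : ℕ) [NeZero P] (L : ℕ) (q : ℤ) (hL : L ≤ P) :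
    ∑ k ∈ range P, ‖∑ j ∈ range L,
      ZMod.stdAddChar ((-((k : ℤ) * (q + (j : ℤ))) : ℤ) : ZMod P)‖ ≤
      (P : ℝ) * (2 + Real.log P) := by
  have hP : 0 < P := Nat.pos_of_ne_zero (NeZero.ne P)
  have hPR : (0 : ℝ) < P := by exact_mod_cast hP
  rw [BOXM.split P hP]
  have h0 : ‖∑ j ∈ range L,
      ZMod.stdAddChar ((-(((0 : ℕ) : ℤ) * (q + (j : ℤ))) : ℤ) : ZMod P)‖ ≤ (P : ℝ) := by
    have : ∑ j ∈ range L,
      ZMod.stdAddChar ((-(((0 : ℕ) : ℤ) * (q + (j : ℤ))) : ℤ) : ZMod P) = (L : ℂ) := by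
      simp
    rw [this]
    simp only [Complex.norm_natCast]
    exact_mod_cast hL
  have h1 : ∀ k ∈ Ioo 0 P, ‖∑ j ∈ range L,
      ZMod.stdAddChar ((-((k : ℤ) * (q + (j : ℤ))) : ℤ) : ZMod P)‖ ≤
      (P : ℝ) / 2 * (1 / (k : ℝ) + 1 / ((P : ℝ) - k)) := by
    intro k hk
    rw [mem_Ioo] at hk
    have hk0 : (0 : ℝ) < k := by exact_mod_cast hk.1
    have hk1 : (k : ℝ) < P := by exact_mod_cast hk.2
    have hkP : (0 : ℝ) < (P : ℝ) - k := by linarith
    have hnd : ¬ (P : ℤ) ∣ -(k : ℤ) := by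
      rw [dvd_neg]
      intro hd
      have := Int.le_of_dvd (by omega) hd
      omega
    have h2 := BOXM.geo hGEO P L (-((k : ℤ) * q)) (-(k : ℤ)) hnd
    have h3 : ∀ j : ℕ, (-((k : ℤ) * (q + (j : ℤ))) : ℤ) = -((k : ℤ) * q) + -(k : ℤ) * (j : ℤ) := by
      intro j; ring
    simp only [h3]
    have h4 : BOXM.rs P (-(k : ℤ)) = P - k := by
      have h5 := BOXM.rs_cast P (-(k : ℤ))
      have h6 : (-(k : ℤ)) % (P : ℤ) = P - k := by
        rw [← Int.add_emod_right]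
        rw [Int.emod_eq_of_lt] <;> omega
      rw [h6] at h5
      omega
    rw [h4, Nat.cast_sub hk.2.le] at h2
    refine h2.trans ?_
    have h7 : (P : ℝ) - ((P : ℝ) - k) = k := by ring
    rw [h7]
    rcases min_cases ((P : ℝ) - k) (k : ℝ) with ⟨hm, _⟩ | ⟨hm, _⟩
    · rw [hm]
      have : (P : ℝ) / (2 * ((P : ℝ) - k)) = (P : ℝ) / 2 * (1 / ((P : ℝ) - k)) := by
        field_simp
      rw [this]
      apply mul_le_mul_of_nonneg_left _ (by positivity)
      have : 0 ≤ 1 / (k : ℝ) := by positivity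
      linarith
    · rw [hm]
      have : (P : ℝ) / (2 * (k : ℝ)) = (P : ℝ) / 2 * (1 / (k : ℝ)) := by
        field_simp
      rw [this]
      apply mul_le_mul_of_nonneg_left _ (by positivity)
      have : 0 ≤ 1 / ((P : ℝ) - k) := by positivity
      linarith
  have h2 : ∑ k ∈ Ioo 0 P, 1 / ((P : ℝ) - k) = ∑ k ∈ Ioo 0 P, 1 / (k : ℝ) := by
    apply Finset.sum_nbij' (fun k => P - k) (fun k => P - k)
    · intro k hk
      rw [mem_Ioo] at hk ⊢
      omega
    · intro k hk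
      rw [mem_Ioo] at hk ⊢
      omega
    · intro k hk
      rw [mem_Ioo] at hk
      show P - (P - k) = k
      omega
    · intro k hk
      rw [mem_Ioo] at hk
      show P - (P - k) = k
      omega
    · intro k hk
      rw [mem_Ioo] at hk
      rw [Nat.cast_sub hk.2.le]
  have h3 := BOXM.harm P
  have h4 : ∑ k ∈ Ioo 0 P, ‖∑ j ∈ range L,
      ZMod.stdAddChar ((-((k : ℤ) * (q + (j : ℤ))) : ℤ) : ZMod P)‖ ≤
      (P : ℝ) * (1 + Real.log P) := by
    calc _ ≤ ∑ k ∈ Ioo 0 P, (P : ℝ) / 2 * (1 / (k : ℝ) + 1 / ((P : ℝ) - k)) := sum_le_sum h1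
      _ = (P : ℝ) / 2 * (∑ k ∈ Ioo 0 P, 1 / (k : ℝ) + ∑ k ∈ Ioo 0 P, 1 / ((P : ℝ) - k)) := by
          rw [← mul_sum, sum_add_distrib]
      _ = (P : ℝ) / 2 * (2 * ∑ k ∈ Ioo 0 P, 1 / (k : ℝ)) := by rw [h2]; ring
      _ ≤ (P : ℝ) / 2 * (2 * (1 + Real.log P)) := by
          apply mul_le_mul_of_nonneg_left _ (by positivity)
          linarith
      _ = _ := by ring
  linarith

/-- The indicator of the residue class, expanded. -/
theorem expand (q : ℕ) [NeZero q] (Psi : ZMod q → ℂ) (a b : ℕ) :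
    (q : ℂ) * ∑ x ∈ (Ioc a b).filter (fun x => Nat.Coprime x q), Psi (x : ZMod q) =
      ∑ k ∈ range q, (∑ x ∈ Ioc a b, ZMod.stdAddChar ((-((k : ℤ) * (x : ℤ)) : ℤ) : ZMod q)) *
        ∑ y : (ZMod q)ˣ, Psi y * ZMod.stdAddChar ((((k : ℤ)) : ZMod q) * (y : ZMod q)) := by
  have h1 : ∀ x ∈ Ioc a b, (∑ k ∈ range q, ∑ y : (ZMod q)ˣ,
      ZMod.stdAddChar ((-((k : ℤ) * (x : ℤ)) : ℤ) : ZMod q) *
        (Psi y * ZMod.stdAddChar ((((k : ℤ)) : ZMod q) * (y : ZMod q)))) =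
      if Nat.Coprime x q then (q : ℂ) * Psi (x : ZMod q) else 0 := by
    intro x _
    rw [Finset.sum_comm]
    have h2 : ∀ y : (ZMod q)ˣ, ∑ k ∈ range q,
      ZMod.stdAddChar ((-((k : ℤ) * (x : ℤ)) : ℤ) : ZMod q) *
        (Psi y * ZMod.stdAddChar ((((k : ℤ)) : ZMod q) * (y : ZMod q))) =
        if (y : ZMod q) = (x : ZMod q) then (q : ℂ) * Psi y else 0 := by
      intro y
      have h3 := FOUM.orth q ((y : ZMod q) - (x : ZMod q))
      have h4 := FOUM.sum_range_zmod q (fun z : ZMod q =>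
        (ZMod.stdAddChar (z * ((y : ZMod q) - (x : ZMod q))) : ℂ))
      rw [h3] at h4
      calc _ = ∑ k ∈ range q, Psi y * ZMod.stdAddChar (((k : ℕ) : ZMod q) * ((y : ZMod q) - (x : ZMod q))) := by
            apply Finset.sum_congr rfl
            intro k _
            rw [mul_left_comm, ← AddChar.map_add_eq_mul]
            congr 2
            push_cast
            ring
        _ = Psi y * ∑ k ∈ range q, ZMod.stdAddChar (((k : ℕ) : ZMod q) * ((y : ZMod q) - (x : ZMod q))) := by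
            rw [Finset.mul_sum]
        _ = _ := by
            rw [h4]
            by_cases h5 : (y : ZMod q) = (x : ZMod q)
            · rw [if_pos h5, if_pos (sub_eq_zero.mpr h5), mul_comm]
            · rw [if_neg h5, if_neg (fun h => h5 (sub_eq_zero.mp h)), mul_zero]
    rw [Finset.sum_congr rfl fun y _ => h2 y]
    split_ifs with hc
    · have h6 : ∀ y : (ZMod q)ˣ, ((y : ZMod q) = (x : ZMod q)) ↔ y = ZMod.unitOfCoprime x hc := by
        intro y
        rw [Units.ext_iff, ZMod.coe_unitOfCoprime]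
      simp only [h6]
      rw [Finset.sum_ite_eq' Finset.univ, if_pos (Finset.mem_univ _), ZMod.coe_unitOfCoprime]
    · apply Finset.sum_eq_zero
      intro y _
      rw [if_neg]
      intro h7
      apply hc
      rw [← ZMod.isUnit_iff_coprime, ← h7]
      exact y.isUnit
  symm
  calc ∑ k ∈ range q, (∑ x ∈ Ioc a b, ZMod.stdAddChar ((-((k : ℤ) * (x : ℤ)) : ℤ) : ZMod q)) *
        ∑ y : (ZMod q)ˣ, Psi y * ZMod.stdAddChar ((((k : ℤ)) : ZMod q) * (y : ZMod q))
      = ∑ k ∈ range q, ∑ x ∈ Ioc a b, ∑ y : (ZMod q)ˣ,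
      ZMod.stdAddChar ((-((k : ℤ) * (x : ℤ)) : ℤ) : ZMod q) *
        (Psi y * ZMod.stdAddChar ((((k : ℤ)) : ZMod q) * (y : ZMod q))) := by
        apply Finset.sum_congr rfl
        intro k _
        rw [Finset.sum_mul]
        apply Finset.sum_congr rfl
        intro x _
        rw [Finset.mul_sum]
    _ = ∑ x ∈ Ioc a b, if Nat.Coprime x q then (q : ℂ) * Psi (x : ZMod q) else 0 := by
        rw [Finset.sum_comm]
        exact Finset.sum_congr rfl h1
    _ = _ := by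
        rw [← Finset.sum_filter, Finset.mul_sum]

theorem specKS : SpecKS := by
  intro q _ Psi M a b hab hM
  have hP : 0 < q := Nat.pos_of_ne_zero (NeZero.ne q)
  have hPR : (0 : ℝ) < q := by exact_mod_cast hP
  have hM0 : 0 ≤ M := (norm_nonneg _).trans (hM 0)
  have h1 := expand q Psi a b
  have h2 : ∀ k : ℕ, ∑ x ∈ Ioc a b, (ZMod.stdAddChar ((-((k : ℤ) * (x : ℤ)) : ℤ) : ZMod q) : ℂ) =
      ∑ j ∈ range (b - a), ZMod.stdAddChar ((-((k : ℤ) * (((a + 1 : ℕ) : ℤ) + (j : ℤ))) : ℤ) : ZMod q) := by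
    intro k
    apply Finset.sum_nbij' (fun x => x - (a + 1)) (fun j => a + 1 + j)
    · intro x hx
      rw [mem_Ioc] at hx
      rw [mem_range]
      omega
    · intro x hx
      rw [mem_range] at hx
      rw [mem_Ioc]
      omega
    · intro x hx
      rw [mem_Ioc] at hx
      show a + 1 + (x - (a + 1)) = x
      omega
    · intro x hx
      show a + 1 + x - (a + 1) = x
      omega
    · intro x hx
      rw [mem_Ioc] at hx
      have : ((a + 1 : ℕ) : ℤ) + ((x - (a + 1) : ℕ) : ℤ) = x := by omega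
      rw [this]
  have h3 := sumG specGEO q (b - a) ((a + 1 : ℕ) : ℤ) (by omega)
  have h4 : (q : ℝ) * ‖∑ x ∈ (Ioc a b).filter (fun x => Nat.Coprime x q), Psi (x : ZMod q)‖ ≤
      (q : ℝ) * ((2 + Real.log q) * M) := by
    calc (q : ℝ) * ‖∑ x ∈ (Ioc a b).filter (fun x => Nat.Coprime x q), Psi (x : ZMod q)‖
        = ‖(q : ℂ) * ∑ x ∈ (Ioc a b).filter (fun x => Nat.Coprime x q), Psi (x : ZMod q)‖ := by
          rw [norm_mul, Complex.norm_natCast]
      _ ≤ ∑ k ∈ range q, ‖(∑ x ∈ Ioc a b, ZMod.stdAddChar ((-((k : ℤ) * (x : ℤ)) : ℤ) : ZMod q)) *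
        ∑ y : (ZMod q)ˣ, Psi y * ZMod.stdAddChar ((((k : ℤ)) : ZMod q) * (y : ZMod q))‖ := by
          rw [h1]
          exact norm_sum_le _ _
      _ ≤ ∑ k ∈ range q, ‖∑ j ∈ range (b - a),
          ZMod.stdAddChar ((-((k : ℤ) * (((a + 1 : ℕ) : ℤ) + (j : ℤ))) : ℤ) : ZMod q)‖ * M := by
          apply Finset.sum_le_sum
          intro k _
          rw [norm_mul, h2 k]
          exact mul_le_mul_of_nonneg_left (hM k) (norm_nonneg _)
      _ ≤ (q : ℝ) * (2 + Real.log q) * M := by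
          rw [← Finset.sum_mul]
          exact mul_le_mul_of_nonneg_right h3 hM0
      _ = _ := by ring
  exact le_of_mul_le_mul_left h4 hPR

end Pool.Agent.Lib.MP_a8dae7_an.D4.KSM
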