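import Pool.Agent.Lib.MP_a8dae7_an.D4.Spec
import Pool.Agent.Lib.MP_1446ad_nt.SM.KMU
import Mathlib.NumberTheory.ModularForms.JacobiTheta.TwoVariable
import Mathlib.Analysis.SpecialFunctions.Gaussian.PoissonSummation

section
/-!
# MP_a8dae7_an, D4: module GM, multiplicativity of the complete sums
-/
set_option autoImplicit false

namespace Pool.Agent.Lib.MP_a8dae7_an.D4

namespace GMM

open Pool.Agent.Lib.MP_1446ad_nt.SM Pool.Agent.Lib.MP_1446ad_nt.SM.KMUM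

/-- substitution `y = s z` in a sum over `ZMod u`, where `r s = 1` -/
lemma gs_sub (u : ℕ) [NeZero u] (r s : ZMod u) (hrs : r * s = 1) (a b : ZMod u) :
    ∑ y : ZMod u, ZMod.stdAddChar (r * (a * y ^ 2 + b * y)) = Gs u (a * s) b := by
  unfold Gs
  have hbij : Function.Bijective (fun z : ZMod u => s * z) := by
    refine ⟨fun z z' h => ?_, fun y => ⟨r * y, ?_⟩⟩
    · have h1 : r * (s * z) = r * (s * z') := congrArg (fun t => r * t) h
      rwa [← mul_assoc, ← mul_assoc, hrs, one_mul, one_mul] at h1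
    · change s * (r * y) = y
      rw [← mul_assoc, mul_comm s r, hrs, one_mul]
  rw [← Function.Bijective.sum_comp hbij (fun y => (ZMod.stdAddChar (r * (a * y ^ 2 + b * y)) : ℂ))]
  refine Finset.sum_congr rfl (fun z _ => ?_)
  congr 1
  linear_combination (a * s * z ^ 2 + b * z) * hrs

/-- multiplicativity of the Gauss sums -/
lemma gs_split (u v : ℕ) [NeZero u] [NeZero v] [NeZero (u * v)] (huv : Nat.Coprime u v)
    (al be : ℤ) (hab : be * u + al * v = 1) (a : ZMod (u * v)) (b : ℤ) :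
    Gs (u * v) a (b : ZMod (u * v)) =
      Gs u ((ZMod.chineseRemainder huv a).1 * (v : ZMod u)) (b : ZMod u) *
      Gs v ((ZMod.chineseRemainder huv a).2 * (u : ZMod v)) (b : ZMod v) := by
  have hu : (al : ZMod u) * (v : ZMod u) = 1 := by
    have h := congrArg (fun t : ℤ => (t : ZMod u)) hab
    push_cast at h
    rw [ZMod.natCast_self, mul_zero, zero_add] at h
    exact h
  have hv : (be : ZMod v) * (u : ZMod v) = 1 := by
    have h := congrArg (fun t : ℤ => (t : ZMod v)) hab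
    push_cast at h
    rw [ZMod.natCast_self, mul_zero, add_zero] at h
    exact h
  rw [← gs_sub u (al : ZMod u) (v : ZMod u) hu, ← gs_sub v (be : ZMod v) (u : ZMod v) hv]
  have e4 : Gs (u * v) a (b : ZMod (u * v)) = ∑ X : ZMod u × ZMod v,
      (ZMod.stdAddChar ((al : ZMod u) * ((ZMod.chineseRemainder huv a).1 * X.1 ^ 2 + (b : ZMod u) * X.1)) : ℂ) *
      ZMod.stdAddChar ((be : ZMod v) * ((ZMod.chineseRemainder huv a).2 * X.2 ^ 2 + (b : ZMod v) * X.2)) := by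
    unfold Gs
    rw [← Equiv.sum_comp (ZMod.chineseRemainder huv).toEquiv (fun X : ZMod u × ZMod v =>
      (ZMod.stdAddChar ((al : ZMod u) * ((ZMod.chineseRemainder huv a).1 * X.1 ^ 2 + (b : ZMod u) * X.1)) : ℂ) *
      ZMod.stdAddChar ((be : ZMod v) * ((ZMod.chineseRemainder huv a).2 * X.2 ^ 2 + (b : ZMod v) * X.2)))]
    refine Finset.sum_congr rfl (fun y _ => ?_)
    rw [std_split u v huv al be hab]
    have h4 : (ZMod.chineseRemainder huv) (a * y ^ 2 + (b : ZMod (u * v)) * y) =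
        ((ZMod.chineseRemainder huv a).1 * (ZMod.chineseRemainder huv y).1 ^ 2 +
          (b : ZMod u) * (ZMod.chineseRemainder huv y).1,
         (ZMod.chineseRemainder huv a).2 * (ZMod.chineseRemainder huv y).2 ^ 2 +
          (b : ZMod v) * (ZMod.chineseRemainder huv y).2) := by
      rw [map_add, map_mul, map_mul, map_pow, cr_int]
      rfl
    rw [h4]
    rfl
  rw [e4, Fintype.sum_prod_type, Finset.sum_mul_sum]

/-- the pairs of units -/
noncomputable def ue (u v : ℕ) (huv : Nat.Coprime u v) : (ZMod (u * v))ˣ ≃* (ZMod u)ˣ × (ZMod v)ˣ :=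
  (Units.mapEquiv (ZMod.chineseRemainder huv).toMulEquiv).trans MulEquiv.prodUnits

lemma ue_fst (u v : ℕ) (huv : Nat.Coprime u v) (x : (ZMod (u * v))ˣ) :
    (((ue u v huv x).1 : (ZMod u)ˣ) : ZMod u) = (ZMod.chineseRemainder huv (x : ZMod (u * v))).1 := rfl

lemma ue_snd (u v : ℕ) (huv : Nat.Coprime u v) (x : (ZMod (u * v))ˣ) :
    (((ue u v huv x).2 : (ZMod v)ˣ) : ZMod v) = (ZMod.chineseRemainder huv (x : ZMod (u * v))).2 := rfl

end GMM

open GMM Pool.Agent.Lib.MP_1446ad_nt.SM Pool.Agent.Lib.MP_1446ad_nt.SM.KMUM in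
/-- Multiplicativity of `Sc`. -/
theorem GMM.specGM : SpecGM := by
  intro u v _ _ _ huv A B C b
  obtain ⟨be, al, hab⟩ := Nat.isCoprime_iff_coprime.mpr huv
  refine ⟨al, be, ?_, ?_, ?_⟩
  · rw [← Int.isCoprime_iff_gcd_eq_one]
    exact ⟨v, be, by rw [← hab]; ring⟩
  · rw [← Int.isCoprime_iff_gcd_eq_one]
    exact ⟨u, al, by rw [← hab]; ring⟩
  · set T1 : (ZMod u)ˣ → ℂ := fun x => (∏ i, Gs u (((A * v : ℤ) : ZMod u) * (x : ZMod u)) (b i : ZMod u)) *
      ZMod.stdAddChar (((al * B : ℤ) : ZMod u) * (x : ZMod u) +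
        ((al * C : ℤ) : ZMod u) * ((x⁻¹ : (ZMod u)ˣ) : ZMod u)) with hT1
    set T2 : (ZMod v)ˣ → ℂ := fun x => (∏ i, Gs v (((A * u : ℤ) : ZMod v) * (x : ZMod v)) (b i : ZMod v)) *
      ZMod.stdAddChar (((be * B : ℤ) : ZMod v) * (x : ZMod v) +
        ((be * C : ℤ) : ZMod v) * ((x⁻¹ : (ZMod v)ˣ) : ZMod v)) with hT2
    have e1 : Sc u (A * v) (al * B) (al * C) b = ∑ x, T1 x := rfl
    have e2 : Sc v (A * u) (be * B) (be * C) b = ∑ x, T2 x := rfl
    have e3 : Sc (u * v) A B C b = ∑ X : (ZMod u)ˣ × (ZMod v)ˣ, T1 X.1 * T2 X.2 := by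
      rw [← Equiv.sum_comp (ue u v huv).toEquiv (fun X : (ZMod u)ˣ × (ZMod v)ˣ => T1 X.1 * T2 X.2)]
      unfold Sc
      refine Finset.sum_congr rfl (fun x _ => ?_)
      have h1 : ∀ i, Gs (u * v) ((A : ZMod (u * v)) * (x : ZMod (u * v))) (b i : ZMod (u * v)) =
          Gs u (((A * v : ℤ) : ZMod u) * ((ue u v huv x).1 : ZMod u)) (b i : ZMod u) *
          Gs v (((A * u : ℤ) : ZMod v) * ((ue u v huv x).2 : ZMod v)) (b i : ZMod v) := by
        intro i
        rw [gs_split u v huv al be hab, map_mul, cr_int, ue_fst, ue_snd]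
        congr 2
        · simp only [Prod.fst_mul]
          push_cast
          ring
        · simp only [Prod.snd_mul]
          push_cast
          ring
      have h2 : (ZMod.stdAddChar ((B : ZMod (u * v)) * (x : ZMod (u * v)) +
          (C : ZMod (u * v)) * ((x⁻¹ : (ZMod (u * v))ˣ) : ZMod (u * v))) : ℂ) =
          ZMod.stdAddChar (((al * B : ℤ) : ZMod u) * ((ue u v huv x).1 : ZMod u) +
            ((al * C : ℤ) : ZMod u) * ((((ue u v huv x).1)⁻¹ : (ZMod u)ˣ) : ZMod u)) *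
          ZMod.stdAddChar (((be * B : ℤ) : ZMod v) * ((ue u v huv x).2 : ZMod v) +
            ((be * C : ℤ) : ZMod v) * ((((ue u v huv x).2)⁻¹ : (ZMod v)ˣ) : ZMod v)) := by
        have h5 : (ue u v huv x).1⁻¹ = (ue u v huv x⁻¹).1 := by rw [map_inv]; rfl
        have h6 : (ue u v huv x).2⁻¹ = (ue u v huv x⁻¹).2 := by rw [map_inv]; rfl
        have h7 : (ZMod.chineseRemainder huv) ((B : ZMod (u * v)) * (x : ZMod (u * v)) +
            (C : ZMod (u * v)) * ((x⁻¹ : (ZMod (u * v))ˣ) : ZMod (u * v))) =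
            ((B : ZMod u) * ((ue u v huv x).1 : ZMod u) + (C : ZMod u) * ((ue u v huv x⁻¹).1 : ZMod u),
             (B : ZMod v) * ((ue u v huv x).2 : ZMod v) + (C : ZMod v) * ((ue u v huv x⁻¹).2 : ZMod v)) := by
          rw [map_add, map_mul, map_mul, cr_int, cr_int]
          rfl
        rw [std_split u v huv al be hab, h5, h6, h7]
        congr 2
        · simp only []
          push_cast
          ring
        · simp only []
          push_cast
          ring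
      simp only [h1, h2, Finset.prod_mul_distrib, hT1, hT2]
      change _ = ((∏ i, Gs u (((A * v : ℤ) : ZMod u) * ((ue u v huv x).1 : ZMod u)) (b i : ZMod u)) *
        ZMod.stdAddChar (((al * B : ℤ) : ZMod u) * ((ue u v huv x).1 : ZMod u) +
        ((al * C : ℤ) : ZMod u) * (((ue u v huv x).1⁻¹ : (ZMod u)ˣ) : ZMod u))) *
        ((∏ i, Gs v (((A * u : ℤ) : ZMod v) * ((ue u v huv x).2 : ZMod v)) (b i : ZMod v)) *
      ZMod.stdAddChar (((be * B : ℤ) : ZMod v) * ((ue u v huv x).2 : ZMod v) +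
        ((be * C : ℤ) : ZMod v) * (((ue u v huv x).2⁻¹ : (ZMod v)ˣ) : ZMod v)))
      ring
    rw [e1, e2, e3, Fintype.sum_prod_type, Finset.sum_mul_sum]

end Pool.Agent.Lib.MP_a8dae7_an.D4
end

section
/-!
# MP_a8dae7_an, D4: module JC, the integral counts points
-/
set_option autoImplicit false

open MeasureTheory

namespace Pool.Agent.Lib.MP_a8dae7_an.D4

namespace JCM

/-- a product of absolutely convergent series -/
lemma prod_tsum {K : Type} [NormedField K] [CompleteSpace K] : ∀ (n : ℕ) (f : Fin n → ℤ → K),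
    (∀ i, Summable fun x => ‖f i x‖) →
    (Summable fun m : Fin n → ℤ => ‖∏ i, f i (m i)‖) ∧
      ∑' m : Fin n → ℤ, ∏ i, f i (m i) = ∏ i, ∑' x, f i x := by
  intro n
  induction n with
  | zero =>
    intro f _
    refine ⟨(hasSum_fintype _).summable, ?_⟩
    rw [tsum_fintype]
    simp
  | succ n ih =>
    intro f hf
    obtain ⟨h1, h2⟩ := ih (fun i => f i.succ) (fun i => hf i.succ)
    have e : ∀ p : ℤ × (Fin n → ℤ), ∏ i, f i (Fin.consEquiv (fun _ => ℤ) p i) =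
        f 0 p.1 * ∏ i : Fin n, f i.succ (p.2 i) := by
      intro p
      rw [Fin.prod_univ_succ]
      simp [Fin.consEquiv]
    constructor
    · rw [← (Fin.consEquiv (fun _ : Fin (n + 1) => ℤ)).summable_iff]
      refine (Summable.mul_norm (hf 0) h1).congr (fun p => ?_)
      simp only [Function.comp_apply]
      rw [e]
    · rw [← (Fin.consEquiv (fun _ : Fin (n + 1) => ℤ)).tsum_eq, tsum_congr e, Fin.prod_univ_succ, ← h2,
        tsum_mul_tsum_of_summable_norm (hf 0) h1]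

/-- the Gaussian weight is summable -/
lemma sumG (rho : ℝ) (hr : 0 < rho) (c : ℤ) :
    Summable fun x : ℤ => Real.exp (-(Real.pi * ((x : ℝ) - c) ^ 2 / rho ^ 2)) := by
  have h2 : Summable fun x : ℤ => Real.exp (-(Real.pi * (x : ℝ) ^ 2 / rho ^ 2)) := by
    have h0 : (0 : ℝ) < (rho ^ 2)⁻¹ := by positivity
    refine (summable_pow_mul_jacobiTheta₂_term_bound 0 h0 0).congr (fun x => ?_)
    rw [pow_zero, one_mul]
    congr 1
    field_simp
    ring
  have h4 := (Equiv.subRight c).summable_iff.mpr h2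
  refine h4.congr (fun x => ?_)
  simp [Equiv.subRight]

/-- the terms of `th` -/
noncomputable def T (rho : ℝ) (c x : ℤ) (al : ℝ) : ℂ :=
  Complex.exp (((-(Real.pi * ((x : ℝ) - c) ^ 2 / rho ^ 2) : ℝ) : ℂ) +
    2 * Real.pi * Complex.I * ((al * (x : ℝ) ^ 2 : ℝ) : ℂ))

lemma T_norm (rho : ℝ) (c x : ℤ) (al : ℝ) :
    ‖T rho c x al‖ = Real.exp (-(Real.pi * ((x : ℝ) - c) ^ 2 / rho ^ 2)) := by
  unfold T
  rw [Complex.norm_exp]
  congr 1
  have h1 : (2 * (Real.pi : ℂ) * Complex.I * ((al * (x : ℝ) ^ 2 : ℝ) : ℂ)) =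
      ((2 * Real.pi * (al * (x : ℝ) ^ 2) : ℝ) : ℂ) * Complex.I := by
    push_cast
    ring
  rw [h1, Complex.add_re, Complex.ofReal_re, Complex.re_ofReal_mul, Complex.I_re, mul_zero, add_zero]

lemma T_cont (rho : ℝ) (c x : ℤ) : Continuous (T rho c x) := by
  unfold T
  fun_prop

lemma T_per (rho : ℝ) (c x : ℤ) (al : ℝ) : T rho c x (al + 1) = T rho c x al := by
  unfold T
  have h1 : (((-(Real.pi * ((x : ℝ) - c) ^ 2 / rho ^ 2) : ℝ) : ℂ) +
      2 * Real.pi * Complex.I * (((al + 1) * (x : ℝ) ^ 2 : ℝ) : ℂ)) =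
      (((-(Real.pi * ((x : ℝ) - c) ^ 2 / rho ^ 2) : ℝ) : ℂ) +
      2 * Real.pi * Complex.I * ((al * (x : ℝ) ^ 2 : ℝ) : ℂ)) +
      ((x ^ 2 : ℤ) : ℂ) * (2 * Real.pi * Complex.I) := by
    push_cast
    ring
  rw [h1, Complex.exp_add, Complex.exp_int_mul_two_pi_mul_I, mul_one]

lemma th_cont (rho : ℝ) (hr : 0 < rho) (c : ℤ) : Continuous (th rho c) := by
  unfold th
  exact continuous_tsum (fun x => T_cont rho c x) (sumG rho hr c) (fun x al => (T_norm rho c x al).le)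

lemma th_per (rho : ℝ) (c : ℤ) (al : ℝ) : th rho c (al + 1) = th rho c al := by
  unfold th
  exact tsum_congr (fun x => T_per rho c x al)

/-- the terms of `H4` -/
noncomputable def TT (rho : ℝ) (c : Fin 4 → ℤ) (N : ℕ) (n : Fin 4 → ℤ) (al : ℝ) : ℂ :=
  (∏ i, T rho (c i) (n i) al) * Complex.exp (-(2 * Real.pi * Complex.I * (((N : ℝ) * al : ℝ) : ℂ)))

/-- the weight -/
noncomputable def GG (rho : ℝ) (c n : Fin 4 → ℤ) : ℝ :=
  ∏ i, Real.exp (-(Real.pi * ((n i : ℝ) - c i) ^ 2 / rho ^ 2))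

lemma e_norm (N : ℕ) (al : ℝ) : ‖Complex.exp (-(2 * Real.pi * Complex.I * (((N : ℝ) * al : ℝ) : ℂ)))‖ = 1 := by
  have h1 : (-(2 * (Real.pi : ℂ) * Complex.I * (((N : ℝ) * al : ℝ) : ℂ))) =
      ((-(2 * Real.pi * (N * al)) : ℝ) : ℂ) * Complex.I := by
    push_cast
    ring
  rw [h1, Complex.norm_exp_ofReal_mul_I]

lemma TT_norm (rho : ℝ) (c : Fin 4 → ℤ) (N : ℕ) (n : Fin 4 → ℤ) (al : ℝ) :
    ‖TT rho c N n al‖ = GG rho c n := by
  unfold TT GG
  rw [norm_mul, e_norm, mul_one, norm_prod]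
  exact Finset.prod_congr rfl (fun i _ => T_norm rho (c i) (n i) al)

lemma TT_cont (rho : ℝ) (c : Fin 4 → ℤ) (N : ℕ) (n : Fin 4 → ℤ) : Continuous (TT rho c N n) := by
  unfold TT
  refine (continuous_finsetProd _ (fun i _ => T_cont rho (c i) (n i))).mul ?_
  fun_prop

lemma GG_sum (rho : ℝ) (hr : 0 < rho) (c : Fin 4 → ℤ) : Summable (GG rho c) := by
  have h := (prod_tsum 4 (fun i x => Real.exp (-(Real.pi * ((x : ℝ) - c i) ^ 2 / rho ^ 2)))
    (fun i => (sumG rho hr (c i)).norm)).1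
  refine h.congr (fun n => ?_)
  rw [Real.norm_of_nonneg (Finset.prod_nonneg (fun i _ => (Real.exp_pos _).le))]
  rfl

lemma H4_eq (rho : ℝ) (hr : 0 < rho) (c : Fin 4 → ℤ) (N : ℕ) (al : ℝ) :
    HasSum (fun n => TT rho c N n al) (H4 rho c N al) := by
  have h := prod_tsum 4 (fun i x => T rho (c i) x al) (fun i => by
    refine (sumG rho hr (c i)).congr (fun x => ?_)
    rw [T_norm])
  have h1 : HasSum (fun n : Fin 4 → ℤ => ∏ i, T rho (c i) (n i) al) (F4 rho c al) := by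
    have h2 := h.1.of_norm.hasSum
    rw [h.2] at h2
    exact h2
  exact h1.mul_right _

/-- the integral of one term -/
lemma TT_int (rho : ℝ) (c : Fin 4 → ℤ) (N : ℕ) (n : Fin 4 → ℤ) :
    ∫ al in (0 : ℝ)..1, TT rho c N n al = if ∑ i, n i ^ 2 = (N : ℤ) then (GG rho c n : ℂ) else 0 := by
  have h1 : ∀ al : ℝ, TT rho c N n al = (GG rho c n : ℂ) *
      Complex.exp ((2 * Real.pi * Complex.I * ((∑ i, n i ^ 2 - (N : ℤ) : ℤ) : ℂ)) * (al : ℂ)) := by
    intro al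
    unfold TT GG T
    rw [← Complex.exp_sum, ← Real.exp_sum, Complex.ofReal_exp, ← Complex.exp_add, ← Complex.exp_add]
    congr 1
    rw [Finset.sum_add_distrib]
    push_cast
    rw [← Finset.mul_sum, ← Finset.mul_sum]
    ring
  simp_rw [h1]
  rw [intervalIntegral.integral_const_mul]
  split_ifs with hN
  · rw [hN]
    simp
  · have h2 : (2 * (Real.pi : ℂ) * Complex.I * ((∑ i, n i ^ 2 - (N : ℤ) : ℤ) : ℂ)) ≠ 0 := by
      refine mul_ne_zero Complex.two_pi_I_ne_zero ?_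
      exact_mod_cast sub_ne_zero.mpr hN
    rw [integral_exp_mul_complex h2]
    have h3 : Complex.exp (2 * (Real.pi : ℂ) * Complex.I * ((∑ i, n i ^ 2 - (N : ℤ) : ℤ) : ℂ) * ((1 : ℝ) : ℂ)) = 1 := by
      rw [Complex.ofReal_one, mul_one, mul_comm, Complex.exp_int_mul_two_pi_mul_I]
    rw [h3]
    simp

lemma int_sum (rho : ℝ) (hr : 0 < rho) (c : Fin 4 → ℤ) (N : ℕ) :
    HasSum (fun n => if ∑ i, n i ^ 2 = (N : ℤ) then (GG rho c n : ℂ) else 0)
      (∫ al in (0 : ℝ)..1, H4 rho c N al) := by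
  have h := intervalIntegral.hasSum_integral_of_dominated_convergence (μ := volume) (a := 0) (b := 1)
    (F := fun n al => TT rho c N n al) (f := fun al => H4 rho c N al)
    (fun n _ => GG rho c n)
    (fun n => (TT_cont rho c N n).aestronglyMeasurable)
    (fun n => Filter.Eventually.of_forall (fun al _ => (TT_norm rho c N n al).le))
    (Filter.Eventually.of_forall (fun al _ => GG_sum rho hr c))
    (by simp)
    (Filter.Eventually.of_forall (fun al _ => H4_eq rho hr c N al))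
  simp_rw [TT_int] at h
  exact h

end JCM

open JCM in
/-- The integral counts points. -/
theorem JCM.specJC : SpecJC := by
  intro rho c N hr
  refine ⟨?_, ?_, ?_⟩
  · unfold H4 F4
    refine (continuous_finsetProd _ (fun i _ => th_cont rho hr (c i))).mul ?_
    fun_prop
  · intro t
    unfold H4 F4
    have h1 : ∀ i, th rho (c i) (t + 1) = th rho (c i) t := fun i => th_per rho (c i) t
    simp_rw [h1]
    congr 1
    have h2 : (-(2 * (Real.pi : ℂ) * Complex.I * (((N : ℝ) * (t + 1) : ℝ) : ℂ))) =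
        (-(2 * (Real.pi : ℂ) * Complex.I * (((N : ℝ) * t : ℝ) : ℂ))) +
        ((-(N : ℤ) : ℤ) : ℂ) * (2 * Real.pi * Complex.I) := by
      push_cast
      ring
    rw [h2, Complex.exp_add, Complex.exp_int_mul_two_pi_mul_I, mul_one]
  · intro s hs
    have h1 := Complex.reCLM.hasSum (int_sum rho hr c N)
    have h2 : ∑ n ∈ s, Complex.reCLM (if ∑ i, n i ^ 2 = (N : ℤ) then (GG rho c n : ℂ) else 0) ≤
        Complex.reCLM (∫ al in (0 : ℝ)..1, H4 rho c N al) := by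
      refine sum_le_hasSum s (fun n _ => ?_) h1
      simp only [Complex.reCLM_apply]
      split_ifs
      · rw [Complex.ofReal_re]
        exact Finset.prod_nonneg (fun i _ => (Real.exp_pos _).le)
      · simp
    have h3 : (s.card : ℝ) * Real.exp (-Real.pi) ≤
        ∑ n ∈ s, Complex.reCLM (if ∑ i, n i ^ 2 = (N : ℤ) then (GG rho c n : ℂ) else 0) := by
      rw [← nsmul_eq_mul]
      refine Finset.card_nsmul_le_sum s _ _ (fun n hn => ?_)
      obtain ⟨h4, h5⟩ := hs n hn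
      rw [if_pos h4, Complex.reCLM_apply, Complex.ofReal_re, GG, ← Real.exp_sum]
      refine Real.exp_le_exp.mpr ?_
      rw [Finset.sum_neg_distrib, neg_le_neg_iff]
      have h6 : ∑ i, Real.pi * ((n i : ℝ) - c i) ^ 2 / rho ^ 2 =
          Real.pi * (∑ i, ((n i : ℝ) - c i) ^ 2) / rho ^ 2 := by
        rw [Finset.mul_sum, Finset.sum_div]
      rw [h6, div_le_iff₀ (by positivity)]
      exact mul_le_mul_of_nonneg_left h5 Real.pi_pos.le
    refine (h3.trans h2).trans ?_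
    rw [Complex.reCLM_apply]
    exact (le_abs_self _).trans (Complex.abs_re_le_norm _)

end Pool.Agent.Lib.MP_a8dae7_an.D4
end

section
/-!
# KF: the incomplete sums of `H4`
-/
set_option autoImplicit false

open Finset

namespace Pool.Agent.Lib.MP_a8dae7_an.D4.KFM

open Pool.Agent.Lib.MP_a8dae7_an.CV Pool.Agent.Lib.MP_1446ad_nt.SM

theorem norm_char {q : ℕ} [NeZero q] (a : ZMod q) : ‖(ZMod.stdAddChar a : ℂ)‖ = 1 := by
  simp

theorem norm_Gs {q : ℕ} [NeZero q] (a b : ZMod q) : ‖Gs q a b‖ ≤ q := by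
  refine (norm_sum_le _ _).trans ?_
  rw [sum_congr rfl fun x _ => norm_char _, sum_const, card_univ, ZMod.card, nsmul_eq_mul, mul_one]

theorem W4_nonneg (rho : ℝ) (c : Fin 4 → ℤ) (q : ℕ) (be : ℝ) (b : Fin 4 → ℤ) :
    0 ≤ W4 rho c q be b := by
  rw [W4]
  have h1 : 0 ≤ rho ^ 4 := by positivity
  have h2 : 0 ≤ 4 * be ^ 2 * rho ^ 4 := by positivity
  positivity

theorem er_neg (q : ℕ) (B : ℤ) : er q (-B) = er q B := by
  rw [er, er, Int.neg_gcd]

/-- the general estimate -/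
theorem gen (hPF : SpecPF) (hKS : SpecKS) (hSB : SpecSB) {rho : ℝ} (hrho : 0 < rho)
    (c : Fin 4 → ℤ) (q : ℕ) [NeZero q] (a b : ℕ) (hab : b ≤ a + q) (be : ℝ) (A B : ℤ)
    (hA : Int.gcd A q = 1) :
    ‖∑ x ∈ (Finset.Ioc a b).filter (fun x => Nat.Coprime x q),
      F4 rho c (((A * (((x : ZMod q)⁻¹).val : ℤ) : ℤ) : ℝ) / q + be) *
        ZMod.stdAddChar ((B : ZMod q) * (x : ZMod q)⁻¹)‖ ≤
      (2 + Real.log q) * (4 * er q B / (q : ℝ) ^ 2) * ∑' d : Fin 4 → ℤ, W4 rho c q be d := by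
  classical
  obtain ⟨Phi, hPhi, hW, hF⟩ := hPF rho c q be hrho
  have hq0 : (0 : ℝ) < q := by
    have := Nat.pos_of_ne_zero (NeZero.ne q)
    exact_mod_cast this
  have hqC : (q : ℂ) ≠ 0 := by exact_mod_cast hq0.ne'
  set X := (Finset.Ioc a b).filter (fun x => Nat.Coprime x q) with hX
  set Psi : (Fin 4 → ℤ) → ZMod q → ℂ := fun d y =>
    (∏ i, Gs q ((A : ZMod q) * y⁻¹) (d i : ZMod q)) * ZMod.stdAddChar ((B : ZMod q) * y⁻¹) with hPsi
  have hPsin : ∀ d y, ‖Psi d y‖ ≤ (q : ℝ) ^ 4 := by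
    intro d y
    rw [hPsi, norm_mul, norm_char, mul_one, norm_prod]
    refine (prod_le_prod (fun _ _ => norm_nonneg _) fun i _ => norm_Gs _ _).trans ?_
    rw [prod_const, card_univ, Fintype.card_fin]
  have hcast : ∀ x : ℕ, (((A * (((x : ZMod q)⁻¹).val : ℤ) : ℤ) : ℤ) : ZMod q) =
      (A : ZMod q) * (x : ZMod q)⁻¹ := by
    intro x
    push_cast
    rw [ZMod.natCast_zmod_val]
  have hterm : ∀ x ∈ X, F4 rho c (((A * (((x : ZMod q)⁻¹).val : ℤ) : ℤ) : ℝ) / q + be) *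
        ZMod.stdAddChar ((B : ZMod q) * (x : ZMod q)⁻¹) =
      (1 / (q : ℂ) ^ 4) * ∑' d : Fin 4 → ℤ, Psi d (x : ZMod q) * Phi d := by
    intro x _
    rw [hF, hcast, mul_assoc, ← tsum_mul_right]
    congr 1
    refine tsum_congr fun d => ?_
    rw [hPsi]
    ring
  have hsummable : ∀ x ∈ X, Summable fun d : Fin 4 → ℤ => Psi d (x : ZMod q) * Phi d := by
    intro x _
    refine Summable.of_norm_bounded (hW.mul_left ((q : ℝ) ^ 4)) fun d => ?_
    rw [norm_mul, hPhi]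
    exact mul_le_mul_of_nonneg_right (hPsin d _) (W4_nonneg _ _ _ _ _)
  rw [sum_congr rfl hterm, ← mul_sum, ← Summable.tsum_finsetSum hsummable]
  have hM : ∀ d : Fin 4 → ℤ, ‖∑ x ∈ X, Psi d (x : ZMod q) * Phi d‖ ≤
      (2 + Real.log q) * (4 * (q : ℝ) ^ 2 * er q B) * W4 rho c q be d := by
    intro d
    rw [← sum_mul, norm_mul, hPhi]
    refine mul_le_mul_of_nonneg_right ?_ (W4_nonneg _ _ _ _ _)
    refine hKS q (Psi d) _ a b hab fun r => ?_
    have h1 : ∑ x : (ZMod q)ˣ, Psi d x * ZMod.stdAddChar ((r : ZMod q) * (x : ZMod q)) =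
        Sc q A B r d := by
      rw [Sc]
      refine Fintype.sum_equiv (Equiv.inv (ZMod q)ˣ) _ _ fun x => ?_
      simp only [hPsi, Equiv.inv_apply, inv_inv, AddChar.map_add_eq_mul, ZMod.inv_coe_unit]
      ring
    rw [h1]
    exact hSB q A B r d hA
  have hsb : Summable fun d : Fin 4 → ℤ => (2 + Real.log q) * (4 * (q : ℝ) ^ 2 * er q B) *
      W4 rho c q be d := hW.mul_left _
  have h2 : ‖∑' d : Fin 4 → ℤ, ∑ x ∈ X, Psi d (x : ZMod q) * Phi d‖ ≤
      ∑' d : Fin 4 → ℤ, (2 + Real.log q) * (4 * (q : ℝ) ^ 2 * er q B) * W4 rho c q be d :=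
    tsum_of_norm_bounded hsb.hasSum hM
  rw [tsum_mul_left] at h2
  have h3 : ‖(1 / (q : ℂ) ^ 4)‖ = 1 / (q : ℝ) ^ 4 := by
    rw [norm_div, norm_one, norm_pow, Complex.norm_natCast]
  rw [norm_mul, h3]
  calc 1 / (q : ℝ) ^ 4 * ‖∑' d : Fin 4 → ℤ, ∑ x ∈ X, Psi d (x : ZMod q) * Phi d‖
      ≤ 1 / (q : ℝ) ^ 4 * ((2 + Real.log q) * (4 * (q : ℝ) ^ 2 * er q B) *
        ∑' d : Fin 4 → ℤ, W4 rho c q be d) := mul_le_mul_of_nonneg_left h2 (by positivity)
    _ = (2 + Real.log q) * (4 * er q B / (q : ℝ) ^ 2) * ∑' d : Fin 4 → ℤ, W4 rho c q be d := by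
      field_simp

/-- `exp(- 2 π i N α)` for `α = - t / q + β` -/
theorem exp_char {q : ℕ} [NeZero q] (N t : ℤ) (be : ℝ) :
    Complex.exp (-(2 * Real.pi * Complex.I * (((N : ℝ) * ((t : ℝ) / q + be) : ℝ) : ℂ))) =
      Complex.exp (-(2 * Real.pi * Complex.I * (((N : ℝ) * be : ℝ) : ℂ))) *
        ZMod.stdAddChar (((-(N * t) : ℤ) : ZMod q)) := by
  have hq : (q : ℂ) ≠ 0 := by exact_mod_cast NeZero.ne q
  rw [ZMod.stdAddChar_coe, ← Complex.exp_add]
  congr 1
  push_cast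
  field_simp
  ring

theorem norm_exp_real (x : ℝ) : ‖Complex.exp (-(2 * Real.pi * Complex.I * (x : ℂ)))‖ = 1 := by
  have h : -(2 * Real.pi * Complex.I * (x : ℂ)) = ((-(2 * Real.pi * x) : ℝ) : ℂ) * Complex.I := by
    push_cast
    ring
  rw [h, Complex.norm_exp_ofReal_mul_I]

theorem specKF (hPF : SpecPF) (hKS : SpecKS) (hSB : SpecSB) : SpecKF := by
  intro rho c N q a b be hrho hq hab
  have : NeZero q := ⟨by omega⟩
  constructor
  · have h1 := gen hPF hKS hSB hrho c q a b hab be (-1) N (by simp)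
    refine le_trans (le_of_eq ?_) h1
    have h2 : ∀ x : ℕ, H4 rho c N (-(iv q x / q) + be) =
        Complex.exp (-(2 * Real.pi * Complex.I * (((N : ℝ) * be : ℝ) : ℂ))) *
        (F4 rho c ((((-1 : ℤ) * (((x : ZMod q)⁻¹).val : ℤ) : ℤ) : ℝ) / q + be) *
          ZMod.stdAddChar (((N : ℤ) : ZMod q) * (x : ZMod q)⁻¹)) := by
      intro x
      have h3 : -(iv q x / q) + be = (((-1 : ℤ) * (((x : ZMod q)⁻¹).val : ℤ) : ℤ) : ℝ) / q + be := by
        rw [iv]
        push_cast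
        ring
      have h4 := exp_char (q := q) N ((-1 : ℤ) * (((x : ZMod q)⁻¹).val : ℤ)) be
      rw [H4, h3]
      rw [Int.cast_natCast] at h4
      rw [h4]
      have h5 : (((-((N : ℤ) * ((-1 : ℤ) * (((x : ZMod q)⁻¹).val : ℤ))) : ℤ)) : ZMod q) =
          ((N : ℤ) : ZMod q) * (x : ZMod q)⁻¹ := by
        push_cast
        rw [ZMod.natCast_zmod_val]
        ring
      rw [h5]
      ring
    rw [sum_congr rfl fun x _ => h2 x, ← mul_sum, norm_mul, norm_exp_real, one_mul]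
  · have h1 := gen hPF hKS hSB hrho c q a b hab (-be) 1 (-(N : ℤ)) (by simp)
    rw [er_neg] at h1
    refine le_trans (le_of_eq ?_) h1
    have h2 : ∀ x : ℕ, H4 rho c N (iv q x / q - be) =
        Complex.exp (-(2 * Real.pi * Complex.I * (((N : ℝ) * (-be) : ℝ) : ℂ))) *
        (F4 rho c ((((1 : ℤ) * (((x : ZMod q)⁻¹).val : ℤ) : ℤ) : ℝ) / q + -be) *
          ZMod.stdAddChar (((-(N : ℤ) : ℤ) : ZMod q) * (x : ZMod q)⁻¹)) := by
      intro x
      have h3 : iv q x / q - be = (((1 : ℤ) * (((x : ZMod q)⁻¹).val : ℤ) : ℤ) : ℝ) / q + -be := by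
        rw [iv]
        push_cast
        ring
      have h4 := exp_char (q := q) N ((1 : ℤ) * (((x : ZMod q)⁻¹).val : ℤ)) (-be)
      rw [H4, h3]
      rw [Int.cast_natCast] at h4
      rw [h4]
      have h5 : (((-((N : ℤ) * ((1 : ℤ) * (((x : ZMod q)⁻¹).val : ℤ))) : ℤ)) : ZMod q) =
          ((-(N : ℤ) : ℤ) : ZMod q) * (x : ZMod q)⁻¹ := by
        push_cast
        rw [ZMod.natCast_zmod_val]
        ring
      rw [h5]
      ring
    rw [sum_congr rfl fun x _ => h2 x, ← mul_sum, norm_mul, norm_exp_real, one_mul]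

end Pool.Agent.Lib.MP_a8dae7_an.D4.KFM
end

section
/-!
# PF: four variables
-/
set_option autoImplicit false

open Finset

namespace Pool.Agent.Lib.MP_a8dae7_an.D4.PFM

open Pool.Agent.Lib.MP_a8dae7_an.CV Pool.Agent.Lib.MP_1446ad_nt.SM

/-- products of absolutely convergent series -/
theorem prod_tsum (n : ℕ) (f : Fin n → ℤ → ℂ) (hf : ∀ i, Summable fun m => ‖f i m‖) :
    (Summable fun b : Fin n → ℤ => ‖∏ i, f i (b i)‖) ∧
      ∏ i, ∑' m, f i m = ∑' b : Fin n → ℤ, ∏ i, f i (b i) := by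
  induction n with
  | zero =>
    constructor
    · exact Summable.of_finite
    · rw [Fin.prod_univ_zero, tsum_fintype]
      simp
  | succ n ih =>
    obtain ⟨h1, h2⟩ := ih (fun i => f i.succ) (fun i => hf i.succ)
    have e : ∀ z : ℤ × (Fin n → ℤ), ∏ i, f i ((Fin.consEquiv (fun _ => ℤ)) z i) =
        f 0 z.1 * ∏ i : Fin n, f i.succ (z.2 i) := by
      intro z
      rw [Fin.prod_univ_succ]
      rfl
    constructor
    · rw [← (Fin.consEquiv (fun _ : Fin (n + 1) => ℤ)).summable_iff]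
      have h3 := Summable.mul_norm (hf 0) h1
      refine h3.congr fun z => ?_
      rw [Function.comp_apply, e z]
    · rw [Fin.prod_univ_succ, h2, tsum_mul_tsum_of_summable_norm (hf 0) h1,
        ← (Fin.consEquiv (fun _ : Fin (n + 1) => ℤ)).tsum_eq]
      exact tsum_congr fun z => (e z).symm

/-- summability of a Gaussian -/
theorem summable_gauss {g : ℝ} (hg : 0 < g) (x : ℝ) :
    Summable fun m : ℤ => Real.exp (-(Real.pi * g * ((m : ℝ) - x) ^ 2)) := by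
  have h1 : Summable fun m : ℤ => ‖jacobiTheta₂_term m (-(Complex.I * (g * x : ℝ)))
      (Complex.I * (g : ℝ))‖ := by
    apply Summable.norm
    rw [summable_jacobiTheta₂_term_iff]
    simpa using hg
  refine (h1.mul_right (Real.exp (-(Real.pi * g * x ^ 2)))).congr fun m => ?_
  rw [norm_jacobiTheta₂_term, ← Real.exp_add]
  congr 1
  simp
  ring

theorem specPF (hPO : SpecPO) : SpecPF := by
  intro rho c q _ be hrho
  choose phi hphi hth using fun i : Fin 4 => hPO rho (c i) q be hrho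
  have hq0 : (0 : ℝ) < q := by
    have := Nat.pos_of_ne_zero (NeZero.ne q)
    exact_mod_cast this
  set D : ℝ := 1 + 4 * be ^ 2 * rho ^ 4 with hD
  have hD0 : 0 < D := by
    rw [hD]
    positivity
  have hW : ∀ b : Fin 4 → ℤ, ‖∏ i, phi i (b i)‖ = W4 rho c q be b := by
    intro b
    rw [norm_prod, prod_congr rfl fun i _ => hphi i (b i), prod_mul_distrib, prod_const,
      card_univ, Fintype.card_fin, ← Real.exp_sum, W4, div_pow]
    congr 1
    · congr 1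
      rw [← Real.rpow_natCast, ← Real.rpow_mul hD0.le]
      norm_num
      exact hD
    · congr 1
      rw [sum_neg_distrib, mul_sum]
  have hsum : ∀ i, Summable fun n => ‖phi i n‖ := by
    intro i
    have h1 : ∀ n : ℤ, ‖phi i n‖ = rho / D ^ (1 / 4 : ℝ) *
        Real.exp (-(Real.pi * (rho ^ 2 / (D * q ^ 2)) * ((n : ℝ) - 2 * be * c i * q) ^ 2)) := by
      intro n
      rw [hphi]
      congr 2
      field_simp
    rw [funext h1]
    exact (summable_gauss (by positivity) _).mul_left _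
  have hsum2 : ∀ (a : ℤ) (i : Fin 4), Summable fun n : ℤ =>
      ‖Gs q (a : ZMod q) (n : ZMod q) * phi i n‖ := by
    intro a i
    refine Summable.of_nonneg_of_le (fun _ => norm_nonneg _) (fun n => ?_)
      ((hsum i).mul_left (q : ℝ))
    rw [norm_mul]
    refine mul_le_mul_of_nonneg_right ?_ (norm_nonneg _)
    refine (norm_sum_le _ _).trans ?_
    have h2 : ∀ x ∈ (univ : Finset (ZMod q)),
        ‖(ZMod.stdAddChar ((a : ZMod q) * x ^ 2 + (n : ZMod q) * x) : ℂ)‖ = 1 := by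
      intro x _
      simp
    rw [sum_congr rfl h2, sum_const, card_univ, ZMod.card, nsmul_eq_mul, mul_one]
  refine ⟨fun b => ∏ i, phi i (b i), hW, ?_, ?_⟩
  · exact (prod_tsum 4 phi hsum).1.congr hW
  · intro a
    rw [F4, prod_congr rfl fun i _ => hth i a, prod_mul_distrib, prod_const, card_univ,
      Fintype.card_fin, (prod_tsum 4 _ (hsum2 a)).2, div_pow, one_pow]
    congr 1
    refine tsum_congr fun b => ?_
    rw [prod_mul_distrib]

end Pool.Agent.Lib.MP_a8dae7_an.D4.PFM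
end

section
/-!
# MP_a8dae7_an, D4: PO

Poisson summation for `th ρ c (a/q + β)`.
-/
set_option autoImplicit false

open Complex

namespace Pool.Agent.Lib.MP_a8dae7_an.D4.POM

/-- Gaussian series converge. -/
theorem summable_quad {a : ℂ} (ha : 0 < a.re) (b : ℂ) :
    Summable fun n : ℤ => cexp (-Real.pi * a * (n : ℂ) ^ 2 + 2 * Real.pi * b * n) := by
  have h : 0 < (I * a).im := by simpa using ha
  refine ((summable_jacobiTheta₂_term_iff (-I * b) (I * a)).mpr h).congr fun n => ?_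
  rw [jacobiTheta₂_term]
  congr 1
  linear_combination (-2 * Real.pi * b * n + Real.pi * a * n ^ 2) * I_sq

theorem re_inv_pos {a : ℂ} (ha : 0 < a.re) : 0 < (a⁻¹).re := by
  rw [inv_re]
  refine div_pos ha (normSq_pos.mpr ?_)
  rintro rfl
  simp at ha

/-- The dual Gaussian series converge. -/
theorem summable_dual {a : ℂ} (ha : 0 < a.re) (z : ℂ) :
    Summable fun n : ℤ => cexp (-Real.pi / a * ((n : ℂ) + z) ^ 2) := by
  have ha0 : a ≠ 0 := by
    rintro rfl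
    simp at ha
  have h := (summable_quad (re_inv_pos ha) (-a⁻¹ * z)).mul_left (cexp (-Real.pi / a * z ^ 2))
  refine h.congr fun n => ?_
  rw [← Complex.exp_add]
  congr 1
  field_simp
  ring

/-- The summand of `th`. -/
noncomputable def F (rho : ℝ) (c : ℤ) (al : ℝ) (x : ℤ) : ℂ :=
  cexp (((-(Real.pi * ((x : ℝ) - c) ^ 2 / rho ^ 2) : ℝ) : ℂ) +
    2 * Real.pi * I * ((al * (x : ℝ) ^ 2 : ℝ) : ℂ))

/-- `A = ρ⁻² - 2 i β` -/
noncomputable def AA (rho be : ℝ) : ℂ := ((rho : ℂ) ^ 2)⁻¹ - 2 * I * be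

theorem AA_re {rho : ℝ} (be : ℝ) (h : 0 < rho) : 0 < (AA rho be).re := by
  have : (AA rho be).re = (rho ^ 2)⁻¹ := by
    simp [AA, ← ofReal_pow, ← ofReal_inv]
  rw [this]
  positivity

theorem F_eq {rho : ℝ} (h : 0 < rho) (c : ℤ) (q : ℕ) [NeZero q] (be : ℝ) (a j r : ℤ) :
    F rho c ((a : ℝ) / q + be) (j * q + r) =
      cexp (2 * Real.pi * I * ((a * r ^ 2 : ℤ) : ℂ) / q) *
      cexp (-Real.pi * AA rho be * r ^ 2 + 2 * Real.pi * c * ((rho : ℂ) ^ 2)⁻¹ * r -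
        Real.pi * c ^ 2 * ((rho : ℂ) ^ 2)⁻¹) *
      cexp (-Real.pi * (AA rho be * q ^ 2) * (j : ℂ) ^ 2 +
        2 * Real.pi * (c * q * ((rho : ℂ) ^ 2)⁻¹ - AA rho be * q * r) * j) := by
  rw [F, ← Complex.exp_add, ← Complex.exp_add, Complex.exp_eq_exp_iff_exists_int]
  refine ⟨a * (j ^ 2 * q + 2 * j * r), ?_⟩
  have hr : (rho : ℂ) ≠ 0 := by exact_mod_cast h.ne'
  have hq : (q : ℂ) ≠ 0 := by exact_mod_cast NeZero.ne q
  rw [AA]
  push_cast
  field_simp
  ring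

/-- The series of `th` converges. -/
theorem summable_F {rho : ℝ} (h : 0 < rho) (c : ℤ) (al : ℝ) : Summable fun x : ℤ => F rho c al x := by
  have h1 : ∀ x : ℤ, F rho c al x = F rho c (((0 : ℤ) : ℝ) / (1 : ℕ) + al) (x * (1 : ℕ) + 0) := by
    intro x
    simp
  have h2 : 0 < (AA rho al * ((1 : ℕ) : ℂ) ^ 2).re := by
    simpa using AA_re al h
  refine ((summable_quad h2 (c * (1 : ℕ) * ((rho : ℂ) ^ 2)⁻¹ -
    AA rho al * (1 : ℕ) * ((0 : ℤ) : ℂ))).mul_left
    (cexp (2 * Real.pi * I * ((0 * 0 ^ 2 : ℤ) : ℂ) / (1 : ℕ)) *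
      cexp (-Real.pi * AA rho al * ((0 : ℤ) : ℂ) ^ 2 + 2 * Real.pi * c * ((rho : ℂ) ^ 2)⁻¹ * ((0 : ℤ) : ℂ) -
        Real.pi * c ^ 2 * ((rho : ℂ) ^ 2)⁻¹))).congr fun x => ?_
  rw [h1 x, F_eq h c 1 al 0 x 0]

/-- The sum over the integers is the sum over the residues. -/
theorem tsum_residue {f : ℤ → ℂ} (hf : Summable f) (q : ℕ) [NeZero q] :
    ∑' x : ℤ, f x = ∑ r : Fin q, ∑' j : ℤ, f (j * q + (r : ℕ)) := by
  have h1 : Summable fun p : ℤ × Fin q => f ((Int.divModEquiv q).symm p) :=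
    ((Int.divModEquiv q).symm.summable_iff (f := f)).mpr hf
  have h2 : Summable fun p : Fin q × ℤ => f ((Int.divModEquiv q).symm p.swap) :=
    ((Equiv.prodComm (Fin q) ℤ).summable_iff
      (f := fun p : ℤ × Fin q => f ((Int.divModEquiv q).symm p))).mpr h1
  calc ∑' x : ℤ, f x = ∑' p : ℤ × Fin q, f ((Int.divModEquiv q).symm p) :=
        ((Int.divModEquiv q).symm.tsum_eq f).symm
    _ = ∑' p : Fin q × ℤ, f ((Int.divModEquiv q).symm p.swap) :=
        ((Equiv.prodComm (Fin q) ℤ).tsum_eq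
          (fun p : ℤ × Fin q => f ((Int.divModEquiv q).symm p))).symm
    _ = ∑' r : Fin q, ∑' j : ℤ, f ((Int.divModEquiv q).symm (j, r)) := h2.tsum_prod
    _ = ∑ r : Fin q, ∑' j : ℤ, f (j * q + (r : ℕ)) := by
        rw [tsum_fintype]
        rfl

/-- Gauss sums as sums over `Fin q`. -/
theorem Gs_eq (q : ℕ) [NeZero q] (a n : ℤ) :
    Gs q (a : ZMod q) (n : ZMod q) = ∑ r : Fin q, cexp (2 * Real.pi * I * ((a * (r : ℕ) ^ 2 : ℤ) : ℂ) / q) *
      cexp (2 * Real.pi * I * (((r : ℕ) * n : ℤ) : ℂ) / q) := by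
  have hb : Function.Bijective fun r : Fin q => ((r : ℕ) : ZMod q) := by
    constructor
    · intro r s hrs
      have := congrArg ZMod.val hrs
      simp only [ZMod.val_natCast_of_lt r.2, ZMod.val_natCast_of_lt s.2] at this
      exact Fin.ext this
    · intro x
      exact ⟨⟨x.val, x.val_lt⟩, by simp⟩
  rw [Gs]
  refine (Fintype.sum_bijective _ hb _ _ fun r => ?_).symm
  rw [← Complex.exp_add]
  have : (a : ZMod q) * ((r : ℕ) : ZMod q) ^ 2 + (n : ZMod q) * ((r : ℕ) : ZMod q) =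
      ((a * (r : ℕ) ^ 2 + (r : ℕ) * n : ℤ) : ZMod q) := by
    push_cast
    ring
  rw [this, ZMod.stdAddChar_coe]
  congr 1
  push_cast
  ring

/-- The dual term. -/
noncomputable def phi (rho : ℝ) (c : ℤ) (q : ℕ) (be : ℝ) (n : ℤ) : ℂ :=
  q * (1 / (AA rho be * q ^ 2) ^ (1 / 2 : ℂ)) *
    cexp (-Real.pi / (AA rho be * q ^ 2) * ((n : ℂ) + I * (c * q * ((rho : ℂ) ^ 2)⁻¹)) ^ 2 -
      Real.pi * c ^ 2 * ((rho : ℂ) ^ 2)⁻¹)

theorem term_eq {rho : ℝ} (h : 0 < rho) (c : ℤ) (q : ℕ) [NeZero q] (be : ℝ) (r n : ℤ) :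
    cexp (-Real.pi * AA rho be * r ^ 2 + 2 * Real.pi * c * ((rho : ℂ) ^ 2)⁻¹ * r -
        Real.pi * c ^ 2 * ((rho : ℂ) ^ 2)⁻¹) *
      (1 / (AA rho be * q ^ 2) ^ (1 / 2 : ℂ) *
      cexp (-Real.pi / (AA rho be * q ^ 2) *
        ((n : ℂ) + I * (c * q * ((rho : ℂ) ^ 2)⁻¹ - AA rho be * q * r)) ^ 2)) =
      1 / (q : ℂ) * (cexp (2 * Real.pi * I * ((r * n : ℤ) : ℂ) / q) * phi rho c q be n) := by
  have hr : (rho : ℂ) ≠ 0 := by exact_mod_cast h.ne'
  have hq : (q : ℂ) ≠ 0 := by exact_mod_cast NeZero.ne q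
  have hA : AA rho be ≠ 0 := by
    intro h0
    have := AA_re be h
    rw [h0] at this
    simp at this
  have key : -Real.pi * AA rho be * r ^ 2 + 2 * Real.pi * c * ((rho : ℂ) ^ 2)⁻¹ * r -
        Real.pi * c ^ 2 * ((rho : ℂ) ^ 2)⁻¹ + -Real.pi / (AA rho be * q ^ 2) *
        ((n : ℂ) + I * (c * q * ((rho : ℂ) ^ 2)⁻¹ - AA rho be * q * r)) ^ 2 =
      2 * Real.pi * I * ((r * n : ℤ) : ℂ) / q + (-Real.pi / (AA rho be * q ^ 2) *
        ((n : ℂ) + I * (c * q * ((rho : ℂ) ^ 2)⁻¹)) ^ 2 - Real.pi * c ^ 2 * ((rho : ℂ) ^ 2)⁻¹) := by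
    push_cast
    generalize AA rho be = A at hA
    field_simp
    ring_nf
    simp only [I_sq]
    ring
  calc _ = 1 / (AA rho be * q ^ 2) ^ (1 / 2 : ℂ) * cexp (2 * Real.pi * I * ((r * n : ℤ) : ℂ) / q +
        (-Real.pi / (AA rho be * q ^ 2) * ((n : ℂ) + I * (c * q * ((rho : ℂ) ^ 2)⁻¹)) ^ 2 -
          Real.pi * c ^ 2 * ((rho : ℂ) ^ 2)⁻¹)) := by
        rw [← key, Complex.exp_add]
        ring
    _ = _ := by
        rw [Complex.exp_add, phi]
        field_simp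

theorem AA_mul {rho : ℝ} (h : 0 < rho) (be : ℝ) :
    AA rho be * ((rho : ℂ) ^ 2 * (1 + 2 * I * be * (rho : ℂ) ^ 2)) = ((1 + 4 * be ^ 2 * rho ^ 4 : ℝ) : ℂ) := by
  have hr : (rho : ℂ) ≠ 0 := by exact_mod_cast h.ne'
  rw [AA]
  push_cast
  field_simp
  ring_nf
  simp only [I_sq]
  ring

theorem norm_AA {rho : ℝ} (h : 0 < rho) (be : ℝ) :
    ‖AA rho be‖ = (rho ^ 2)⁻¹ * (1 + 4 * be ^ 2 * rho ^ 4) ^ (1 / 2 : ℝ) := by
  have hD : 0 < 1 + 4 * be ^ 2 * rho ^ 4 := by positivity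
  rw [← Real.sqrt_eq_rpow, ← abs_of_nonneg (norm_nonneg (AA rho be)), ← abs_of_nonneg
    (show 0 ≤ (rho ^ 2)⁻¹ * √(1 + 4 * be ^ 2 * rho ^ 4) by positivity), ← sq_eq_sq_iff_abs_eq_abs,
    mul_pow, Real.sq_sqrt hD.le, Complex.sq_norm, Complex.normSq_apply]
  have h1 : (AA rho be).re = (rho ^ 2)⁻¹ := by
    simp [AA, ← ofReal_pow, ← ofReal_inv]
  have h2 : (AA rho be).im = -(2 * be) := by
    simp [AA, ← ofReal_pow, ← ofReal_inv]
  rw [h1, h2]
  field_simp
  ring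

theorem norm_phi {rho : ℝ} (h : 0 < rho) (c : ℤ) (q : ℕ) [NeZero q] (be : ℝ) (n : ℤ) :
    ‖phi rho c q be n‖ = rho / (1 + 4 * be ^ 2 * rho ^ 4) ^ (1 / 4 : ℝ) *
      Real.exp (-(Real.pi * rho ^ 2 / (1 + 4 * be ^ 2 * rho ^ 4) *
        ((n : ℝ) / q - 2 * be * c) ^ 2)) := by
  have hr : (rho : ℂ) ≠ 0 := by exact_mod_cast h.ne'
  have hqp : (0 : ℝ) < q := by exact_mod_cast Nat.pos_of_ne_zero (NeZero.ne q)
  have hq : (q : ℂ) ≠ 0 := by exact_mod_cast NeZero.ne q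
  have hD : 0 < 1 + 4 * be ^ 2 * rho ^ 4 := by positivity
  have hDc : (1 + 4 * (be : ℂ) ^ 2 * (rho : ℂ) ^ 4) ≠ 0 := by
    have : ((1 + 4 * be ^ 2 * rho ^ 4 : ℝ) : ℂ) ≠ 0 := by exact_mod_cast hD.ne'
    simpa using this
  have hA : AA rho be ≠ 0 := by
    intro h0
    have := AA_re be h
    rw [h0] at this
    simp at this
  have hAinv : (AA rho be)⁻¹ = (rho : ℂ) ^ 2 * (1 + 2 * I * be * (rho : ℂ) ^ 2) /
      (1 + 4 * (be : ℂ) ^ 2 * (rho : ℂ) ^ 4) := by
    have := AA_mul h be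
    push_cast at this
    rw [eq_div_iff hDc, ← this]
    field_simp
  rw [phi, norm_mul, norm_mul, norm_div, norm_one, Complex.norm_natCast, Complex.norm_exp]
  congr 1
  · have h1 : ‖(AA rho be * (q : ℂ) ^ 2) ^ (1 / 2 : ℂ)‖ =
        (q / rho) * (1 + 4 * be ^ 2 * rho ^ 4) ^ (1 / 4 : ℝ) := by
      have h2 : (1 / 2 : ℂ) = ((1 / 2 : ℝ) : ℂ) := by push_cast; rfl
      rw [h2, Complex.norm_cpow_real, norm_mul, norm_pow, Complex.norm_natCast, norm_AA h be]
      have h3 : (rho ^ 2)⁻¹ * (1 + 4 * be ^ 2 * rho ^ 4) ^ (1 / 2 : ℝ) * (q : ℝ) ^ 2 =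
          ((q : ℝ) / rho) ^ (2 : ℝ) * ((1 + 4 * be ^ 2 * rho ^ 4) ^ (1 / 4 : ℝ)) ^ (2 : ℝ) := by
        rw [← Real.rpow_mul hD.le, Real.rpow_two]
        norm_num
        field_simp
      rw [h3, ← Real.mul_rpow (by positivity) (by positivity), ← Real.rpow_mul (by positivity)]
      norm_num
    rw [h1]
    have : (1 + 4 * be ^ 2 * rho ^ 4) ^ (1 / 4 : ℝ) ≠ 0 := (Real.rpow_pos_of_pos hD _).ne'
    field_simp
  · congr 1
    have key : -Real.pi / (AA rho be * (q : ℂ) ^ 2) *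
        ((n : ℂ) + I * (c * q * ((rho : ℂ) ^ 2)⁻¹)) ^ 2 - Real.pi * c ^ 2 * ((rho : ℂ) ^ 2)⁻¹ =
        ((-(Real.pi * rho ^ 2 / (1 + 4 * be ^ 2 * rho ^ 4) * ((n : ℝ) / q - 2 * be * c) ^ 2) : ℝ) : ℂ) +
        ((-(Real.pi * rho ^ 4 / ((1 + 4 * be ^ 2 * rho ^ 4) * q ^ 2) * (2 * n * c * q / rho ^ 4 +
          2 * be * (n ^ 2 - c ^ 2 * q ^ 2 / rho ^ 4))) : ℝ) : ℂ) * I := by
      have h1 : -Real.pi / (AA rho be * (q : ℂ) ^ 2) = -Real.pi * (AA rho be)⁻¹ / (q : ℂ) ^ 2 := by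
        field_simp
      rw [h1, hAinv]
      push_cast
      field_simp
      ring_nf
      simp only [I_sq, show I ^ 3 = -I by rw [pow_succ, I_sq]; ring]
      have hX : (1 + (rho : ℂ) ^ 4 * (be : ℂ) ^ 2 * 4) * (1 + (rho : ℂ) ^ 4 * (be : ℂ) ^ 2 * 4)⁻¹ = 1 := by
        refine mul_inv_cancel₀ ?_
        rwa [show 1 + (rho : ℂ) ^ 4 * (be : ℂ) ^ 2 * 4 = 1 + 4 * (be : ℂ) ^ 2 * (rho : ℂ) ^ 4 by ring]
      linear_combination (q : ℂ) ^ 2 * c ^ 2 * hX
    rw [key]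
    simp only [add_re, ofReal_re, mul_re, I_re, mul_zero, ofReal_im, I_im, mul_one, sub_self,
      add_zero]

theorem summable_term {rho : ℝ} (h : 0 < rho) (c : ℤ) (q : ℕ) [NeZero q] (be : ℝ) (r : ℤ) :
    Summable fun n : ℤ => cexp (2 * Real.pi * I * ((r * n : ℤ) : ℂ) / q) * phi rho c q be n := by
  have hq : (q : ℂ) ≠ 0 := by exact_mod_cast NeZero.ne q
  have hre : 0 < (AA rho be * (q : ℂ) ^ 2).re := by
    have : (AA rho be * (q : ℂ) ^ 2).re = (AA rho be).re * q ^ 2 := by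
      rw [← ofReal_natCast, ← ofReal_pow, re_mul_ofReal]
    rw [this]
    have := AA_re be h
    have : (0 : ℝ) < q := by exact_mod_cast Nat.pos_of_ne_zero (NeZero.ne q)
    positivity
  have h1 := ((summable_dual hre (I * (c * q * ((rho : ℂ) ^ 2)⁻¹ - AA rho be * q * r))).mul_left
    (q * (cexp (-Real.pi * AA rho be * r ^ 2 + 2 * Real.pi * c * ((rho : ℂ) ^ 2)⁻¹ * r -
        Real.pi * c ^ 2 * ((rho : ℂ) ^ 2)⁻¹) * (1 / (AA rho be * q ^ 2) ^ (1 / 2 : ℂ)))))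
  refine h1.congr fun n => ?_
  have := term_eq h c q be r n
  rw [← mul_right_inj' (one_div_ne_zero hq), ← this]
  field_simp

/-- One-dimensional Poisson summation for each residue class. -/
theorem specPO : SpecPO := by
  intro rho c q _ be h
  refine ⟨phi rho c q be, fun n => norm_phi h c q be n, fun a => ?_⟩
  have hre : 0 < (AA rho be * (q : ℂ) ^ 2).re := by
    have : (AA rho be * (q : ℂ) ^ 2).re = (AA rho be).re * q ^ 2 := by
      rw [← ofReal_natCast, ← ofReal_pow, re_mul_ofReal]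
    rw [this]
    have := AA_re be h
    have : (0 : ℝ) < q := by exact_mod_cast Nat.pos_of_ne_zero (NeZero.ne q)
    positivity
  have h1 : th rho c ((a : ℝ) / q + be) = ∑' x : ℤ, F rho c ((a : ℝ) / q + be) x := rfl
  rw [h1, tsum_residue (summable_F h c _) q]
  have h2 : ∀ r : Fin q, ∑' j : ℤ, F rho c ((a : ℝ) / q + be) (j * q + (r : ℕ)) =
      1 / (q : ℂ) * ∑' n : ℤ, cexp (2 * Real.pi * I * ((a * (r : ℕ) ^ 2 : ℤ) : ℂ) / q) *
        (cexp (2 * Real.pi * I * (((r : ℕ) * n : ℤ) : ℂ) / q) * phi rho c q be n) := by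
    intro r
    have h3 : ∀ j : ℤ, F rho c ((a : ℝ) / q + be) (j * q + (r : ℕ)) =
      cexp (2 * Real.pi * I * ((a * (r : ℕ) ^ 2 : ℤ) : ℂ) / q) *
      cexp (-Real.pi * AA rho be * ((r : ℕ) : ℤ) ^ 2 + 2 * Real.pi * c * ((rho : ℂ) ^ 2)⁻¹ * ((r : ℕ) : ℤ) -
        Real.pi * c ^ 2 * ((rho : ℂ) ^ 2)⁻¹) *
      cexp (-Real.pi * (AA rho be * q ^ 2) * (j : ℂ) ^ 2 +
        2 * Real.pi * (c * q * ((rho : ℂ) ^ 2)⁻¹ - AA rho be * q * ((r : ℕ) : ℤ)) * j) := by
      intro j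
      exact F_eq h c q be a j (r : ℕ)
    simp_rw [h3]
    have h4 : cexp (-Real.pi * AA rho be * ((r : ℕ) : ℤ) ^ 2 +
        2 * Real.pi * c * ((rho : ℂ) ^ 2)⁻¹ * ((r : ℕ) : ℤ) - Real.pi * c ^ 2 * ((rho : ℂ) ^ 2)⁻¹) *
        (1 / (AA rho be * q ^ 2) ^ (1 / 2 : ℂ) * ∑' n : ℤ, cexp (-Real.pi / (AA rho be * q ^ 2) *
        ((n : ℂ) + I * (c * q * ((rho : ℂ) ^ 2)⁻¹ - AA rho be * q * ((r : ℕ) : ℤ))) ^ 2)) =
        1 / (q : ℂ) * ∑' n : ℤ, cexp (2 * Real.pi * I * (((r : ℕ) * n : ℤ) : ℂ) / q) *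
          phi rho c q be n := by
      rw [← tsum_mul_left, ← tsum_mul_left, ← tsum_mul_left]
      exact tsum_congr fun n => term_eq h c q be (r : ℕ) n
    rw [tsum_mul_left, Complex.tsum_exp_neg_quadratic hre, mul_assoc, h4, tsum_mul_left]
    ring
  simp_rw [h2]
  rw [← Finset.mul_sum]
  congr 1
  refine (Summable.tsum_finsetSum fun (r : Fin q) _ => (summable_term h c q be ((r : ℕ) : ℤ)).mul_left
    (cexp (2 * Real.pi * I * ((a * (r : ℕ) ^ 2 : ℤ) : ℂ) / q))).symm.trans ?_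
  refine tsum_congr fun n => ?_
  rw [Gs_eq, Finset.sum_mul]
  exact Finset.sum_congr rfl fun r _ => by ring

end Pool.Agent.Lib.MP_a8dae7_an.D4.POM
end
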