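import Pool.Agent.Lib.MP_a8dae7_an.D4.Spec
import Pool.Agent.Lib.MP_1446ad_nt.SM.AVG
import Pool.Agent.Lib.MP_1446ad_nt.SM.DEC

/-!
# MP_a8dae7_an, D4, module PSM: partial summation of the error term in dyadic blocks
-/

set_option autoImplicit false

open Finset

namespace Pool.Agent.Lib.MP_a8dae7_an.D4.PSMM

open Pool.Agent.Lib.MP_1446ad_nt.SM

theorem er_nonneg (q : ℕ) (c : ℤ) : 0 ≤ er q c := by
  unfold er tau
  positivity

theorem sqrt_two_pow (n : ℕ) : √((2 : ℝ) ^ n) = √2 ^ n := by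
  rw [Real.sqrt_eq_iff_mul_self_eq (by positivity) (by positivity), ← mul_pow,
    Real.mul_self_sqrt (by norm_num)]

/-- one dyadic block -/
theorem block (hAVG : SpecAVG) {T : ℝ} {Q : ℕ} {c : ℤ} (hc : c ≠ 0)
    (hT : ∀ m : ℕ, 0 < m → m ≤ 2 * Q → tau m ≤ T ∧ 1 + Real.log m ≤ T)
    (hTc : tau c.natAbs ≤ T) (hT0 : 0 ≤ T) {j : ℕ} (hj : 2 ^ j ≤ Q) :
    ∑ q ∈ (Ioc 0 Q).filter (fun q => Nat.log 2 q = j), er q c ≤
      4 * √2 * T ^ 7 * (2 ^ j * √2 ^ j) := by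
  have h1 : 1 ≤ 2 ^ (j + 1) - 1 := by
    have : 2 ≤ 2 ^ (j + 1) := by
      rw [pow_succ]
      have := Nat.one_le_two_pow (n := j)
      omega
    omega
  have h2 : 2 ^ (j + 1) - 1 ≤ 2 * Q := by
    rw [pow_succ]
    omega
  have h3 := hAVG T (2 ^ (j + 1) - 1) c h1 hc (fun m hm hm' => hT m hm (hm'.trans h2)) hTc
  have h4 : ∑ q ∈ (Ioc 0 Q).filter (fun q => Nat.log 2 q = j), er q c ≤
      ∑ P ∈ Ioc 0 (2 ^ (j + 1) - 1), er P c := by
    refine sum_le_sum_of_subset_of_nonneg ?_ fun _ _ _ => er_nonneg _ _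
    intro q hq
    rw [mem_filter, mem_Ioc] at hq
    rw [mem_Ioc]
    refine ⟨hq.1.1, ?_⟩
    have h5 := Nat.lt_pow_succ_log_self (b := 2) (by norm_num) q
    rw [hq.2] at h5
    have : q < 2 ^ (j + 1) := h5
    omega
  have h5 : ((2 ^ (j + 1) - 1 : ℕ) : ℝ) ≤ 2 ^ (j + 1) := by
    have : (2 ^ (j + 1) - 1 : ℕ) ≤ 2 ^ (j + 1) := Nat.sub_le _ _
    exact_mod_cast this
  have h6 : √((2 ^ (j + 1) - 1 : ℕ) : ℝ) ≤ √2 ^ (j + 1) := by
    rw [← sqrt_two_pow]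
    exact Real.sqrt_le_sqrt h5
  calc _ ≤ _ := h4
    _ ≤ _ := h3
    _ ≤ 2 * T ^ 7 * 2 ^ (j + 1) * √2 ^ (j + 1) := by
      refine mul_le_mul (mul_le_mul_of_nonneg_left h5 (by positivity)) h6 (Real.sqrt_nonneg _)
        (by positivity)
    _ = _ := by ring

/-- sum over the blocks -/
theorem blocks {Q : ℕ} {c : ℤ} (hQ : 1 ≤ Q) {B : ℝ} {f : ℕ → ℝ} {d : ℕ → ℝ}
    (hd : ∀ j, 0 < d j) (hf : ∀ q ∈ Ioc 0 Q, f q ≤ er q c / d (Nat.log 2 q))
    (hb : ∀ j, 2 ^ j ≤ Q →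
      ∑ q ∈ (Ioc 0 Q).filter (fun q => Nat.log 2 q = j), er q c ≤ B * (2 ^ j * √2 ^ j)) :
    ∑ q ∈ Ioc 0 Q, f q ≤ B * ∑ j ∈ range (Nat.log 2 Q + 1), 2 ^ j * √2 ^ j / d j := by
  have hmap : ∀ q ∈ Ioc 0 Q, Nat.log 2 q ∈ range (Nat.log 2 Q + 1) := by
    intro q hq
    rw [mem_Ioc] at hq
    rw [mem_range, Nat.lt_succ_iff]
    exact Nat.log_mono_right hq.2
  rw [← sum_fiberwise_of_maps_to hmap, mul_sum]
  refine sum_le_sum fun j hj => ?_
  rw [mem_range, Nat.lt_succ_iff] at hj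
  have hjQ : 2 ^ j ≤ Q := (Nat.pow_le_pow_right (by norm_num) hj).trans
    (Nat.pow_log_le_self 2 (by omega))
  calc ∑ q ∈ (Ioc 0 Q).filter (fun q => Nat.log 2 q = j), f q
      ≤ ∑ q ∈ (Ioc 0 Q).filter (fun q => Nat.log 2 q = j), er q c / d j := by
        refine sum_le_sum fun q hq => ?_
        rw [mem_filter] at hq
        rw [← hq.2]
        exact hf q hq.1
    _ = (∑ q ∈ (Ioc 0 Q).filter (fun q => Nat.log 2 q = j), er q c) / d j := by
        rw [sum_div]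
    _ ≤ B * (2 ^ j * √2 ^ j) / d j := by
        exact div_le_div_of_nonneg_right (hb j hjQ) (hd j).le
    _ = B * (2 ^ j * √2 ^ j / d j) := by rw [mul_div_assoc]

theorem sqrt_two_bounds : (1.4 : ℝ) ≤ √2 ∧ √2 ≤ 1.4143 ∧ √2 * √2 = 2 := by
  refine ⟨?_, ?_, Real.mul_self_sqrt (by norm_num)⟩
  · exact Real.le_sqrt_of_sq_le (by norm_num)
  · exact Real.sqrt_le_iff.2 ⟨by norm_num, by norm_num⟩

theorem psm (hAVG : SpecAVG) : SpecPSM := by
  intro T Q c hQ hc hT hTc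
  have hT1 : 1 ≤ T := by
    have := (hT 1 one_pos (by omega)).1
    unfold tau at this
    simpa using this
  have hT0 : 0 ≤ T := by linarith
  obtain ⟨hs1, hs2, hs3⟩ := sqrt_two_bounds
  have hs0 : 0 < √2 := by linarith
  have hb := fun j (hj : 2 ^ j ≤ Q) => block hAVG hc hT hTc hT0 (j := j) hj
  have hB : 0 ≤ 4 * √2 * T ^ 7 := by positivity
  constructor
  · have h1 := blocks (f := fun q => er q c / (q : ℝ) ^ 2) (d := fun j => 4 ^ j) hQ
      (fun j => by positivity) (fun q hq => by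
        rw [mem_Ioc] at hq
        refine div_le_div_of_nonneg_left (er_nonneg _ _) (by positivity) ?_
        have h2 : 2 ^ Nat.log 2 q ≤ q := Nat.pow_log_le_self 2 (by omega)
        have h3 : ((2 : ℝ) ^ Nat.log 2 q) ≤ q := by exact_mod_cast h2
        calc (4 : ℝ) ^ Nat.log 2 q = ((2 : ℝ) ^ Nat.log 2 q) ^ 2 := by
              rw [← pow_mul, mul_comm, pow_mul]
              norm_num
          _ ≤ (q : ℝ) ^ 2 := pow_le_pow_left₀ (by positivity) h3 2) hb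
    refine h1.trans ?_
    have h2 : ∑ j ∈ range (Nat.log 2 Q + 1), (2 : ℝ) ^ j * √2 ^ j / 4 ^ j ≤ 2 + √2 := by
      have h3 : ∀ j ∈ range (Nat.log 2 Q + 1), (2 : ℝ) ^ j * √2 ^ j / 4 ^ j = (√2 / 2) ^ j := by
        intro j _
        rw [← mul_pow, ← div_pow]
        congr 1
        ring
      rw [sum_congr rfl h3]
      have h4 : √2 / 2 < 1 := by linarith
      have h5 : (√2 / 2) ≠ 1 := h4.ne
      rw [geom_sum_eq h5]
      have h6 : (0 : ℝ) ≤ (√2 / 2) ^ (Nat.log 2 Q + 1) := by positivity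
      rw [div_le_iff_of_neg (by linarith)]
      nlinarith
    calc 4 * √2 * T ^ 7 * ∑ j ∈ range (Nat.log 2 Q + 1), (2 : ℝ) ^ j * √2 ^ j / 4 ^ j
        ≤ 4 * √2 * T ^ 7 * (2 + √2) := mul_le_mul_of_nonneg_left h2 hB
      _ = (8 * √2 + 4 * (√2 * √2)) * T ^ 7 := by ring
      _ ≤ 20 * T ^ 7 := by
        rw [hs3]
        refine mul_le_mul_of_nonneg_right ?_ (by positivity)
        linarith
  · have h1 := blocks (f := fun q => er q c / (q : ℝ)) (d := fun j => 2 ^ j) hQ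
      (fun j => by positivity) (fun q hq => by
        rw [mem_Ioc] at hq
        refine div_le_div_of_nonneg_left (er_nonneg _ _) (by positivity) ?_
        have h2 : 2 ^ Nat.log 2 q ≤ q := Nat.pow_log_le_self 2 (by omega)
        exact_mod_cast h2) hb
    refine h1.trans ?_
    have h2 : ∑ j ∈ range (Nat.log 2 Q + 1), (2 : ℝ) ^ j * √2 ^ j / 2 ^ j ≤
        √2 * (√2 + 1) * √(Q : ℝ) := by
      have h3 : ∀ j ∈ range (Nat.log 2 Q + 1), (2 : ℝ) ^ j * √2 ^ j / 2 ^ j = √2 ^ j := by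
        intro j _
        rw [mul_div_assoc, mul_comm, div_mul_cancel₀ _ (by positivity)]
      rw [sum_congr rfl h3]
      have h5 : √2 ≠ 1 := by linarith
      rw [geom_sum_eq h5]
      have h6 : √2 ^ (Nat.log 2 Q) ≤ √(Q : ℝ) := by
        rw [← sqrt_two_pow]
        refine Real.sqrt_le_sqrt ?_
        have h7 : 2 ^ Nat.log 2 Q ≤ Q := Nat.pow_log_le_self 2 (by omega)
        exact_mod_cast h7
      rw [div_le_iff₀ (by linarith)]
      have h8 : √2 * (√2 + 1) * √(Q : ℝ) * (√2 - 1) = √2 * √(Q : ℝ) := by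
        have : √2 * (√2 + 1) * √(Q : ℝ) * (√2 - 1) = √2 * √(Q : ℝ) * (√2 * √2 - 1) := by ring
        rw [this, hs3]
        ring
      rw [h8, pow_succ]
      have h9 : √2 ^ Nat.log 2 Q * √2 ≤ √(Q : ℝ) * √2 :=
        mul_le_mul_of_nonneg_right h6 hs0.le
      linarith
    calc 4 * √2 * T ^ 7 * ∑ j ∈ range (Nat.log 2 Q + 1), (2 : ℝ) ^ j * √2 ^ j / 2 ^ j
        ≤ 4 * √2 * T ^ 7 * (√2 * (√2 + 1) * √(Q : ℝ)) := mul_le_mul_of_nonneg_left h2 hB
      _ = (4 * (√2 * √2) * (√2 + 1)) * (T ^ 7 * √(Q : ℝ)) := by ring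
      _ ≤ 20 * (T ^ 7 * √(Q : ℝ)) := by
        rw [hs3]
        refine mul_le_mul_of_nonneg_right ?_ (by positivity)
        linarith
      _ = 20 * T ^ 7 * √(Q : ℝ) := by ring

/-- partial summation -/
theorem specPSM : SpecPSM := psm (specAVG specDEC)

end Pool.Agent.Lib.MP_a8dae7_an.D4.PSMM
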