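import Pool.Agent.Lib.MP_a8dae7_an.D4.Spec
import Pool.Agent.Lib.MP_a8dae7_an.CG.GA

section
/-!
# D4/LW: a lower bound for the gradient
-/
set_option autoImplicit false

open MeasureTheory

namespace Pool.Agent.Lib.MP_a8dae7_an.D4.LWM

open Pool.Agent.Lib.MP_a8dae7_an.CV

theorem exists_dir' {k : ℕ} (ch : CG.Chart k) {q : EE k} (hq : ‖q‖ ≤ 4 * ch.dl) (u : EE k) (a : ℝ) :
    ∃ v : EE k, ‖v‖ ≤ 1 ∧
      ‖u + a • ch.V q‖ ≤ inner ℝ (ch.J u + a • ch.nu) (fderiv ℝ ch.X q v) := by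
  set w := u + a • ch.V q with hw
  rcases eq_or_ne w 0 with h0 | h0
  · refine ⟨0, by simp, ?_⟩
    rw [h0]
    simp
  · have hwn : 0 < ‖w‖ := norm_pos_iff.2 h0
    refine ⟨‖w‖⁻¹ • w, ?_, ?_⟩
    · rw [norm_smul, norm_inv, norm_norm, inv_mul_cancel₀ hwn.ne']
    · rw [CG.GAM.phase ch hq, ← hw, inner_smul_right, real_inner_self_eq_norm_sq]
      apply le_of_eq
      field_simp

end Pool.Agent.Lib.MP_a8dae7_an.D4.LWM

namespace Pool.Agent.Lib.MP_a8dae7_an.D4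

open LWM Pool.Agent.Lib.MP_a8dae7_an.CV

theorem specLW : SpecLW := by
  intro k ch c1 hND
  obtain ⟨hc1, hV⟩ := hND
  have hdl := ch.dl_pos
  have hdl' := ch.dl_le
  refine ⟨min (1 / 2) (c1 / 4), by positivity, (min_le_left _ _).trans (by norm_num),
    fun eta => ?_⟩
  obtain ⟨u, a, hu⟩ := CG.GAM.exists_coord ch eta
  have hn2 : ‖eta‖ ^ 2 = ‖u‖ ^ 2 + a ^ 2 := by rw [hu, CG.GAM.norm_coord]
  have hE : 0 ≤ ‖eta‖ := norm_nonneg _
  have hU : 0 ≤ ‖u‖ := norm_nonneg _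
  rcases le_total |a| (‖eta‖ / 2) with ha | ha
  · refine ⟨0, by rw [norm_zero]; positivity, fun q hq => ?_⟩
    have hq4 : ‖q‖ ≤ 4 * ch.dl := by linarith
    obtain ⟨v, hv, h⟩ := exists_dir' ch hq4 u a
    refine ⟨v, hv, ?_⟩
    rw [hu]
    refine le_trans ?_ h
    rw [← hu, sub_zero]
    have hVq := ch.V_le q hq4
    have h1 : ‖u‖ ≤ ‖u + a • ch.V q‖ + |a| * (1 / 16) := by
      have h2 : u = (u + a • ch.V q) - a • ch.V q := by abel
      calc ‖u‖ = ‖(u + a • ch.V q) - a • ch.V q‖ := by rw [← h2]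
        _ ≤ ‖u + a • ch.V q‖ + ‖a • ch.V q‖ := norm_sub_le _ _
        _ ≤ _ := by
          rw [norm_smul, Real.norm_eq_abs]
          have := mul_le_mul_of_nonneg_left hVq (abs_nonneg a)
          linarith
    have h3 : 4 / 5 * ‖eta‖ ≤ ‖u‖ := by
      have h4 : a ^ 2 ≤ (‖eta‖ / 2) ^ 2 := by
        rw [← sq_abs a]
        exact pow_le_pow_left₀ (abs_nonneg a) ha 2
      have h5 : (4 / 5 * ‖eta‖) ^ 2 ≤ ‖u‖ ^ 2 := by nlinarith
      exact le_of_sq_le_sq h5 hU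
    have h6 : ‖eta‖ / 2 ≤ ‖u + a • ch.V q‖ := by linarith
    have h7 : ‖q‖ ≤ 1 := by linarith
    calc min (1 / 2) (c1 / 4) * ‖eta‖ * ‖q‖ ≤ 1 / 2 * ‖eta‖ * 1 := by
          apply mul_le_mul _ h7 (norm_nonneg _) (by positivity)
          exact mul_le_mul_of_nonneg_right (min_le_left _ _) hE
      _ ≤ _ := by linarith
  · have hcpt : IsCompact (Metric.closedBall (0 : EE k) (3 * ch.dl)) := isCompact_closedBall _ _
    have hne : (Metric.closedBall (0 : EE k) (3 * ch.dl)).Nonempty :=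
      ⟨0, Metric.mem_closedBall_self (by positivity)⟩
    have hcont : Continuous (fun q : EE k => ‖u + a • ch.V q‖) := by
      have := ch.smoothV.continuous
      fun_prop
    obtain ⟨qs, hqs, hmin⟩ := hcpt.exists_isMinOn hne hcont.continuousOn
    have hqs' : ‖qs‖ ≤ 3 * ch.dl := by simpa using hqs
    refine ⟨qs, hqs', fun q hq => ?_⟩
    have hq4 : ‖q‖ ≤ 4 * ch.dl := by linarith
    obtain ⟨v, hv, h⟩ := exists_dir' ch hq4 u a
    refine ⟨v, hv, ?_⟩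
    rw [hu]
    refine le_trans ?_ h
    rw [← hu]
    have hle : ‖u + a • ch.V qs‖ ≤ ‖u + a • ch.V q‖ := hmin (by simpa using hq)
    have h1 : ‖(u + a • ch.V q) - (u + a • ch.V qs)‖ ≤ 2 * ‖u + a • ch.V q‖ :=
      (norm_sub_le _ _).trans (by linarith)
    have h2 : (u + a • ch.V q) - (u + a • ch.V qs) = a • (ch.V q - ch.V qs) := by
      rw [smul_sub]; abel
    rw [h2, norm_smul, Real.norm_eq_abs] at h1
    have h3 := hV q qs hq4 (by linarith)
    have h4 : ‖eta‖ / 2 * (c1 * ‖q - qs‖) ≤ |a| * ‖ch.V q - ch.V qs‖ :=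
      mul_le_mul ha h3 (by positivity) (abs_nonneg a)
    calc min (1 / 2) (c1 / 4) * ‖eta‖ * ‖q - qs‖ ≤ c1 / 4 * ‖eta‖ * ‖q - qs‖ := by
          apply mul_le_mul_of_nonneg_right _ (norm_nonneg _)
          exact mul_le_mul_of_nonneg_right (min_le_right _ _) hE
      _ = (‖eta‖ / 2 * (c1 * ‖q - qs‖)) / 2 := by ring
      _ ≤ _ := by linarith

end Pool.Agent.Lib.MP_a8dae7_an.D4
end

section
/-!
# MP_a8dae7_an, D4: module PP (the periodic Gaussian)

`PG g x = ∑ exp(-π g (m-x)²)` is a Jacobi theta function: this gives summability and continuity. Its mean over a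
period is the Gaussian integral.
-/
set_option autoImplicit false

open MeasureTheory
open scoped ContDiff

namespace Pool.Agent.Lib.MP_a8dae7_an.D4.PPM

open Pool.Agent.Lib.MP_a8dae7_an.D4

/-- the term of `PG` is a term of the theta function -/
lemma term_eq (g x : ℝ) (m : ℤ) :
    ((Real.exp (-(Real.pi * g * ((m : ℝ) - x) ^ 2)) : ℝ) : ℂ) =
      Complex.exp (((-(Real.pi * g * x ^ 2) : ℝ) : ℂ)) *
        jacobiTheta₂_term m (-(Complex.I * ((g * x : ℝ) : ℂ))) (Complex.I * ((g : ℝ) : ℂ)) := by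
  rw [jacobiTheta₂_term, ← Complex.exp_add, Complex.ofReal_exp]
  congr 1
  push_cast
  have hI : Complex.I ^ 2 = -1 := Complex.I_sq
  linear_combination (-(2 * (Real.pi : ℂ) * m * g * x) + (Real.pi : ℂ) * m ^ 2 * g) * (-hI)

lemma summ (g x : ℝ) (hg : 0 < g) :
    Summable fun m : ℤ => Real.exp (-(Real.pi * g * ((m : ℝ) - x) ^ 2)) := by
  have h : 0 < (Complex.I * ((g : ℝ) : ℂ)).im := by simpa using hg
  have h1 := ((summable_jacobiTheta₂_term_iff (-(Complex.I * ((g * x : ℝ) : ℂ)))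
    (Complex.I * ((g : ℝ) : ℂ))).2 h).mul_left (Complex.exp (((-(Real.pi * g * x ^ 2) : ℝ) : ℂ)))
  rw [← Complex.summable_ofReal]
  exact h1.congr fun m => (term_eq g x m).symm

lemma PG_eq (g x : ℝ) : ((PG g x : ℝ) : ℂ) = Complex.exp (((-(Real.pi * g * x ^ 2) : ℝ) : ℂ)) *
    jacobiTheta₂ (-(Complex.I * ((g * x : ℝ) : ℂ))) (Complex.I * ((g : ℝ) : ℂ)) := by
  rw [PG, Complex.ofReal_tsum, jacobiTheta₂, ← tsum_mul_left]
  exact tsum_congr fun m => term_eq g x m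

lemma cont : ContinuousOn (fun p : ℝ × ℝ => PG p.1 p.2) {p | 0 < p.1} := by
  intro p hp
  apply ContinuousAt.continuousWithinAt
  have h : 0 < (Complex.I * ((p.1 : ℝ) : ℂ)).im := by simpa using hp
  have h1 := continuousAt_jacobiTheta₂ (-(Complex.I * ((p.1 * p.2 : ℝ) : ℂ))) h
  have h2 : ContinuousAt (fun q : ℝ × ℝ => jacobiTheta₂ (-(Complex.I * ((q.1 * q.2 : ℝ) : ℂ)))
      (Complex.I * ((q.1 : ℝ) : ℂ))) p := by
    have h3 : ContinuousAt (fun q : ℝ × ℝ => ((-(Complex.I * ((q.1 * q.2 : ℝ) : ℂ))),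
      (Complex.I * ((q.1 : ℝ) : ℂ)))) p := by
      apply Continuous.continuousAt
      fun_prop
    exact ContinuousAt.comp (f := fun q : ℝ × ℝ => ((-(Complex.I * ((q.1 * q.2 : ℝ) : ℂ))),
      (Complex.I * ((q.1 : ℝ) : ℂ)))) (g := fun p : ℂ × ℂ => jacobiTheta₂ p.1 p.2) h1 h3
  have h4 : ContinuousAt (fun q : ℝ × ℝ => (Complex.exp (((-(Real.pi * q.1 * q.2 ^ 2) : ℝ) : ℂ)) *
    jacobiTheta₂ (-(Complex.I * ((q.1 * q.2 : ℝ) : ℂ))) (Complex.I * ((q.1 : ℝ) : ℂ))).re) p := by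
    apply Complex.continuous_re.continuousAt.comp
    apply ContinuousAt.mul _ h2
    apply Continuous.continuousAt
    fun_prop
  have h5 : (fun q : ℝ × ℝ => PG q.1 q.2) = (fun q : ℝ × ℝ =>
      (Complex.exp (((-(Real.pi * q.1 * q.2 ^ 2) : ℝ) : ℂ)) *
    jacobiTheta₂ (-(Complex.I * ((q.1 * q.2 : ℝ) : ℂ))) (Complex.I * ((q.1 : ℝ) : ℂ))).re) := by
    funext q
    rw [← PG_eq, Complex.ofReal_re]
  rw [h5]
  exact h4

lemma contx (g : ℝ) (hg : 0 < g) : Continuous fun x => PG g x := by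
  rw [continuous_iff_continuousAt]
  intro x
  have hs : {p : ℝ × ℝ | 0 < p.1} ∈ nhds ((g, x) : ℝ × ℝ) :=
    (isOpen_lt continuous_const continuous_fst).mem_nhds hg
  have h := (cont.continuousAt hs)
  exact ContinuousAt.comp (f := fun y : ℝ => (g, y)) (g := fun p : ℝ × ℝ => PG p.1 p.2) h
    (by fun_prop : Continuous fun y : ℝ => (g, y)).continuousAt

lemma per (g : ℝ) : Function.Periodic (fun x => PG g x) 1 := by
  intro x
  simp only [PG]
  rw [← (Equiv.addRight (1 : ℤ)).tsum_eq]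
  refine tsum_congr fun m => ?_
  congr 3
  simp

lemma per_int (g x : ℝ) (n : ℤ) : PG g (x + n) = PG g x := by
  have := (per g).int_mul n x
  simpa using this

/-- the mean over one period -/
lemma mean (g : ℝ) (hg : 0 < g) : ∫ x in (0 : ℝ)..1, PG g x = √(1 / g) := by
  set f : ℝ → ℝ := fun x => Real.exp (-(Real.pi * g) * x ^ 2) with hf
  have hb : 0 < Real.pi * g := by positivity
  have hfi : Integrable f := integrable_exp_neg_mul_sq hb
  have h1 := hfi.hasSum_intervalIntegral_comp_add_int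
  have h2 : ∫ x, f x = √(1 / g) := by
    rw [hf, integral_gaussian]
    congr 1
    field_simp
  have hint : ∀ n : ℤ, Integrable (fun x => f (x + n)) (volume.restrict (Set.Ioc (0 : ℝ) 1)) :=
    fun n => (hfi.comp_add_right (n : ℝ)).restrict
  have hnorm : Summable fun n : ℤ => ∫ x in Set.Ioc (0 : ℝ) 1, ‖f (x + n)‖ := by
    refine h1.summable.congr fun n => ?_
    rw [intervalIntegral.integral_of_le zero_le_one]
    refine integral_congr_ae (Filter.Eventually.of_forall fun x => ?_)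
    simp [hf, Real.norm_eq_abs]
  have h3 := hasSum_integral_of_summable_integral_norm hint hnorm
  have h4 : ∫ x in Set.Ioc (0 : ℝ) 1, ∑' n : ℤ, f (x + n) = ∫ x, f x := by
    refine HasSum.unique h3 ?_
    refine (h1.congr_fun ?_)
    intro n
    rw [intervalIntegral.integral_of_le zero_le_one]
  rw [intervalIntegral.integral_of_le zero_le_one, ← h2, ← h4]
  refine integral_congr_ae (Filter.Eventually.of_forall fun x => ?_)
  simp only [PG]
  rw [← (Equiv.neg ℤ).tsum_eq]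
  refine tsum_congr fun m => ?_
  simp only [hf, Equiv.neg_apply, Int.cast_neg]
  congr 1
  ring

lemma nonneg (g x : ℝ) : 0 ≤ PG g x := tsum_nonneg fun _ => (Real.exp_pos _).le

lemma intg (g Y : ℝ) (hg : 0 < g) (hY : 0 ≤ Y) : ∫ x in (-Y)..Y, PG g x ≤ (2 * Y + 2) * √(1 / g) := by
  set n : ℕ := ⌈Y⌉₊ with hn
  have hYn : Y ≤ n := Nat.le_ceil Y
  have hn1 : (n : ℝ) ≤ Y + 1 := (Nat.ceil_lt_add_one hY).le
  have h1 : ∫ x in (-Y)..Y, PG g x ≤ ∫ x in (-(n : ℝ))..(n : ℝ), PG g x := by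
    apply intervalIntegral.integral_mono_interval (by linarith) (by linarith) hYn
    · exact Filter.Eventually.of_forall fun x => nonneg g x
    · exact (contx g hg).intervalIntegrable _ _
  have h2 : ∫ x in (-(n : ℝ))..(n : ℝ), PG g x = (2 * n) * √(1 / g) := by
    have h3 := (per g).intervalIntegral_add_zsmul_eq (2 * n : ℤ) (-(n : ℝ))
      (fun t₁ t₂ => (contx g hg).intervalIntegrable _ _)
    have h4 : (-(n : ℝ)) + (2 * n : ℤ) • (1 : ℝ) = n := by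
      simp
      ring
    rw [h4] at h3
    rw [h3, (per g).intervalIntegral_add_eq (-(n : ℝ)) 0, zero_add, mean g hg]
    simp
  rw [h2] at h1
  refine h1.trans ?_
  apply mul_le_mul_of_nonneg_right _ (Real.sqrt_nonneg _)
  linarith

lemma hasSum_exp_abs : HasSum (fun j : ℤ => Real.exp (-|(j : ℝ)|))
    ((1 - Real.exp (-1))⁻¹ + Real.exp (-1) * (1 - Real.exp (-1))⁻¹) := by
  have hr0 : 0 ≤ Real.exp (-1) := (Real.exp_pos _).le
  have hr1 : Real.exp (-1) < 1 := by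
    rw [Real.exp_lt_one_iff]
    norm_num
  have h := hasSum_geometric_of_lt_one hr0 hr1
  refine HasSum.of_nat_of_neg_add_one (f := fun j : ℤ => Real.exp (-|(j : ℝ)|)) ?_ ?_
  · refine h.congr_fun ?_
    intro n
    rw [← Real.exp_nat_mul]
    congr 1
    simp
  · refine (h.mul_left (Real.exp (-1))).congr_fun ?_
    intro n
    rw [← Real.exp_nat_mul, ← Real.exp_add]
    congr 1
    push_cast
    rw [abs_of_nonpos (by have : (0 : ℝ) ≤ n := Nat.cast_nonneg n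
                          linarith)]
    ring

lemma bound (g x : ℝ) (hg : 1 / 17 ≤ g) : PG g x ≤ 100 := by
  have hg0 : 0 < g := by linarith [show (0 : ℝ) < 1 / 17 by norm_num]
  set d : ℝ := x - round x with hd
  have hd1 : |d| ≤ 1 / 2 := abs_sub_round x
  have h1 : PG g x = PG g d := by
    have := per_int g d (round x)
    rw [← this]
    congr 1
    rw [hd]
    ring
  rw [h1]
  have hterm : ∀ j : ℤ, Real.exp (-(Real.pi * g * ((j : ℝ) - d) ^ 2)) ≤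
      Real.exp 3 * Real.exp (-|(j : ℝ)|) := by
    intro j
    rw [← Real.exp_add]
    apply Real.exp_le_exp.2
    have hy : |(j : ℝ)| - 1 / 2 ≤ |(j : ℝ) - d| := by
      have := abs_sub_abs_le_abs_sub (j : ℝ) d
      linarith
    have hsq : 6 * |(j : ℝ)| - 12 ≤ ((j : ℝ) - d) ^ 2 := by
      rw [← sq_abs ((j : ℝ) - d)]
      nlinarith [sq_nonneg (|(j : ℝ) - d| - 3)]
    have hsq0 : 0 ≤ ((j : ℝ) - d) ^ 2 := sq_nonneg _
    have hpi1 := Real.pi_gt_three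
    have hpi2 := Real.pi_lt_d2
    have habs : 0 ≤ |(j : ℝ)| := abs_nonneg _
    have h2 : Real.pi / 17 * ((j : ℝ) - d) ^ 2 ≤ Real.pi * g * ((j : ℝ) - d) ^ 2 := by
      apply mul_le_mul_of_nonneg_right _ hsq0
      nlinarith
    have h3 : Real.pi / 17 * (6 * |(j : ℝ)| - 12) ≤ Real.pi / 17 * ((j : ℝ) - d) ^ 2 :=
      mul_le_mul_of_nonneg_left hsq (by positivity)
    nlinarith
  have hS := hasSum_exp_abs
  have h2 : PG g d ≤ ∑' j : ℤ, Real.exp 3 * Real.exp (-|(j : ℝ)|) :=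
    (summ g d hg0).tsum_le_tsum hterm (hS.summable.mul_left _)
  rw [tsum_mul_left, hS.tsum_eq] at h2
  refine h2.trans ?_
  have he := Real.exp_one_gt_d9
  have he2 := Real.exp_one_lt_d9
  have h3 : Real.exp 3 ≤ 21 := by
    have : Real.exp 3 = Real.exp 1 ^ 3 := by
      rw [← Real.exp_nat_mul]
      norm_num
    rw [this]
    have : Real.exp 1 ^ 3 ≤ (2.7182818286 : ℝ) ^ 3 := pow_le_pow_left₀ (Real.exp_pos 1).le he2.le 3
    refine this.trans (by norm_num)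
  have h4 : Real.exp (-1) ≤ 1 / 2 := by
    rw [Real.exp_neg]
    rw [inv_le_comm₀ (Real.exp_pos 1) (by norm_num)]
    norm_num
    linarith
  have h4' : 0 < Real.exp (-1) := Real.exp_pos _
  have h5 : (1 - Real.exp (-1))⁻¹ ≤ 2 := by
    rw [inv_le_comm₀ (by linarith) (by norm_num)]
    linarith
  have h5' : 0 < (1 - Real.exp (-1))⁻¹ := by
    apply inv_pos.2
    linarith
  have h6 : (1 - Real.exp (-1))⁻¹ + Real.exp (-1) * (1 - Real.exp (-1))⁻¹ ≤ 3 := by nlinarith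
  have h7 : 0 < Real.exp 3 := Real.exp_pos _
  nlinarith

theorem specPP : SpecPP :=
  ⟨fun g x hg => summ g x hg, cont, fun g Y hg hY => intg g Y hg hY, fun g x hg => bound g x hg⟩

end Pool.Agent.Lib.MP_a8dae7_an.D4.PPM
end

section
/-!
# MP_a8dae7_an, D4: module MB (the integral of the dual side)
-/
set_option autoImplicit false

open MeasureTheory
open scoped ContDiff

namespace Pool.Agent.Lib.MP_a8dae7_an.D4.MBM

open Pool.Agent.Lib.MP_a8dae7_an.D4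

lemma PG_neg (g x : ℝ) : PG g (-x) = PG g x := by
  simp only [PG]
  rw [← (Equiv.neg ℤ).tsum_eq]
  refine tsum_congr fun m => ?_
  simp only [Equiv.neg_apply, Int.cast_neg]
  congr 1
  ring

lemma PG_abs (g x y : ℝ) (c : ℝ) (h : y = x * |c|) : PG g (x * c) = PG g y := by
  rcases abs_cases c with ⟨h1, _⟩ | ⟨h1, _⟩
  · rw [h, h1]
  · rw [h, h1, mul_neg, PG_neg]

/-- the one-dimensional integrand -/
noncomputable def fm (rho w : ℝ) (q : ℕ) (s : ℝ) : ℝ :=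
  (1 + s ^ 2)⁻¹ * PG (rho ^ 2 / ((q : ℝ) ^ 2 * (1 + s ^ 2))) (s * q * w / rho ^ 2)

lemma fm_cont (rho w : ℝ) (q : ℕ) (hr : 0 < rho) (hq : 1 ≤ q) : Continuous (fm rho w q) := by
  have hq0 : (0 : ℝ) < q := by exact_mod_cast hq
  unfold fm
  apply Continuous.mul
  · apply Continuous.inv₀ (by fun_prop)
    intro s
    positivity
  · have hc : Continuous fun s : ℝ => ((rho ^ 2 / ((q : ℝ) ^ 2 * (1 + s ^ 2)), s * q * w / rho ^ 2) : ℝ × ℝ) := by
      apply Continuous.prodMk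
      · apply Continuous.div (by fun_prop) (by fun_prop)
        intro s
        positivity
      · fun_prop
    have := PPM.cont.comp_continuous hc (fun s => by
      show 0 < rho ^ 2 / ((q : ℝ) ^ 2 * (1 + s ^ 2))
      positivity)
    exact this

lemma fm_nonneg (rho w : ℝ) (q : ℕ) (s : ℝ) : 0 ≤ fm rho w q s := by
  unfold fm
  exact mul_nonneg (by positivity) (PPM.nonneg _ _)

lemma exists_large (lam : ℝ) (c : Fin 4 → ℤ) (hl : 0 < lam) (h : ∑ i, (c i : ℝ) ^ 2 = lam ^ 2) :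
    ∃ i, lam / 2 ≤ |(c i : ℝ)| := by
  by_contra hcon
  push Not at hcon
  have h1 : ∀ i, (c i : ℝ) ^ 2 < lam ^ 2 / 4 := by
    intro i
    have h2 := hcon i
    rw [← sq_abs]
    have h3 : 0 ≤ |(c i : ℝ)| := abs_nonneg _
    nlinarith
  have h4 : ∑ i, (c i : ℝ) ^ 2 < ∑ _i : Fin 4, lam ^ 2 / 4 :=
    Finset.sum_lt_sum_of_nonempty (by simp) fun i _ => h1 i
  rw [h] at h4
  simp at h4
  linarith

theorem specMB (hWP : SpecWP) (hMI : SpecMI) : SpecMB := by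
  refine ⟨10 ^ 8, by norm_num, ?_⟩
  intro rho lam c q Q hr hl hc hq hqQ hQr hrQ
  have hr0 : 0 < rho := by linarith
  have hq1 : (1 : ℝ) ≤ q := by exact_mod_cast hq
  have hqQ' : (q : ℝ) ≤ Q := by exact_mod_cast hqQ
  have hQ1 : (1 : ℝ) ≤ Q := le_trans hq1 hqQ'
  have hq0 : (0 : ℝ) < q := by linarith
  have hQ0 : (0 : ℝ) < Q := by linarith
  obtain ⟨i0, hi0⟩ := exists_large lam c hl hc
  set w : ℝ := |(c i0 : ℝ)| with hw
  have hw0 : 0 < w := by linarith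
  obtain ⟨hprod, hcont⟩ := hWP rho c q hr0 hq
  set B : ℝ := 1 / ((q : ℝ) * Q) with hB
  have hB0 : 0 < B := by positivity
  -- pointwise bound
  have hpt : ∀ be ∈ Set.Icc (-B) B, ∑' b : Fin 4 → ℤ, W4 rho c q be b ≤
      10 ^ 6 * rho ^ 4 * fm rho w q (2 * rho ^ 2 * be) := by
    intro be hbe
    rw [hprod be]
    have hbe2 : be ^ 2 ≤ B ^ 2 := by
      apply sq_le_sq'
      · exact hbe.1
      · exact hbe.2
    set G : ℝ := rho ^ 2 / ((q : ℝ) ^ 2 * (1 + 4 * be ^ 2 * rho ^ 4)) with hG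
    have hden : 0 < (q : ℝ) ^ 2 * (1 + 4 * be ^ 2 * rho ^ 4) := by positivity
    have hG17 : 1 / 17 ≤ G := by
      rw [hG, le_div_iff₀ hden]
      have h1 : (q : ℝ) ^ 2 ≤ rho ^ 2 := by
        apply pow_le_pow_left₀ hq0.le
        linarith
      have h2 : (q : ℝ) ^ 2 * (4 * be ^ 2 * rho ^ 4) ≤ 16 * rho ^ 2 := by
        have h3 : (q : ℝ) ^ 2 * (4 * be ^ 2 * rho ^ 4) ≤ (q : ℝ) ^ 2 * (4 * B ^ 2 * rho ^ 4) := by
          gcongr
        have h4 : (q : ℝ) ^ 2 * (4 * B ^ 2 * rho ^ 4) = 4 * rho ^ 2 * (rho / Q) ^ 2 := by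
          rw [hB]
          field_simp
        have h5 : (rho / Q) ^ 2 ≤ 2 ^ 2 := by
          apply pow_le_pow_left₀ (by positivity)
          rw [div_le_iff₀ hQ0]
          linarith
        have h6 : 0 < rho ^ 2 := by positivity
        nlinarith
      nlinarith
    have hbd : ∀ x, PG G x ≤ 100 := fun x => PPM.bound G x hG17
    have hnn : ∀ x, 0 ≤ PG G x := fun x => PPM.nonneg G x
    have hP : ∏ i, PG G (2 * q * be * c i) ≤ 100 ^ 3 * PG G (2 * q * be * w) := by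
      rw [← Finset.mul_prod_erase _ _ (Finset.mem_univ i0), mul_comm,
        PG_abs G (2 * q * be) (2 * q * be * w) (c i0) rfl]
      apply mul_le_mul_of_nonneg_right _ (hnn _)
      calc ∏ i ∈ Finset.univ.erase i0, PG G (2 * q * be * c i)
          ≤ ∏ _i ∈ Finset.univ.erase i0, (100 : ℝ) :=
            Finset.prod_le_prod (fun i _ => hnn _) (fun i _ => hbd _)
        _ = 100 ^ 3 := by simp
    have hfm : fm rho w q (2 * rho ^ 2 * be) =
        (1 + 4 * be ^ 2 * rho ^ 4)⁻¹ * PG G (2 * q * be * w) := by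
      unfold fm
      have e1 : 1 + (2 * rho ^ 2 * be) ^ 2 = 1 + 4 * be ^ 2 * rho ^ 4 := by ring
      have e2 : 2 * rho ^ 2 * be * q * w / rho ^ 2 = 2 * q * be * w := by
        field_simp
      rw [e1, e2]
    rw [hfm]
    calc rho ^ 4 / (1 + 4 * be ^ 2 * rho ^ 4) * ∏ i, PG G (2 * q * be * c i)
        ≤ rho ^ 4 / (1 + 4 * be ^ 2 * rho ^ 4) * (100 ^ 3 * PG G (2 * q * be * w)) := by
          apply mul_le_mul_of_nonneg_left hP
          positivity
      _ = 10 ^ 6 * rho ^ 4 * ((1 + 4 * be ^ 2 * rho ^ 4)⁻¹ * PG G (2 * q * be * w)) := by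
          rw [div_eq_mul_inv]
          ring
  have hfc : Continuous fun be : ℝ => 10 ^ 6 * rho ^ 4 * fm rho w q (2 * rho ^ 2 * be) :=
    continuous_const.mul ((fm_cont rho w q hr0 hq).comp (by fun_prop))
  have h1 : ∫ be in (-B)..B, ∑' b : Fin 4 → ℤ, W4 rho c q be b ≤
      ∫ be in (-B)..B, 10 ^ 6 * rho ^ 4 * fm rho w q (2 * rho ^ 2 * be) :=
    intervalIntegral.integral_mono_on (by linarith) (hcont.intervalIntegrable _ _)
      (hfc.intervalIntegrable _ _) hpt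
  refine h1.trans ?_
  rw [intervalIntegral.integral_const_mul,
    intervalIntegral.integral_comp_mul_left (f := fm rho w q) (by positivity : 2 * rho ^ 2 ≠ 0)]
  set S : ℝ := 2 * rho ^ 2 * B with hS
  have hS0 : 0 ≤ S := by positivity
  have hS4 : S ≤ 4 * rho := by
    rw [hS, hB]
    have h2 : 2 * rho ^ 2 * (1 / ((q : ℝ) * Q)) = 2 * rho * (rho / Q) / q := by
      field_simp
    rw [h2, div_le_iff₀ hq0]
    have h3 : rho / Q ≤ 2 := by
      rw [div_le_iff₀ hQ0]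
      linarith
    have h4 : 2 * rho * (rho / Q) ≤ 2 * rho * 2 := mul_le_mul_of_nonneg_left h3 (by linarith)
    nlinarith
  have hMI' : ∫ s in (-S)..S, fm rho w q s ≤
      100 * ((q : ℝ) / rho * (1 + Real.log rho) + rho / w) :=
    hMI rho w q S hr hw0 hq hS0 hS4
  have hneg : 2 * rho ^ 2 * -B = -S := by rw [hS]; ring
  rw [hneg, smul_eq_mul]
  have hlog : 0 ≤ Real.log rho := Real.log_nonneg hr
  have hwl : rho / w ≤ 2 * rho / lam := by
    rw [div_le_div_iff₀ hw0 hl]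
    nlinarith
  calc 10 ^ 6 * rho ^ 4 * ((2 * rho ^ 2)⁻¹ * ∫ s in (-S)..S, fm rho w q s)
      ≤ 10 ^ 6 * rho ^ 4 * ((2 * rho ^ 2)⁻¹ *
        (100 * ((q : ℝ) / rho * (1 + Real.log rho) + 2 * rho / lam))) := by
        apply mul_le_mul_of_nonneg_left _ (by positivity)
        apply mul_le_mul_of_nonneg_left _ (by positivity)
        refine hMI'.trans ?_
        linarith
    _ = 5 * 10 ^ 7 * (2 * (rho ^ 3 / lam) + q * rho * (1 + Real.log rho)) := by
        field_simp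
        ring
    _ ≤ 10 ^ 8 * (rho ^ 3 / lam + q * rho * (1 + Real.log rho)) := by
        have h5 : 0 ≤ q * rho * (1 + Real.log rho) := by positivity
        linarith

end Pool.Agent.Lib.MP_a8dae7_an.D4.MBM
end

section
/-!
# MP_a8dae7_an, D4, module MI: the one-dimensional integral
-/
set_option autoImplicit false

open MeasureTheory

namespace Pool.Agent.Lib.MP_a8dae7_an.D4.MIM

open Pool.Agent.Lib.MP_a8dae7_an.D4

lemma PG_nonneg (g x : ℝ) : 0 ≤ PG g x := tsum_nonneg fun m => (Real.exp_pos _).le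

lemma PG_anti (hPP : SpecPP) {g g' : ℝ} (x : ℝ) (h0 : 0 < g) (h : g ≤ g') : PG g' x ≤ PG g x := by
  refine (hPP.1 g' x (h0.trans_le h)).tsum_le_tsum (fun m => ?_) (hPP.1 g x h0)
  apply Real.exp_le_exp.2
  have h1 : (0 : ℝ) ≤ ((m : ℝ) - x) ^ 2 := sq_nonneg _
  have h2 := Real.pi_pos
  have : Real.pi * g * ((m : ℝ) - x) ^ 2 ≤ Real.pi * g' * ((m : ℝ) - x) ^ 2 := by gcongr
  linarith

/-- the integrand -/
noncomputable def ff (a k s : ℝ) : ℝ := (1 + s ^ 2)⁻¹ * PG (a / (1 + s ^ 2)) (k * s)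

lemma ff_nonneg (a k s : ℝ) : 0 ≤ ff a k s :=
  mul_nonneg (inv_nonneg.2 (by positivity)) (PG_nonneg _ _)

lemma cont_PG (hPP : SpecPP) {g : ℝ} (k : ℝ) (hg : 0 < g) : Continuous fun s : ℝ => PG g (k * s) := by
  have h : Continuous fun s : ℝ => ((g, k * s) : ℝ × ℝ) := by fun_prop
  exact hPP.2.1.comp_continuous h (fun s => hg)

lemma cont_ff (hPP : SpecPP) {a : ℝ} (k : ℝ) (ha : 0 < a) : Continuous (ff a k) := by
  have h1 : ∀ s : ℝ, 1 + s ^ 2 ≠ 0 := fun s => by positivity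
  have h : Continuous fun s : ℝ => ((a / (1 + s ^ 2), k * s) : ℝ × ℝ) :=
    (continuous_const.div (by fun_prop) h1).prodMk (by fun_prop)
  have h2 := hPP.2.1.comp_continuous h (fun s => by
    show 0 < a / (1 + s ^ 2)
    positivity)
  exact (Continuous.inv₀ (by fun_prop) h1).mul h2

/-- the bound of the block `j` -/
noncomputable def Bj (a k : ℝ) (j : ℕ) : ℝ :=
  4 * (4 ^ j : ℝ)⁻¹ * ∫ s in (-(2 : ℝ) ^ j)..(2 ^ j), PG (a / (2 * 4 ^ j)) (k * s)

lemma four_pow (j : ℕ) : ((2 : ℝ) ^ j) ^ 2 = 4 ^ j := by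
  rw [← pow_mul, mul_comm, pow_mul]; norm_num

/-- pointwise bound -/
lemma pt (hPP : SpecPP) {a : ℝ} (k : ℝ) (ha : 0 < a) (j : ℕ) (s : ℝ) (hs : |s| ≤ 2 ^ j)
    (hs' : (4 : ℝ) ^ j ≤ 4 * (1 + s ^ 2)) :
    ff a k s ≤ 4 * (4 ^ j : ℝ)⁻¹ * PG (a / (2 * 4 ^ j)) (k * s) := by
  have h1 : s ^ 2 ≤ 4 ^ j := by
    rw [← four_pow, ← sq_abs]
    gcongr
  have h2 : (1 : ℝ) ≤ 4 ^ j := one_le_pow₀ (by norm_num)
  have h3 : 1 + s ^ 2 ≤ 2 * 4 ^ j := by linarith
  have h4 : PG (a / (1 + s ^ 2)) (k * s) ≤ PG (a / (2 * 4 ^ j)) (k * s) := by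
    apply PG_anti hPP _ (by positivity)
    gcongr
  have h5 : (1 + s ^ 2)⁻¹ ≤ 4 * (4 ^ j : ℝ)⁻¹ := by
    have h6 : (4 : ℝ) * (4 ^ j : ℝ)⁻¹ = (4 ^ j / 4)⁻¹ := by
      rw [inv_div]; ring
    rw [h6]
    apply inv_anti₀ (by positivity)
    linarith
  unfold ff
  exact mul_le_mul h5 h4 (PG_nonneg _ _) (by positivity)

/-- dyadic blocks -/
lemma blocks (hPP : SpecPP) {a : ℝ} (k : ℝ) (ha : 0 < a) (J : ℕ) :
    ∫ s in (-(2 : ℝ) ^ J)..(2 ^ J), ff a k s ≤ ∑ j ∈ Finset.range (J + 1), Bj a k j := by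
  have hc := cont_ff hPP k ha
  have hi : ∀ x y : ℝ, IntervalIntegrable (ff a k) volume x y := fun x y => hc.intervalIntegrable x y
  have hcP : ∀ j : ℕ, Continuous fun s => 4 * (4 ^ j : ℝ)⁻¹ * PG (a / (2 * 4 ^ j)) (k * s) := fun j =>
    continuous_const.mul (cont_PG hPP k (by positivity))
  have hiP : ∀ (j : ℕ) (x y : ℝ),
      IntervalIntegrable (fun s => 4 * (4 ^ j : ℝ)⁻¹ * PG (a / (2 * 4 ^ j)) (k * s)) volume x y :=
    fun j x y => (hcP j).intervalIntegrable x y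
  induction J with
  | zero =>
    simp only [zero_add, Finset.sum_range_one]
    unfold Bj
    rw [← intervalIntegral.integral_const_mul]
    apply intervalIntegral.integral_mono_on (by norm_num) (hi _ _) (hiP 0 _ _)
    intro s hs
    apply pt hPP k ha 0 s
    · simpa [abs_le] using hs
    · have := sq_nonneg s
      norm_num
      linarith
  | succ J ih =>
    rw [Finset.sum_range_succ]
    have hp : (0 : ℝ) < 2 ^ J := by positivity
    have hp2 : (2 : ℝ) ^ (J + 1) = 2 * 2 ^ J := by ring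
    have hsplit : ∫ s in (-(2 : ℝ) ^ (J + 1))..(2 ^ (J + 1)), ff a k s =
        (∫ s in (-(2 : ℝ) ^ (J + 1))..(-(2 : ℝ) ^ J), ff a k s) +
        (∫ s in (-(2 : ℝ) ^ J)..(2 ^ J), ff a k s) + ∫ s in ((2 : ℝ) ^ J)..(2 ^ (J + 1)), ff a k s := by
      rw [intervalIntegral.integral_add_adjacent_intervals (hi _ _) (hi _ _),
        intervalIntegral.integral_add_adjacent_intervals (hi _ _) (hi _ _)]
    set P : ℝ → ℝ := fun s => 4 * (4 ^ (J + 1) : ℝ)⁻¹ * PG (a / (2 * 4 ^ (J + 1))) (k * s) with hP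
    have hPi : ∀ x y : ℝ, IntervalIntegrable P volume x y := fun x y => hiP (J + 1) x y
    have hP0 : ∀ s, 0 ≤ P s := fun s => mul_nonneg (by positivity) (PG_nonneg _ _)
    have hsplitP : Bj a k (J + 1) =
        (∫ s in (-(2 : ℝ) ^ (J + 1))..(-(2 : ℝ) ^ J), P s) +
        (∫ s in (-(2 : ℝ) ^ J)..(2 ^ J), P s) + ∫ s in ((2 : ℝ) ^ J)..(2 ^ (J + 1)), P s := by
      rw [intervalIntegral.integral_add_adjacent_intervals (hPi _ _) (hPi _ _),
        intervalIntegral.integral_add_adjacent_intervals (hPi _ _) (hPi _ _)]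
      unfold Bj
      rw [← intervalIntegral.integral_const_mul]
    have hmid : 0 ≤ ∫ s in (-(2 : ℝ) ^ J)..(2 ^ J), P s :=
      intervalIntegral.integral_nonneg (by linarith) fun s _ => hP0 s
    have key : ∀ s : ℝ, |s| ≤ 2 ^ (J + 1) → 2 ^ J ≤ |s| → ff a k s ≤ P s := by
      intro s hs1 hs2
      apply pt hPP k ha (J + 1) s hs1
      have : (4 : ℝ) ^ J ≤ s ^ 2 := by
        rw [← four_pow, ← sq_abs s]
        gcongr
      rw [pow_succ]
      linarith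
    have hl : (∫ s in (-(2 : ℝ) ^ (J + 1))..(-(2 : ℝ) ^ J), ff a k s) ≤
        ∫ s in (-(2 : ℝ) ^ (J + 1))..(-(2 : ℝ) ^ J), P s := by
      apply intervalIntegral.integral_mono_on (by rw [hp2]; linarith) (hi _ _) (hPi _ _)
      intro s hs
      have hneg : s ≤ 0 := by linarith [hs.2]
      apply key s
      · rw [abs_of_nonpos hneg]; linarith [hs.1]
      · rw [abs_of_nonpos hneg]; linarith [hs.2]
    have hr : (∫ s in ((2 : ℝ) ^ J)..(2 ^ (J + 1)), ff a k s) ≤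
        ∫ s in ((2 : ℝ) ^ J)..(2 ^ (J + 1)), P s := by
      apply intervalIntegral.integral_mono_on (by rw [hp2]; linarith) (hi _ _) (hPi _ _)
      intro s hs
      have hneg : 0 ≤ s := by linarith [hs.1]
      apply key s
      · rw [abs_of_nonneg hneg]; exact hs.2
      · rw [abs_of_nonneg hneg]; exact hs.1
    linarith

/-- the integral over one block -/
lemma Bj_le (hPP : SpecPP) {rho w : ℝ} {q : ℕ} (hr : 0 < rho) (hw : 0 < w) (hq : 1 ≤ q) (j : ℕ) :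
    Bj (rho ^ 2 / (q : ℝ) ^ 2) (q * w / rho ^ 2) j ≤ 12 * ((q : ℝ) / rho) + 12 * (rho / w) * (1 / 2) ^ j := by
  have hq' : (0 : ℝ) < q := by exact_mod_cast hq
  set k : ℝ := q * w / rho ^ 2 with hk
  have hk0 : 0 < k := by positivity
  set g : ℝ := (rho ^ 2 / (q : ℝ) ^ 2) / (2 * 4 ^ j) with hg
  have hg0 : 0 < g := by positivity
  have hp : (0 : ℝ) < 2 ^ j := by positivity
  have h1 : ∫ s in (-(2 : ℝ) ^ j)..(2 ^ j), PG g (k * s) =
      k⁻¹ * ∫ x in (-(k * 2 ^ j))..(k * 2 ^ j), PG g x := by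
    rw [intervalIntegral.integral_comp_mul_left (fun x => PG g x) hk0.ne', smul_eq_mul]
    congr 2
    ring
  have h2 := hPP.2.2.1 g (k * 2 ^ j) hg0 (by positivity)
  have h3 : √(1 / g) = √2 * 2 ^ j * (q / rho) := by
    have h4 : 1 / g = (√2 * 2 ^ j * (q / rho)) ^ 2 := by
      rw [hg, mul_pow, mul_pow, Real.sq_sqrt (by norm_num), four_pow]
      field_simp
    rw [h4, Real.sqrt_sq (by positivity)]
  have hs2 : √2 ≤ 3 / 2 := by
    rw [Real.sqrt_le_left (by norm_num)]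
    norm_num
  unfold Bj
  rw [← hg, h1]
  calc 4 * (4 ^ j : ℝ)⁻¹ * (k⁻¹ * ∫ x in (-(k * 2 ^ j))..(k * 2 ^ j), PG g x)
      ≤ 4 * (4 ^ j : ℝ)⁻¹ * (k⁻¹ * ((2 * (k * 2 ^ j) + 2) * √(1 / g))) := by gcongr
    _ = √2 * (8 * (q / rho) + 8 * (rho / w) * (1 / 2) ^ j) := by
        rw [h3, ← four_pow, hk, one_div_pow]
        field_simp
        ring
    _ ≤ 3 / 2 * (8 * (q / rho) + 8 * (rho / w) * (1 / 2) ^ j) := by gcongr
    _ = _ := by ring

lemma sum_Bj (hPP : SpecPP) {rho w : ℝ} {q : ℕ} (hr : 0 < rho) (hw : 0 < w) (hq : 1 ≤ q) (J : ℕ) :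
    ∑ j ∈ Finset.range (J + 1), Bj (rho ^ 2 / (q : ℝ) ^ 2) (q * w / rho ^ 2) j ≤
      12 * (J + 1) * ((q : ℝ) / rho) + 24 * (rho / w) := by
  have h1 : ∑ j ∈ Finset.range (J + 1), (1 / 2 : ℝ) ^ j ≤ 2 := by
    have h2 := summable_geometric_two.sum_le_tsum (Finset.range (J + 1)) (fun i _ => by positivity)
    rwa [tsum_geometric_two] at h2
  have h2 : (0 : ℝ) < rho / w := by positivity
  calc ∑ j ∈ Finset.range (J + 1), Bj (rho ^ 2 / (q : ℝ) ^ 2) (q * w / rho ^ 2) j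
      ≤ ∑ j ∈ Finset.range (J + 1), (12 * ((q : ℝ) / rho) + 12 * (rho / w) * (1 / 2) ^ j) :=
        Finset.sum_le_sum fun j _ => Bj_le hPP hr hw hq j
    _ = 12 * (J + 1) * ((q : ℝ) / rho) + 12 * (rho / w) * ∑ j ∈ Finset.range (J + 1), (1 / 2 : ℝ) ^ j := by
        rw [Finset.sum_add_distrib, Finset.sum_const, Finset.card_range, nsmul_eq_mul, ← Finset.mul_sum]
        push_cast
        ring
    _ ≤ 12 * (J + 1) * ((q : ℝ) / rho) + 12 * (rho / w) * 2 := by gcongr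
    _ = _ := by ring

theorem specMI (hPP : SpecPP) : SpecMI := by
  intro rho w q S hr hw hq hS hS'
  have hr0 : 0 < rho := by linarith
  have hq' : (0 : ℝ) < q := by exact_mod_cast hq
  -- the exponent `J`
  obtain ⟨J, hJ1, hJ2⟩ : ∃ J : ℕ, S ≤ 2 ^ J ∧ ((J : ℝ) - 3) * Real.log 2 ≤ Real.log rho := by
    obtain ⟨n, hn1, hn2⟩ := exists_nat_pow_near hr (by norm_num : (1 : ℝ) < 2)
    refine ⟨n + 3, ?_, ?_⟩
    · have : (2 : ℝ) ^ (n + 3) = 4 * 2 ^ (n + 1) := by ring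
      rw [this]
      linarith
    · push_cast
      have h1 : Real.log ((2 : ℝ) ^ n) ≤ Real.log rho := Real.log_le_log (by positivity) hn1
      rw [Real.log_pow] at h1
      linarith
  have hpow : (0 : ℝ) < 2 ^ J := by positivity
  set a : ℝ := rho ^ 2 / (q : ℝ) ^ 2 with ha
  set k : ℝ := q * w / rho ^ 2 with hk
  have ha0 : 0 < a := by positivity
  have hc := cont_ff hPP k ha0
  have heq : ∫ s in (-S)..S, (1 + s ^ 2)⁻¹ * PG (rho ^ 2 / ((q : ℝ) ^ 2 * (1 + s ^ 2))) (s * q * w / rho ^ 2) =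
      ∫ s in (-S)..S, ff a k s := by
    apply intervalIntegral.integral_congr
    intro s _
    show (1 + s ^ 2)⁻¹ * PG (rho ^ 2 / ((q : ℝ) ^ 2 * (1 + s ^ 2))) (s * q * w / rho ^ 2) =
      (1 + s ^ 2)⁻¹ * PG (a / (1 + s ^ 2)) (k * s)
    have h1 : rho ^ 2 / ((q : ℝ) ^ 2 * (1 + s ^ 2)) = a / (1 + s ^ 2) := by
      rw [ha, div_div]
    have h2 : s * q * w / rho ^ 2 = k * s := by rw [hk]; ring
    rw [h1, h2]
  rw [heq]
  have hmono : ∫ s in (-S)..S, ff a k s ≤ ∫ s in (-(2 : ℝ) ^ J)..(2 ^ J), ff a k s := by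
    apply intervalIntegral.integral_mono_interval (by linarith) (by linarith) hJ1
    · exact Filter.Eventually.of_forall fun s => ff_nonneg a k s
    · exact hc.intervalIntegrable _ _
  refine hmono.trans ((blocks hPP k ha0 J).trans ((sum_Bj hPP hr0 hw hq J).trans ?_))
  have hlog : 0 ≤ Real.log rho := Real.log_nonneg hr
  have hl2 : 1 / 2 ≤ Real.log 2 := by linarith [Real.log_two_gt_d9]
  have hJb : (J : ℝ) + 1 ≤ 4 + 2 * Real.log rho := by
    by_cases h3 : (J : ℝ) ≤ 3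
    · linarith
    · push Not at h3
      have : ((J : ℝ) - 3) * (1 / 2) ≤ ((J : ℝ) - 3) * Real.log 2 := by gcongr
      linarith
  have h1 : (0 : ℝ) < q / rho := by positivity
  have h2 : (0 : ℝ) < rho / w := by positivity
  calc 12 * ((J : ℝ) + 1) * ((q : ℝ) / rho) + 24 * (rho / w)
      ≤ 12 * (4 + 2 * Real.log rho) * ((q : ℝ) / rho) + 24 * (rho / w) := by gcongr
    _ ≤ _ := by nlinarith [mul_nonneg h1.le hlog]

end Pool.Agent.Lib.MP_a8dae7_an.D4.MIM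
end

section
/-!
# MP_a8dae7_an, D4: module SB, the bound for the complete sums
-/
set_option autoImplicit false

namespace Pool.Agent.Lib.MP_a8dae7_an.D4.SBM

open Pool.Agent.Lib.MP_a8dae7_an.D4 Pool.Agent.Lib.MP_1446ad_nt.SM

/-- the trivial bound -/
theorem trivial_bound (hGA : SpecGA) (v : ℕ) [NeZero v] (A B C : ℤ) (b : Fin 4 → ℤ) (hA : Int.gcd A v = 1) :
    ‖Sc v A B C b‖ ≤ 4 * (v : ℝ) ^ 3 := by
  have hAu : IsUnit (A : ZMod v) := by
    rw [ZMod.coe_int_isUnit_iff_isCoprime]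
    exact (Int.isCoprime_iff_gcd_eq_one.mpr hA).symm
  obtain ⟨Au, hAu⟩ := hAu
  have hterm : ∀ x : (ZMod v)ˣ, ‖(∏ i, Gs v ((A : ZMod v) * (x : ZMod v)) (b i : ZMod v)) *
      ZMod.stdAddChar ((B : ZMod v) * (x : ZMod v) + (C : ZMod v) * ((x⁻¹ : (ZMod v)ˣ) : ZMod v))‖ ≤
      4 * (v : ℝ) ^ 2 := by
    intro x
    rw [norm_mul, AddChar.norm_apply, mul_one, norm_prod]
    have h1 : ∀ i, ‖Gs v ((A : ZMod v) * (x : ZMod v)) (b i : ZMod v)‖ ^ 2 ≤ 2 * v := by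
      intro i
      have := hGA v (Au * x) (b i : ZMod v)
      rw [Units.val_mul, hAu] at this
      exact this
    have h2 : (∏ i, ‖Gs v ((A : ZMod v) * (x : ZMod v)) (b i : ZMod v)‖) ^ 2 ≤ (4 * (v : ℝ) ^ 2) ^ 2 := by
      rw [← Finset.prod_pow]
      calc ∏ i, ‖Gs v ((A : ZMod v) * (x : ZMod v)) (b i : ZMod v)‖ ^ 2 ≤ ∏ _i : Fin 4, (2 * (v : ℝ)) :=
            Finset.prod_le_prod (fun i _ => sq_nonneg _) fun i _ => h1 i
        _ = (4 * (v : ℝ) ^ 2) ^ 2 := by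
            rw [Finset.prod_const, Finset.card_univ, Fintype.card_fin]; ring
    have h3 : (0 : ℝ) ≤ 4 * (v : ℝ) ^ 2 := by positivity
    exact (pow_le_pow_iff_left₀ (Finset.prod_nonneg fun i _ => norm_nonneg _) h3 (by norm_num)).mp h2
  have hcard : (Fintype.card (ZMod v)ˣ : ℝ) ≤ v := by
    rw [ZMod.card_units_eq_totient]
    exact_mod_cast Nat.totient_le v
  unfold Sc
  calc ‖∑ x : (ZMod v)ˣ, (∏ i, Gs v ((A : ZMod v) * (x : ZMod v)) (b i : ZMod v)) *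
      ZMod.stdAddChar ((B : ZMod v) * (x : ZMod v) + (C : ZMod v) * ((x⁻¹ : (ZMod v)ˣ) : ZMod v))‖
      ≤ ∑ _x : (ZMod v)ˣ, 4 * (v : ℝ) ^ 2 := (norm_sum_le _ _).trans (Finset.sum_le_sum fun x _ => hterm x)
    _ = (Fintype.card (ZMod v)ˣ : ℝ) * (4 * (v : ℝ) ^ 2) := by
        rw [Finset.sum_const, Finset.card_univ, nsmul_eq_mul]
    _ ≤ v * (4 * (v : ℝ) ^ 2) := mul_le_mul_of_nonneg_right hcard (by positivity)
    _ = 4 * (v : ℝ) ^ 3 := by ring

/-- the product bound for `q = u v`, `u` odd and squarefree -/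
theorem prod_bound (hGA : SpecGA) (hGM : SpecGM) (hGS : SpecGS) (q : ℕ) [NeZero q] (u v : ℕ) (hq : q = u * v)
    (hcop : Nat.Coprime u v) (hodd : Odd u) (hsq : Squarefree u) (A B C : ℤ) (b : Fin 4 → ℤ)
    (hA : Int.gcd A q = 1) :
    ‖Sc q A B C b‖ ≤ 4 * (q : ℝ) ^ 2 * (v * tau u * √(u : ℝ) * √(Int.gcd B u : ℝ)) := by
  subst hq
  have hne : u * v ≠ 0 := NeZero.ne _
  have hu : NeZero u := ⟨fun h => hne (by rw [h, zero_mul])⟩
  have hv : NeZero v := ⟨fun h => hne (by rw [h, mul_zero])⟩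
  obtain ⟨α, β, hα, hβ, heq⟩ := hGM u v hcop A B C b
  have hAn : Nat.Coprime A.natAbs (u * v) := by
    have := hA
    rw [Int.gcd_eq_natAbs, Int.natAbs_natCast] at this
    exact this
  have hAu : Int.gcd (A * v) u = 1 := by
    rw [Int.gcd_eq_natAbs, Int.natAbs_mul, Int.natAbs_natCast, Int.natAbs_natCast]
    exact Nat.Coprime.mul_left (Nat.Coprime.coprime_mul_right_right hAn) hcop.symm
  have hAv : Int.gcd (A * u) v = 1 := by
    rw [Int.gcd_eq_natAbs, Int.natAbs_mul, Int.natAbs_natCast, Int.natAbs_natCast]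
    exact Nat.Coprime.mul_left (Nat.Coprime.coprime_mul_left_right hAn) hcop
  have hgB : Int.gcd (α * B) u = Int.gcd B u := by
    have h1 : Nat.Coprime α.natAbs u := by
      have := hα
      rw [Int.gcd_eq_natAbs, Int.natAbs_natCast] at this
      exact this
    rw [Int.gcd_eq_natAbs, Int.gcd_eq_natAbs, Int.natAbs_mul, Int.natAbs_natCast]
    exact Nat.Coprime.gcd_mul_left_cancel _ h1
  rw [heq, norm_mul]
  have h1 := hGS u hodd hsq (A * v) (α * B) (α * C) b hAu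
  rw [hgB] at h1
  have h2 := trivial_bound hGA v (A * u) (β * B) (β * C) b hAv
  calc ‖Sc u (A * v) (α * B) (α * C) b‖ * ‖Sc v (A * u) (β * B) (β * C) b‖
      ≤ ((u : ℝ) ^ 2 * (tau u * √(u : ℝ) * √(Int.gcd B u : ℝ))) * (4 * (v : ℝ) ^ 3) :=
        mul_le_mul h1 h2 (norm_nonneg _) ((norm_nonneg _).trans h1)
    _ = 4 * ((u * v : ℕ) : ℝ) ^ 2 * (v * tau u * √(u : ℝ) * √(Int.gcd B u : ℝ)) := by
        push_cast; ring

theorem tau_nonneg (m : ℕ) : 0 ≤ tau m := by unfold tau; exact Nat.cast_nonneg _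

theorem tau_mono {m n : ℕ} (h : m ∣ n) (hn : n ≠ 0) : tau m ≤ tau n := by
  unfold tau
  exact_mod_cast Finset.card_le_card (Nat.divisors_subset_of_dvd hn h)

/-- comparison with the error term -/
theorem er_ge (q : ℕ) (hq : 0 < q) (B : ℤ) (u : ℕ) (hu : u ∣ uu q) (hU : uu q ∣ q) :
    2 * (tau u * √(u : ℝ) * (vv q : ℝ) * √(Int.gcd B u : ℝ)) ≤ er q B := by
  have hUpos : 0 < uu q := Nat.pos_of_dvd_of_pos hU hq
  have h1 : tau u ≤ tau q := tau_mono (hu.trans hU) hq.ne'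
  have h2 : 1 ≤ tau q := by
    unfold tau
    exact_mod_cast Finset.card_pos.mpr ⟨1, Nat.one_mem_divisors.mpr hq.ne'⟩
  have h3 : (1 : ℝ) ≤ 1 + Real.log q := by
    have : 0 ≤ Real.log q := Real.log_natCast_nonneg q
    linarith
  have h4 : tau u ≤ tau q ^ 2 * (1 + Real.log q) ^ 2 := by
    have h5 : (1 : ℝ) ≤ (1 + Real.log q) ^ 2 := one_le_pow₀ h3
    have h6 : tau q ≤ tau q ^ 2 := by nlinarith
    calc tau u ≤ tau q ^ 2 := h1.trans h6
      _ ≤ tau q ^ 2 * (1 + Real.log q) ^ 2 := le_mul_of_one_le_right (sq_nonneg _) h5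
  have h7 : √(u : ℝ) ≤ √(uu q : ℝ) := Real.sqrt_le_sqrt (by exact_mod_cast Nat.le_of_dvd hUpos hu)
  have h8 : √(Int.gcd B u : ℝ) ≤ √(Int.gcd B (uu q) : ℝ) := by
    refine Real.sqrt_le_sqrt ?_
    have h9 : Int.gcd B u ∣ Int.gcd B (uu q) := by
      rw [Int.gcd_eq_natAbs, Int.gcd_eq_natAbs, Int.natAbs_natCast, Int.natAbs_natCast]
      exact Nat.gcd_dvd_gcd_of_dvd_right _ hu
    have h10 : 0 < Int.gcd B (uu q) := by
      rw [Int.gcd_pos_iff]
      right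
      exact_mod_cast hUpos.ne'
    exact_mod_cast Nat.le_of_dvd h10 h9
  unfold er
  calc 2 * (tau u * √(u : ℝ) * (vv q : ℝ) * √(Int.gcd B u : ℝ))
      ≤ 2 * ((tau q ^ 2 * (1 + Real.log q) ^ 2) * √(uu q : ℝ) * (vv q : ℝ) * √(Int.gcd B (uu q) : ℝ)) := by
        have := tau_nonneg u
        gcongr
    _ = 2 * tau q ^ 2 * (1 + Real.log q) ^ 2 * √(uu q : ℝ) * (vv q : ℝ) * √(Int.gcd B (uu q) : ℝ) := by ring

theorem specSB (hGA : SpecGA) (hGM : SpecGM) (hGS : SpecGS) (hDEC : SpecDEC) : SpecSB := by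
  intro q _ A B C b hA
  have hq : 0 < q := Nat.pos_of_ne_zero (NeZero.ne q)
  obtain ⟨huv, hcop, hsq, -⟩ := hDEC q hq
  have hU : uu q ∣ q := Dvd.intro _ huv
  rcases Nat.even_or_odd (uu q) with heven | hodd
  · obtain ⟨u, hu⟩ := heven.two_dvd
    have hud : u ∣ uu q := Dvd.intro_left _ hu.symm
    have hsqu : Squarefree u := hsq.squarefree_of_dvd hud
    have hoddu : Odd u := by
      rw [← Nat.not_even_iff_odd]
      intro hev
      obtain ⟨w, hw⟩ := hev.two_dvd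
      have h1 : 2 * 2 ∣ uu q := ⟨w, by rw [hu, hw]; ring⟩
      have h2 := hsq 2 h1
      rw [Nat.isUnit_iff] at h2
      omega
    have hqe : q = u * (2 * vv q) := by
      calc q = uu q * vv q := huv.symm
        _ = u * (2 * vv q) := by rw [hu]; ring
    have hc : Nat.Coprime u (2 * vv q) :=
      Nat.Coprime.mul_right (Nat.coprime_two_right.mpr hoddu) (Nat.Coprime.coprime_dvd_left hud hcop)
    have h3 := prod_bound hGA hGM hGS q u (2 * vv q) hqe hc hoddu hsqu A B C b hA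
    have h4 := er_ge q hq B u hud hU
    have h5 : (((2 * vv q : ℕ) : ℝ)) * tau u * √(u : ℝ) * √(Int.gcd B u : ℝ) =
        2 * (tau u * √(u : ℝ) * (vv q : ℝ) * √(Int.gcd B u : ℝ)) := by push_cast; ring
    rw [h5] at h3
    exact h3.trans (mul_le_mul_of_nonneg_left h4 (by positivity))
  · have h3 := prod_bound hGA hGM hGS q (uu q) (vv q) huv.symm hcop hodd hsq A B C b hA
    have h4 := er_ge q hq B (uu q) dvd_rfl hU
    have h6 : 0 ≤ tau (uu q) * √(uu q : ℝ) * (vv q : ℝ) * √(Int.gcd B (uu q) : ℝ) := by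
      have := tau_nonneg (uu q)
      positivity
    have h5 : ((vv q : ℕ) : ℝ) * tau (uu q) * √(uu q : ℝ) * √(Int.gcd B (uu q) : ℝ) ≤
        2 * (tau (uu q) * √(uu q : ℝ) * (vv q : ℝ) * √(Int.gcd B (uu q) : ℝ)) := by
      have h7 : ((vv q : ℕ) : ℝ) * tau (uu q) * √(uu q : ℝ) * √(Int.gcd B (uu q) : ℝ) =
        tau (uu q) * √(uu q : ℝ) * (vv q : ℝ) * √(Int.gcd B (uu q) : ℝ) := by ring
      rw [h7]; linarith
    exact h3.trans (mul_le_mul_of_nonneg_left (h5.trans h4) (by positivity))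

end Pool.Agent.Lib.MP_a8dae7_an.D4.SBM
end

section
/-!
# MP_a8dae7_an, D4: module SS, the Schur sum
-/
set_option autoImplicit false

namespace Pool.Agent.Lib.MP_a8dae7_an.D4.SSM

open Pool.Agent.Lib.MP_a8dae7_an.CV Pool.Agent.Lib.MP_a8dae7_an.D4

lemma norm_zv_sq (n : Fin 4 → ℤ) : ‖zv n‖ ^ 2 = ((∑ i, n i ^ 2 : ℤ) : ℝ) := by
  rw [EuclideanSpace.norm_sq_eq]
  push_cast
  refine Finset.sum_congr rfl fun i _ => ?_
  simp [zv]

lemma norm_sub_sq (n m : Fin 4 → ℤ) :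
    ‖zv n - zv m‖ ^ 2 = ∑ i, ((m i : ℝ) - n i) ^ 2 := by
  rw [EuclideanSpace.norm_sq_eq]
  refine Finset.sum_congr rfl fun i _ => ?_
  simp only [zv, PiLp.sub_apply, Real.norm_eq_abs, sq_abs]
  ring

lemma one_le_dist (n m : Fin 4 → ℤ) (h : m ≠ n) : 1 ≤ ‖zv n - zv m‖ := by
  have h0 : 0 ≤ ‖zv n - zv m‖ := norm_nonneg _
  have h1 : (1 : ℝ) ≤ ‖zv n - zv m‖ ^ 2 := by
    rw [norm_sub_sq]
    have h2 : (1 : ℤ) ≤ ∑ i, (m i - n i) ^ 2 := by
      by_contra hc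
      push Not at hc
      have h3 : ∑ i, (m i - n i) ^ 2 = 0 :=
        le_antisymm (by omega) (Finset.sum_nonneg fun i _ => sq_nonneg _)
      rw [Finset.sum_eq_zero_iff_of_nonneg (fun i _ => sq_nonneg _)] at h3
      apply h
      funext i
      have := h3 i (Finset.mem_univ i)
      have h4 : m i - n i = 0 := by simpa using this
      omega
    exact_mod_cast h2
  nlinarith

/-- the dyadic shell of a real number `D ≥ 1` -/
noncomputable def lv (D : ℝ) : ℕ := Nat.log 2 ⌊D⌋₊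

lemma pow_lv_le {D : ℝ} (h : 1 ≤ D) : (2 : ℝ) ^ lv D ≤ D := by
  have h1 : ⌊D⌋₊ ≠ 0 := by
    have := Nat.le_floor (n := 1) (by simpa using h : ((1 : ℕ) : ℝ) ≤ D)
    omega
  have h2 : 2 ^ Nat.log 2 ⌊D⌋₊ ≤ ⌊D⌋₊ := Nat.pow_log_le_self 2 h1
  calc (2 : ℝ) ^ lv D = ((2 ^ Nat.log 2 ⌊D⌋₊ : ℕ) : ℝ) := by simp [lv]
    _ ≤ (⌊D⌋₊ : ℝ) := by exact_mod_cast h2
    _ ≤ D := Nat.floor_le (by linarith)

lemma lt_pow_lv (D : ℝ) : D < (2 : ℝ) ^ (lv D + 1) := by
  have h2 : ⌊D⌋₊ < 2 ^ (Nat.log 2 ⌊D⌋₊ + 1) := Nat.lt_pow_succ_log_self (by norm_num) _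
  have h3 : ⌊D⌋₊ + 1 ≤ 2 ^ (Nat.log 2 ⌊D⌋₊ + 1) := h2
  calc D < (⌊D⌋₊ : ℝ) + 1 := Nat.lt_floor_add_one D
    _ ≤ (((2 : ℕ) ^ (Nat.log 2 ⌊D⌋₊ + 1) : ℕ) : ℝ) := by exact_mod_cast h3
    _ = (2 : ℝ) ^ (lv D + 1) := by simp [lv]

lemma lv_mono {D D' : ℝ} (h : D ≤ D') : lv D ≤ lv D' :=
  Nat.log_mono_right (Nat.floor_mono h)

/-- one shell, in numbers -/
lemma shell_num (x lam A K : ℝ) (hx : 1 ≤ x) (hl : 1 ≤ lam) (hxl : x ≤ 2 * lam ^ (2 / 3 : ℝ))
    (hA : 0 ≤ A) (hK : K ≤ A * ((2 * x) ^ 3 / lam + (2 * x) ^ (3 / 2 : ℝ))) :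
    K * x ^ (-(3 / 2) : ℝ) ≤ 27 * A := by
  have hx0 : 0 < x := by linarith
  have hl0 : 0 < lam := by linarith
  have h15 : (2 : ℝ) ^ (3 / 2 : ℝ) ≤ 3 := by
    have h : ((2 : ℝ) ^ (3 / 2 : ℝ)) ^ (2 : ℕ) = 8 := by
      rw [← Real.rpow_natCast, ← Real.rpow_mul (by norm_num)]
      norm_num
    have h0 : 0 ≤ (2 : ℝ) ^ (3 / 2 : ℝ) := by positivity
    nlinarith
  have hxx : x ^ (3 / 2 : ℝ) ≤ 3 * lam := by
    calc x ^ (3 / 2 : ℝ) ≤ (2 * lam ^ (2 / 3 : ℝ)) ^ (3 / 2 : ℝ) :=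
          Real.rpow_le_rpow hx0.le hxl (by norm_num)
      _ = (2 : ℝ) ^ (3 / 2 : ℝ) * lam := by
          rw [Real.mul_rpow (by norm_num) (by positivity), ← Real.rpow_mul hl0.le]
          norm_num
      _ ≤ 3 * lam := mul_le_mul_of_nonneg_right h15 hl0.le
  have hp : 0 < x ^ (-(3 / 2) : ℝ) := by positivity
  have e1 : (2 * x) ^ 3 / lam * x ^ (-(3 / 2) : ℝ) = 8 * x ^ (3 / 2 : ℝ) / lam := by
    have : x ^ (3 : ℕ) * x ^ (-(3 / 2) : ℝ) = x ^ (3 / 2 : ℝ) := by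
      rw [← Real.rpow_natCast, ← Real.rpow_add hx0]
      norm_num
    rw [mul_pow]
    calc 2 ^ 3 * x ^ 3 / lam * x ^ (-(3 / 2) : ℝ) = 8 * (x ^ (3 : ℕ) * x ^ (-(3 / 2) : ℝ)) / lam := by ring
      _ = 8 * x ^ (3 / 2 : ℝ) / lam := by rw [this]
  have e2 : (2 * x) ^ (3 / 2 : ℝ) * x ^ (-(3 / 2) : ℝ) = (2 : ℝ) ^ (3 / 2 : ℝ) := by
    rw [Real.mul_rpow (by norm_num) hx0.le, mul_assoc, ← Real.rpow_add hx0]
    norm_num
  calc K * x ^ (-(3 / 2) : ℝ)
      ≤ A * ((2 * x) ^ 3 / lam + (2 * x) ^ (3 / 2 : ℝ)) * x ^ (-(3 / 2) : ℝ) :=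
        mul_le_mul_of_nonneg_right hK hp.le
    _ = A * (8 * x ^ (3 / 2 : ℝ) / lam + (2 : ℝ) ^ (3 / 2 : ℝ)) := by
        rw [mul_assoc, add_mul, e1, e2]
    _ ≤ A * 27 := by
        apply mul_le_mul_of_nonneg_left _ hA
        have : 8 * x ^ (3 / 2 : ℝ) / lam ≤ 24 := by
          rw [div_le_iff₀ hl0]
          linarith
        linarith
    _ = 27 * A := by ring

/-- the number of shells -/
lemma shells (lam eps : ℝ) (hl : 1 ≤ lam) (he : 0 < eps) :
    ((lv (2 * lam ^ (2 / 3 : ℝ)) + 1 : ℕ) : ℝ) ≤ (2 + 4 / (eps * Real.log 2)) * lam ^ (eps / 4) := by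
  have hl0 : 0 < lam := by linarith
  have hlog2 : 0 < Real.log 2 := Real.log_pos (by norm_num)
  have hp1 : 1 ≤ lam ^ (2 / 3 : ℝ) := Real.one_le_rpow hl (by norm_num)
  have h1 : (2 : ℝ) ^ lv (2 * lam ^ (2 / 3 : ℝ)) ≤ 2 * lam ^ (2 / 3 : ℝ) := pow_lv_le (by linarith)
  have h2 : lam ^ (2 / 3 : ℝ) ≤ lam := by
    calc lam ^ (2 / 3 : ℝ) ≤ lam ^ (1 : ℝ) := Real.rpow_le_rpow_of_exponent_le hl (by norm_num)
      _ = lam := Real.rpow_one lam
  have h3 : (lv (2 * lam ^ (2 / 3 : ℝ)) : ℝ) * Real.log 2 ≤ Real.log 2 + Real.log lam := by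
    have := Real.log_le_log (by positivity) (h1.trans (mul_le_mul_of_nonneg_left h2 (by norm_num)))
    rwa [Real.log_pow, Real.log_mul (by norm_num) hl0.ne'] at this
  have h4 : Real.log lam ≤ lam ^ (eps / 4) / (eps / 4) := Real.log_le_rpow_div hl0.le (by positivity)
  have h5 : 1 ≤ lam ^ (eps / 4) := Real.one_le_rpow hl (by positivity)
  have h6 : (lv (2 * lam ^ (2 / 3 : ℝ)) : ℝ) ≤ 1 + 4 / (eps * Real.log 2) * lam ^ (eps / 4) := by
    have h7 : (lv (2 * lam ^ (2 / 3 : ℝ)) : ℝ) ≤ (Real.log 2 + lam ^ (eps / 4) / (eps / 4)) / Real.log 2 := by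
      rw [le_div_iff₀ hlog2]
      linarith
    calc _ ≤ _ := h7
      _ = 1 + 4 / (eps * Real.log 2) * lam ^ (eps / 4) := by
        field_simp
  push_cast
  nlinarith

theorem specSS (hCC : SpecCC) : SpecSS := by
  intro eps heps
  obtain ⟨C, hC, H⟩ := hCC (eps / 8) (by positivity)
  have hlog2 : 0 < Real.log 2 := Real.log_pos (by norm_num)
  refine ⟨27 * C * (2 + 4 / (eps * Real.log 2)), by positivity, ?_⟩
  intro lam s hlam hs n hn hD
  have hl0 : 0 < lam := by linarith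
  set N : ℕ := (∑ i, n i ^ 2).toNat with hN
  have hnn : (0 : ℤ) ≤ ∑ i, n i ^ 2 := Finset.sum_nonneg fun i _ => sq_nonneg _
  have hNz : (N : ℤ) = ∑ i, n i ^ 2 := Int.toNat_of_nonneg hnn
  have hNR : (N : ℝ) = lam ^ 2 := by
    have := norm_zv_sq n
    rw [hs n hn, ← hNz] at this
    exact_mod_cast this.symm
  have hsqrt : √(N : ℝ) = lam := by rw [hNR]; exact Real.sqrt_sq hl0.le
  have hN1 : 1 ≤ N := by
    have : (1 : ℝ) ≤ (N : ℝ) := by rw [hNR]; nlinarith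
    exact_mod_cast this
  have hNe : (N : ℝ) ^ (eps / 8) = lam ^ (eps / 4) := by
    rw [hNR, ← Real.rpow_natCast, ← Real.rpow_mul hl0.le]
    congr 1
    push_cast
    ring
  have hp1 : 1 ≤ lam ^ (2 / 3 : ℝ) := Real.one_le_rpow hlam (by norm_num)
  have hp2 : lam ^ (2 / 3 : ℝ) ≤ lam := by
    calc lam ^ (2 / 3 : ℝ) ≤ lam ^ (1 : ℝ) := Real.rpow_le_rpow_of_exponent_le hlam (by norm_num)
      _ = lam := Real.rpow_one lam
  have hmaps : ∀ n' ∈ s.erase n, lv ‖zv n - zv n'‖ ∈ Finset.range (lv (2 * lam ^ (2 / 3 : ℝ)) + 1) := by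
    intro n' hn'
    rw [Finset.mem_range, Nat.lt_succ_iff]
    exact lv_mono (hD n' (Finset.mem_of_mem_erase hn'))
  rw [← Finset.sum_fiberwise_of_maps_to hmaps]
  have hfib : ∀ j ∈ Finset.range (lv (2 * lam ^ (2 / 3 : ℝ)) + 1),
      ∑ n' ∈ (s.erase n).filter (fun n' => lv ‖zv n - zv n'‖ = j), ‖zv n - zv n'‖ ^ (-(3 / 2) : ℝ) ≤
        27 * (C * lam ^ (eps / 4)) := by
    intro j hj
    set t := (s.erase n).filter (fun n' => lv ‖zv n - zv n'‖ = j) with ht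
    have hx : (2 : ℝ) ^ j ≤ 2 * lam ^ (2 / 3 : ℝ) := by
      have hj' : j ≤ lv (2 * lam ^ (2 / 3 : ℝ)) := Nat.lt_succ_iff.mp (Finset.mem_range.mp hj)
      calc (2 : ℝ) ^ j ≤ 2 ^ lv (2 * lam ^ (2 / 3 : ℝ)) := pow_le_pow_right₀ (by norm_num) hj'
        _ ≤ _ := pow_lv_le (by linarith)
    have hx1 : (1 : ℝ) ≤ 2 ^ j := one_le_pow₀ (by norm_num)
    have hcard : (t.card : ℝ) ≤ C * lam ^ (eps / 4) *
        ((2 * 2 ^ j) ^ 3 / lam + (2 * 2 ^ j) ^ (3 / 2 : ℝ)) := by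
      have := H N n (2 * 2 ^ j) hN1 hNz.symm (by linarith) (by rw [hsqrt]; linarith) t ?_
      · rwa [hNe, hsqrt] at this
      · intro n' hn'
        rw [ht, Finset.mem_filter] at hn'
        have hm := Finset.mem_of_mem_erase hn'.1
        constructor
        · have h1 := norm_zv_sq n'
          rw [hs n' hm, ← hNR] at h1
          exact_mod_cast h1.symm
        · rw [← norm_sub_sq]
          have h2 : ‖zv n - zv n'‖ ≤ 2 * 2 ^ j := by
            have := (lt_pow_lv ‖zv n - zv n'‖).le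
            rw [hn'.2, pow_succ] at this
            linarith
          exact pow_le_pow_left₀ (norm_nonneg _) h2 2
    calc ∑ n' ∈ t, ‖zv n - zv n'‖ ^ (-(3 / 2) : ℝ) ≤ ∑ n' ∈ t, ((2 : ℝ) ^ j) ^ (-(3 / 2) : ℝ) := by
          refine Finset.sum_le_sum fun n' hn' => ?_
          rw [ht, Finset.mem_filter] at hn'
          have h1 : 1 ≤ ‖zv n - zv n'‖ := one_le_dist n n' (Finset.ne_of_mem_erase hn'.1)
          have h2 : (2 : ℝ) ^ j ≤ ‖zv n - zv n'‖ := by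
            have := pow_lv_le h1
            rwa [hn'.2] at this
          exact Real.rpow_le_rpow_of_nonpos (by positivity) h2 (by norm_num)
      _ = (t.card : ℝ) * ((2 : ℝ) ^ j) ^ (-(3 / 2) : ℝ) := by
          rw [Finset.sum_const, nsmul_eq_mul]
      _ ≤ 27 * (C * lam ^ (eps / 4)) :=
          shell_num _ lam _ _ hx1 hlam hx (by positivity) hcard
  calc _ ≤ ∑ _j ∈ Finset.range (lv (2 * lam ^ (2 / 3 : ℝ)) + 1), 27 * (C * lam ^ (eps / 4)) :=
        Finset.sum_le_sum hfib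
    _ = ((lv (2 * lam ^ (2 / 3 : ℝ)) + 1 : ℕ) : ℝ) * (27 * (C * lam ^ (eps / 4))) := by
        rw [Finset.sum_const, Finset.card_range, nsmul_eq_mul]
    _ ≤ (2 + 4 / (eps * Real.log 2)) * lam ^ (eps / 4) * (27 * (C * lam ^ (eps / 4))) :=
        mul_le_mul_of_nonneg_right (shells lam eps hlam heps) (by positivity)
    _ = 27 * C * (2 + 4 / (eps * Real.log 2)) * (lam ^ (eps / 4) * lam ^ (eps / 4)) := by ring
    _ ≤ 27 * C * (2 + 4 / (eps * Real.log 2)) * lam ^ eps := by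
        apply mul_le_mul_of_nonneg_left _ (by positivity)
        rw [← Real.rpow_add hl0]
        exact Real.rpow_le_rpow_of_exponent_le hlam (by linarith)

end Pool.Agent.Lib.MP_a8dae7_an.D4.SSM
end
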