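import Pool.Agent.Lib.MP_a8dae7_an.D4.Spec
import Pool.Agent.Lib.MP_391708_nt.Div

section
/-!
# MP_a8dae7_an, D4: module AR, from bounds for the incomplete sums to the integral (helper25)
-/
set_option autoImplicit false

open MeasureTheory

namespace Pool.Agent.Lib.MP_a8dae7_an.D4.ARM

open Pool.Agent.Lib.MP_a8dae7_an.D4

/-- one half of the arcs of denominator `q` -/
theorem one {q Q : ℕ} (hq : 1 ≤ q) (hqQ : q ≤ Q) {f : ℕ → ℝ → ℂ} (hf : ∀ x, Continuous (f x))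
    {B : ℝ → ℝ} (hB : Continuous B)
    (h : ∀ (b : ℕ) (be : ℝ), b ≤ Q → 0 ≤ be → be ≤ 1 / ((q : ℝ) * Q) →
      ‖∑ x ∈ (Finset.Ioc (Q - q) b).filter (fun x => Nat.Coprime x q), f x be‖ ≤ B be) :
    ‖∑ x ∈ (Finset.Ioc (Q - q) Q).filter (fun x => Nat.Coprime x q),
      ∫ be in (0 : ℝ)..(1 / ((q : ℝ) * (q + x))), f x be‖ ≤
      ∫ be in (0 : ℝ)..(1 / ((q : ℝ) * Q)), B be := by
  classical
  have hq0 : (0 : ℝ) < q := by exact_mod_cast hq
  have hQ0 : (0 : ℝ) < Q := by exact_mod_cast (hq.trans hqQ)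
  have h1 : ∀ x ∈ (Finset.Ioc (Q - q) Q).filter (fun x => Nat.Coprime x q),
      ∫ be in (0 : ℝ)..(1 / ((q : ℝ) * (q + x))), f x be =
        ∫ be in Set.Ioc (0 : ℝ) (1 / ((q : ℝ) * Q)),
          (Set.Iic (1 / ((q : ℝ) * (q + x)))).indicator (f x) be := by
    intro x hx
    rw [Finset.mem_filter, Finset.mem_Ioc] at hx
    have hx1 : (Q : ℝ) ≤ q + x := by
      have : Q ≤ q + x := by omega
      exact_mod_cast this
    rw [intervalIntegral.integral_of_le (by positivity), setIntegral_indicator measurableSet_Iic,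
      Set.Ioc_inter_Iic, min_eq_right]
    exact one_div_le_one_div_of_le (by positivity) (mul_le_mul_of_nonneg_left hx1 hq0.le)
  rw [Finset.sum_congr rfl h1, ← integral_finset_sum]
  · rw [intervalIntegral.integral_of_le (by positivity)]
    refine norm_integral_le_of_norm_le hB.integrableOn_Ioc
      (ae_restrict_of_forall_mem measurableSet_Ioc fun be hbe => ?_)
    have hbe0 := hbe.1
    have e1 : ∑ x ∈ (Finset.Ioc (Q - q) Q).filter (fun x => Nat.Coprime x q),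
        (Set.Iic (1 / ((q : ℝ) * (q + x)))).indicator (f x) be =
        ∑ x ∈ (Finset.Ioc (Q - q) (min Q ⌊1 / ((q : ℝ) * be) - q⌋₊)).filter
          (fun x => Nat.Coprime x q), f x be := by
      simp only [Set.indicator_apply, Set.mem_Iic]
      rw [← Finset.sum_filter]
      refine Finset.sum_congr ?_ fun _ _ => rfl
      ext x
      simp only [Finset.mem_filter, Finset.mem_Ioc, le_min_iff]
      have key : 1 ≤ x → (be ≤ 1 / ((q : ℝ) * (q + x)) ↔ x ≤ ⌊1 / ((q : ℝ) * be) - q⌋₊) := by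
        intro hx
        rw [Nat.le_floor_iff' (by omega), le_sub_iff_add_le, le_div_iff₀ (by positivity),
          le_div_iff₀ (by positivity)]
        have e2 : be * ((q : ℝ) * (q + x)) = (x + q) * (q * be) := by ring
        rw [e2]
      constructor
      · rintro ⟨⟨⟨h2, h3⟩, h4⟩, h5⟩
        exact ⟨⟨h2, h3, (key (by omega)).1 h5⟩, h4⟩
      · rintro ⟨⟨h2, h3, h5⟩, h4⟩
        exact ⟨⟨⟨h2, h3⟩, h4⟩, (key (by omega)).2 h5⟩
    rw [e1]
    exact h _ be (min_le_left _ _) hbe0.le hbe.2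
  · intro x _
    exact ((hf x).integrableOn_Ioc).indicator measurableSet_Iic

end Pool.Agent.Lib.MP_a8dae7_an.D4.ARM

namespace Pool.Agent.Lib.MP_a8dae7_an.D4.ARM

open Pool.Agent.Lib.MP_a8dae7_an.D4

theorem specAR (hFA : SpecFA) : SpecAR := by
  intro H Q Bd hH hper hQ hBd h
  rw [hFA H hH hper Q hQ]
  refine (norm_sum_le _ _).trans (Finset.sum_le_sum fun q hq => ?_)
  rw [Finset.mem_Icc] at hq
  obtain ⟨hq1, hqQ⟩ := hq
  have hc := hBd q hq1 hqQ
  have hQq : Q ≤ Q - q + q := by omega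
  have h1 := one hq1 hqQ (f := fun x be => H (-(iv q x / q) + be))
    (fun x => hH.comp (by fun_prop)) hc
    fun b be hb hb0 hb1 => (h q (Q - q) b be hq1 hqQ (hb.trans hQq) hb0 hb1).1
  have h2 := one hq1 hqQ (f := fun x be => H (iv q x / q - be))
    (fun x => hH.comp (by fun_prop)) (B := fun be => Bd q (-be)) (hc.comp continuous_neg)
    fun b be hb hb0 hb1 => (h q (Q - q) b be hq1 hqQ (hb.trans hQq) hb0 hb1).2
  rw [intervalIntegral.integral_comp_neg, neg_zero] at h2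
  rw [Finset.sum_add_distrib, ← intervalIntegral.integral_add_adjacent_intervals
    (hc.intervalIntegrable _ 0) (hc.intervalIntegrable 0 _)]
  refine (norm_add_le _ _).trans ?_
  rw [add_comm]
  exact add_le_add h2 h1

end Pool.Agent.Lib.MP_a8dae7_an.D4.ARM
end

section
/-!
# MP_a8dae7_an, D4: module CC, lattice points in caps of the 3-sphere
-/
set_option autoImplicit false

open MeasureTheory

namespace Pool.Agent.Lib.MP_a8dae7_an.D4.CCM

open Pool.Agent.Lib.MP_a8dae7_an.CV Pool.Agent.Lib.MP_1446ad_nt.SM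

/-- the common bound `T` for divisors and logarithms -/
theorem T_bound (d : ℝ) (hd : 0 < d) : ∃ C : ℝ, 1 ≤ C ∧ ∀ N : ℕ, 1 ≤ N →
    ∀ m : ℕ, 0 < m → m ≤ 8 * N → tau m ≤ C * (N : ℝ) ^ d ∧ 1 + Real.log m ≤ C * (N : ℝ) ^ d := by
  obtain ⟨C0, hC0, hdiv⟩ := Pool.Agent.Lib.MP_391708_nt.Div.card_divisors_le_rpow d hd
  refine ⟨(|C0| + 1 + 1 / d) * 8 ^ d, ?_, ?_⟩
  · have h1 : (1 : ℝ) ≤ 8 ^ d := Real.one_le_rpow (by norm_num) hd.le
    have h2 : 0 < 1 / d := by positivity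
    have h3 := abs_nonneg C0
    nlinarith
  · intro N hN m hm hm8
    have hN0 : (0 : ℝ) < N := by exact_mod_cast hN
    have hm0 : (0 : ℝ) < m := by exact_mod_cast hm
    have hm1 : (1 : ℝ) ≤ m := by exact_mod_cast hm
    have hmN : (m : ℝ) ≤ 8 * N := by exact_mod_cast hm8
    have e1 : (m : ℝ) ^ d ≤ 8 ^ d * (N : ℝ) ^ d := by
      rw [← Real.mul_rpow (by norm_num) hN0.le]
      exact Real.rpow_le_rpow hm0.le hmN hd.le
    have e2 : (1 : ℝ) ≤ (m : ℝ) ^ d := Real.one_le_rpow hm1 hd.le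
    have e3 : Real.log m ≤ (m : ℝ) ^ d / d := Real.log_le_rpow_div hm0.le hd
    have e4 : tau m ≤ C0 * (m : ℝ) ^ d := hdiv m hm
    have h2 : 0 < 1 / d := by positivity
    have h3 := abs_nonneg C0
    have h4 := le_abs_self C0
    have h5 : (0:ℝ) < (m : ℝ) ^ d := by positivity
    have h6 : (|C0| + 1 + 1 / d) * (m : ℝ) ^ d ≤ (|C0| + 1 + 1 / d) * 8 ^ d * (N : ℝ) ^ d := by
      rw [mul_assoc]
      exact mul_le_mul_of_nonneg_left e1 (by positivity)
    constructor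
    · refine le_trans ?_ h6
      refine e4.trans ?_
      apply mul_le_mul_of_nonneg_right _ h5.le
      linarith
    · refine le_trans ?_ h6
      have : (m : ℝ) ^ d / d = 1 / d * (m : ℝ) ^ d := by ring
      nlinarith

theorem specCC (hJC : SpecJC) (hAR : SpecAR) (hKF : SpecKF) (hMB : SpecMB) (hWP : SpecWP) (hPSM : SpecPSM) :
    SpecCC := by
  intro eps heps
  obtain ⟨C1, hC1, hT⟩ := T_bound (eps / 9) (by positivity)
  obtain ⟨C2, hC2, hM⟩ := hMB
  refine ⟨Real.exp Real.pi * (160 * C2 * C1 ^ 9), by positivity, ?_⟩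
  intro N c rho hN hc hrho1 hrho4 s hs
  have hN0 : (0 : ℝ) < N := by exact_mod_cast hN
  have hN1 : (1 : ℝ) ≤ N := by exact_mod_cast hN
  set lam : ℝ := √(N : ℝ) with hlam
  have hlam0 : 0 < lam := Real.sqrt_pos.2 hN0
  have hlam1 : 1 ≤ lam := by rw [hlam]; exact Real.one_le_sqrt.2 hN1
  have hlam2 : lam ^ 2 = N := Real.sq_sqrt hN0.le
  have hlamN : lam ≤ N := by nlinarith
  have hrho0 : 0 < rho := by linarith
  set Q : ℕ := ⌊rho⌋₊ with hQ
  have hQ1 : 1 ≤ Q := by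
    rw [hQ]; exact (Nat.one_le_floor_iff rho).2 hrho1
  have hQle : (Q : ℝ) ≤ rho := Nat.floor_le hrho0.le
  have hQlt : rho < Q + 1 := Nat.lt_floor_add_one rho
  have hQ1' : (1 : ℝ) ≤ Q := by exact_mod_cast hQ1
  have hrQ : rho ≤ 2 * Q := by linarith
  have h2Q8 : 2 * Q ≤ 8 * N := by
    have : (2 * Q : ℝ) ≤ 8 * N := by nlinarith
    exact_mod_cast this
  set T : ℝ := C1 * (N : ℝ) ^ (eps / 9) with hTd
  have hTm : ∀ m : ℕ, 0 < m → m ≤ 2 * Q → tau m ≤ T ∧ 1 + Real.log m ≤ T :=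
    fun m hm hm2 => hT N hN m hm (hm2.trans h2Q8)
  have hT1 : 1 ≤ T := by
    have := (hTm 1 (by norm_num) (by omega)).2
    simpa using this
  have hTN : tau ((N : ℤ)).natAbs ≤ T := by
    rw [Int.natAbs_natCast]
    exact (hT N hN N (by omega) (by omega)).1
  obtain ⟨hS2, hS1⟩ := hPSM T Q (N : ℤ) hQ1 (by exact_mod_cast (by omega : N ≠ 0)) hTm hTN
  obtain ⟨hHc, hHp, hHs⟩ := hJC rho c N hrho0
  have hcount := hHs s hs
  -- the bound
  set Bd : ℕ → ℝ → ℝ := fun q be => (2 + Real.log q) * (4 * er q N / (q : ℝ) ^ 2) * ∑' d : Fin 4 → ℤ, W4 rho c q be d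
    with hBd
  have hAR' := hAR (H4 rho c N) Q Bd hHc hHp hQ1
    (fun q hq1 _ => continuous_const.mul (hWP rho c q hrho0 hq1).2)
    (fun q a b be hq1 hqQ hba _ _ => hKF rho c N q a b be hrho0 hq1 hba)
  have hc' : ∑ i, (c i : ℝ) ^ 2 = lam ^ 2 := by
    rw [hlam2]; exact_mod_cast hc
  have her : ∀ q : ℕ, 0 ≤ er q (N : ℤ) ∨ q = 0 := by
    intro q
    rcases Nat.eq_zero_or_pos q with h | h
    · exact Or.inr h
    · left
      have h1 : (1 : ℝ) ≤ q := by exact_mod_cast h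
      have h2 : 0 ≤ Real.log q := Real.log_nonneg h1
      unfold er tau
      positivity
  have hterm : ∀ q ∈ Finset.Icc 1 Q, ∫ be in (-(1 / ((q : ℝ) * Q)))..(1 / ((q : ℝ) * Q)), Bd q be ≤
      8 * C2 * T * (rho ^ 3 / lam) * (er q N / (q : ℝ) ^ 2) + 8 * C2 * T ^ 2 * rho * (er q N / (q : ℝ)) := by
    intro q hq
    obtain ⟨hq1, hqQ⟩ := Finset.mem_Icc.1 hq
    have hq0 : (0 : ℝ) < q := by exact_mod_cast hq1
    have hq1' : (1 : ℝ) ≤ q := by exact_mod_cast hq1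
    have hlog : 0 ≤ Real.log q := Real.log_nonneg hq1'
    have hI := hM rho lam c q Q hrho1 hlam0 hc' hq1 hqQ hQle hrQ
    rw [hBd]
    rw [intervalIntegral.integral_const_mul]
    have hlr : 1 + Real.log rho ≤ T := by
      have h := (hTm (2 * Q) (by omega) le_rfl).2
      have h3 : Real.log rho ≤ Real.log ((2 * Q : ℕ) : ℝ) := by
        apply Real.log_le_log hrho0
        push_cast; exact hrQ
      linarith
    have hlq : 2 + Real.log q ≤ 2 * T := by
      have h := (hTm q hq1 (by omega)).2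
      linarith
    have her0 : 0 ≤ er q (N : ℤ) := by
      rcases her q with h | h
      · exact h
      · omega
    have hI2 : ∫ be in (-(1 / ((q : ℝ) * Q)))..(1 / ((q : ℝ) * Q)), ∑' d : Fin 4 → ℤ, W4 rho c q be d ≤
        C2 * (rho ^ 3 / lam + q * rho * T) := by
      refine hI.trans ?_
      apply mul_le_mul_of_nonneg_left _ hC2.le
      gcongr
    calc (2 + Real.log q) * (4 * er q N / (q : ℝ) ^ 2) *
          ∫ be in (-(1 / ((q : ℝ) * Q)))..(1 / ((q : ℝ) * Q)), ∑' d : Fin 4 → ℤ, W4 rho c q be d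
        ≤ (2 + Real.log q) * (4 * er q N / (q : ℝ) ^ 2) * (C2 * (rho ^ 3 / lam + q * rho * T)) := by
          apply mul_le_mul_of_nonneg_left hI2
          positivity
      _ ≤ (2 * T) * (4 * er q N / (q : ℝ) ^ 2) * (C2 * (rho ^ 3 / lam + q * rho * T)) := by
          apply mul_le_mul_of_nonneg_right _ (by positivity)
          apply mul_le_mul_of_nonneg_right hlq (by positivity)
      _ = _ := by
          field_simp
          ring
  have hsum : ‖∫ t in (0 : ℝ)..1, H4 rho c N t‖ ≤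
      8 * C2 * T * (rho ^ 3 / lam) * (20 * T ^ 7) + 8 * C2 * T ^ 2 * rho * (20 * T ^ 7 * √(Q : ℝ)) := by
    refine hAR'.trans ?_
    refine (Finset.sum_le_sum hterm).trans ?_
    rw [Finset.sum_add_distrib, ← Finset.mul_sum, ← Finset.mul_sum]
    have hIcc : Finset.Icc 1 Q = Finset.Ioc 0 Q := by
      ext x; simp [Finset.mem_Icc, Finset.mem_Ioc, Nat.succ_le_iff]
    rw [hIcc]
    gcongr
  have hsq : rho * √(Q : ℝ) ≤ rho ^ (3 / 2 : ℝ) := by
    have h1 : √(Q : ℝ) ≤ √rho := Real.sqrt_le_sqrt hQle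
    have h2 : rho ^ (3 / 2 : ℝ) = rho * √rho := by
      rw [Real.sqrt_eq_rpow, show (3 / 2 : ℝ) = 1 + 1 / 2 by norm_num, Real.rpow_add hrho0, Real.rpow_one]
    rw [h2]
    gcongr
  have hT9 : T ^ 9 = C1 ^ 9 * (N : ℝ) ^ eps := by
    rw [hTd, mul_pow, ← Real.rpow_natCast ((N : ℝ) ^ (eps / 9)) 9, ← Real.rpow_mul hN0.le]
    congr 2
    push_cast; ring
  have hfin : ‖∫ t in (0 : ℝ)..1, H4 rho c N t‖ ≤
      160 * C2 * C1 ^ 9 * ((N : ℝ) ^ eps * (rho ^ 3 / lam + rho ^ (3 / 2 : ℝ))) := by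
    refine hsum.trans ?_
    have hT8 : T ^ 8 ≤ T ^ 9 := pow_le_pow_right₀ hT1 (by norm_num)
    have hr3 : 0 ≤ rho ^ 3 / lam := by positivity
    calc 8 * C2 * T * (rho ^ 3 / lam) * (20 * T ^ 7) + 8 * C2 * T ^ 2 * rho * (20 * T ^ 7 * √(Q : ℝ))
        = 160 * C2 * (T ^ 8 * (rho ^ 3 / lam) + T ^ 9 * (rho * √(Q : ℝ))) := by ring
      _ ≤ 160 * C2 * (T ^ 9 * (rho ^ 3 / lam) + T ^ 9 * (rho ^ (3 / 2 : ℝ))) := by
          gcongr
      _ = _ := by rw [hT9]; ring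
  have he : Real.exp (-Real.pi) * Real.exp Real.pi = 1 := by
    rw [← Real.exp_add]; simp
  calc (s.card : ℝ) = ((s.card : ℝ) * Real.exp (-Real.pi)) * Real.exp Real.pi := by
        rw [mul_assoc, he, mul_one]
    _ ≤ (160 * C2 * C1 ^ 9 * ((N : ℝ) ^ eps * (rho ^ 3 / lam + rho ^ (3 / 2 : ℝ)))) * Real.exp Real.pi := by
        apply mul_le_mul_of_nonneg_right _ (Real.exp_pos _).le
        exact hcount.trans hfin
    _ = _ := by ring

end Pool.Agent.Lib.MP_a8dae7_an.D4.CCM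
end

section
/-!
# MP_a8dae7_an, D4, module CH: the inequality on a nondegenerate chart

The reduction RD1 to cubes of side `lam^(2/3 - e')`, and SH on each cube.
-/
set_option autoImplicit false

open MeasureTheory
open scoped ContDiff

namespace Pool.Agent.Lib.MP_a8dae7_an.D4.CHM

open Pool.Agent.Lib.MP_a8dae7_an.CV

/-- two lattice points of the same cube of side `l` have distance at most `2 l` (dimension 4) -/
theorem cube_dist {l : ℝ} (hl : 0 < l) {n n' : Fin 4 → ℤ} (h : cb l n = cb l n') :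
    ‖zv n - zv n'‖ ≤ 2 * l := by
  have hco : ∀ i, ((n i : ℝ) - n' i) ^ 2 ≤ l ^ 2 := by
    intro i
    have h1 : ⌊(n i : ℝ) / l⌋ = ⌊(n' i : ℝ) / l⌋ := congrFun h i
    have h2 := Int.abs_sub_lt_one_of_floor_eq_floor h1
    have h3 : |(n i : ℝ) - n' i| < l := by
      have h4 : (n i : ℝ) - n' i = ((n i : ℝ) / l - (n' i : ℝ) / l) * l := by
        field_simp
      rw [h4, abs_mul, abs_of_pos hl]
      calc |(n i : ℝ) / l - (n' i : ℝ) / l| * l < 1 * l := by
            exact mul_lt_mul_of_pos_right h2 hl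
        _ = l := one_mul l
    have h5 := pow_le_pow_left₀ (abs_nonneg _) h3.le 2
    rwa [sq_abs] at h5
  rw [EuclideanSpace.norm_eq]
  have hsum : ∑ i, ‖(zv n - zv n') i‖ ^ 2 ≤ (2 * l) ^ 2 := by
    calc ∑ i, ‖(zv n - zv n') i‖ ^ 2 = ∑ i : Fin 4, ((n i : ℝ) - n' i) ^ 2 := by
          refine Finset.sum_congr rfl fun i _ => ?_
          rw [Real.norm_eq_abs, sq_abs]
          rfl
      _ ≤ ∑ _i : Fin 4, l ^ 2 := Finset.sum_le_sum fun i _ => hco i
      _ = (2 * l) ^ 2 := by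
          rw [Finset.sum_const, Finset.card_univ, Fintype.card_fin]
          ring
  calc √(∑ i, ‖(zv n - zv n') i‖ ^ 2) ≤ √((2 * l) ^ 2) := Real.sqrt_le_sqrt hsum
    _ = 2 * l := Real.sqrt_sq (by positivity)

theorem specCH (hRD1 : CG.SpecRD1) (hSH : SpecSH) : SpecCH := by
  intro ch c1 hND eps heps
  obtain ⟨K, hK, hRD⟩ := hRD1 3 ch
  obtain ⟨e, he0, he1, he2⟩ : ∃ e : ℝ, 0 < e ∧ e ≤ 1 / 10 ∧ K * e ≤ eps / 2 := by
    refine ⟨min (1 / 10) (eps / (2 * K)), lt_min (by norm_num) (by positivity), min_le_left _ _, ?_⟩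
    calc K * min (1 / 10) (eps / (2 * K)) ≤ K * (eps / (2 * K)) :=
          mul_le_mul_of_nonneg_left (min_le_right _ _) hK.le
      _ = eps / 2 := by field_simp
  obtain ⟨C1, hC1, h1⟩ := hRD e he0 he1
  obtain ⟨C2, hC2, h2⟩ := hSH ch c1 hND (eps / 2) (by positivity)
  refine ⟨C1 * C2 + C1, by positivity, fun lam s a hlam hs => ?_⟩
  have hlam0 : 0 < lam := by linarith
  set l : ℝ := lam ^ (2 / 3 - e) with hl
  have hl0 : 0 < l := Real.rpow_pos_of_pos hlam0 _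
  have hll : l ≤ lam ^ (2 / 3 : ℝ) := Real.rpow_le_rpow_of_exponent_le hlam (by linarith)
  set S : ℝ := ∑ n ∈ s, ‖a n‖ ^ 2 with hSdef
  have hS0 : 0 ≤ S := Finset.sum_nonneg fun n _ => by positivity
  -- each cube
  have hcube : ∀ c ∈ s.image (cb l), ∫ q in Metric.closedBall (0 : EE 3) (3 / 2 * ch.dl),
      ‖es (s.filter fun n => cb l n = c) a (ch.X q)‖ ^ 2 ≤
      C2 * lam ^ (eps / 2) * ∑ n ∈ s.filter (fun n => cb l n = c), ‖a n‖ ^ 2 := by
    intro c _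
    refine h2 lam _ a hlam (fun n hn => hs n (Finset.mem_filter.1 hn).1) ?_
    intro n hn n' hn'
    have h3 : cb l n = cb l n' := by
      rw [(Finset.mem_filter.1 hn).2, (Finset.mem_filter.1 hn').2]
    calc ‖zv n - zv n'‖ ≤ 2 * l := cube_dist hl0 h3
      _ ≤ 2 * lam ^ (2 / 3 : ℝ) := by linarith
  have hsum : ∑ c ∈ s.image (cb l), ∑ n ∈ s.filter (fun n => cb l n = c), ‖a n‖ ^ 2 = S :=
    Finset.sum_fiberwise_of_maps_to (fun n hn => Finset.mem_image_of_mem _ hn) _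
  have hall : ∑ c ∈ s.image (cb l), ∫ q in Metric.closedBall (0 : EE 3) (3 / 2 * ch.dl),
      ‖es (s.filter fun n => cb l n = c) a (ch.X q)‖ ^ 2 ≤ C2 * lam ^ (eps / 2) * S := by
    calc _ ≤ ∑ c ∈ s.image (cb l), C2 * lam ^ (eps / 2) *
          ∑ n ∈ s.filter (fun n => cb l n = c), ‖a n‖ ^ 2 := Finset.sum_le_sum hcube
      _ = C2 * lam ^ (eps / 2) * S := by rw [← Finset.mul_sum, hsum]
  have hp1 : lam ^ (K * e) ≤ lam ^ (eps / 2) := Real.rpow_le_rpow_of_exponent_le hlam he2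
  have hp2 : lam ^ (eps / 2) * lam ^ (eps / 2) = lam ^ eps := by
    rw [← Real.rpow_add hlam0]
    ring_nf
  have hp3 : 1 ≤ lam ^ eps := Real.one_le_rpow hlam heps.le
  have hq0 : 0 ≤ lam ^ (eps / 2) := Real.rpow_nonneg hlam0.le _
  calc _ ≤ C1 * lam ^ (K * e) * (∑ c ∈ s.image (cb l),
        ∫ q in Metric.closedBall (0 : EE 3) (3 / 2 * ch.dl),
          ‖es (s.filter fun n => cb l n = c) a (ch.X q)‖ ^ 2) + C1 * S := h1 lam s a hlam hs
    _ ≤ C1 * lam ^ (eps / 2) * (C2 * lam ^ (eps / 2) * S) + C1 * S := by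
        have h5 : 0 ≤ C2 * lam ^ (eps / 2) * S := by positivity
        have h6 : C1 * lam ^ (K * e) ≤ C1 * lam ^ (eps / 2) := mul_le_mul_of_nonneg_left hp1 hC1.le
        have h7 : 0 ≤ C1 * lam ^ (K * e) := mul_nonneg hC1.le (Real.rpow_nonneg hlam0.le _)
        have h8 := mul_le_mul h6 hall (Finset.sum_nonneg fun c _ =>
          integral_nonneg fun q => by positivity) (by positivity)
        linarith
    _ = C1 * C2 * lam ^ eps * S + C1 * S := by rw [← hp2]; ring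
    _ ≤ C1 * C2 * lam ^ eps * S + C1 * (lam ^ eps * S) := by
        have h9 : S ≤ lam ^ eps * S := le_mul_of_one_le_left hS0 hp3
        have h10 := mul_le_mul_of_nonneg_left h9 hC1.le
        linarith
    _ = (C1 * C2 + C1) * lam ^ eps * S := by ring

end Pool.Agent.Lib.MP_a8dae7_an.D4.CHM
end

section
/-!
# D4/DI: a scaled integral
-/
set_option autoImplicit false

open MeasureTheory

namespace Pool.Agent.Lib.MP_a8dae7_an.D4.DIM

open Pool.Agent.Lib.MP_a8dae7_an.CV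

/-- the model function -/
noncomputable def gg (k : ℕ) (x : EE k) : ℝ := min 1 ((‖x‖)⁻¹ ^ (k + 1))

theorem gg_nonneg (k : ℕ) (x : EE k) : 0 ≤ gg k x := by
  unfold gg
  positivity

theorem gg_le (k : ℕ) (x : EE k) : gg k x ≤ 2 ^ (k + 1) * (1 + ‖x‖) ^ (-((k : ℝ) + 1)) := by
  have h0 : 0 ≤ ‖x‖ := norm_nonneg x
  have h1 : (0 : ℝ) < 1 + ‖x‖ := by linarith
  have e1 : (1 + ‖x‖) ^ (-((k : ℝ) + 1)) = ((1 + ‖x‖) ^ (k + 1))⁻¹ := by
    rw [Real.rpow_neg h1.le]
    congr 1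
    exact_mod_cast Real.rpow_natCast (1 + ‖x‖) (k + 1)
  have hp : (0 : ℝ) < (1 + ‖x‖) ^ (k + 1) := by positivity
  rw [e1, ← div_eq_mul_inv, le_div_iff₀ hp]
  unfold gg
  rcases le_total ‖x‖ 1 with h | h
  · calc min 1 ((‖x‖)⁻¹ ^ (k + 1)) * (1 + ‖x‖) ^ (k + 1) ≤ 1 * (1 + ‖x‖) ^ (k + 1) :=
          mul_le_mul_of_nonneg_right (min_le_left _ _) hp.le
      _ = (1 + ‖x‖) ^ (k + 1) := one_mul _
      _ ≤ 2 ^ (k + 1) := pow_le_pow_left₀ h1.le (by linarith) _
  · have hx : 0 < ‖x‖ := by linarith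
    calc min 1 ((‖x‖)⁻¹ ^ (k + 1)) * (1 + ‖x‖) ^ (k + 1)
        ≤ (‖x‖)⁻¹ ^ (k + 1) * (1 + ‖x‖) ^ (k + 1) :=
          mul_le_mul_of_nonneg_right (min_le_right _ _) hp.le
      _ = ((‖x‖)⁻¹ * (1 + ‖x‖)) ^ (k + 1) := by rw [mul_pow]
      _ ≤ 2 ^ (k + 1) := by
          apply pow_le_pow_left₀ (by positivity)
          rw [inv_mul_eq_div, div_le_iff₀ hx]
          linarith

theorem gg_meas (k : ℕ) : Measurable (gg k) := by
  unfold gg
  fun_prop

theorem gg_int (k : ℕ) : Integrable (gg k) := by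
  have h1 : Integrable (fun x : EE k => (1 + ‖x‖) ^ (-((k : ℝ) + 1))) := by
    apply integrable_one_add_norm
    rw [finrank_euclideanSpace, Fintype.card_fin]
    linarith
  refine (h1.const_mul (2 ^ (k + 1))).mono' (gg_meas k).aestronglyMeasurable
    (Filter.Eventually.of_forall fun x => ?_)
  rw [Real.norm_eq_abs, abs_of_nonneg (gg_nonneg k x)]
  exact gg_le k x

theorem eq_gg (k : ℕ) {a : ℝ} (ha : 0 < a) (qs : EE k) :
    (fun q : EE k => min 1 ((a * ‖q - qs‖)⁻¹ ^ (k + 1))) = fun q => gg k (a • (q - qs)) := by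
  funext q
  unfold gg
  rw [norm_smul, Real.norm_eq_abs, abs_of_pos ha]

end Pool.Agent.Lib.MP_a8dae7_an.D4.DIM

namespace Pool.Agent.Lib.MP_a8dae7_an.D4

open DIM Pool.Agent.Lib.MP_a8dae7_an.CV

theorem specDI : SpecDI := by
  intro k
  have hnn : 0 ≤ ∫ x : EE k, gg k x := integral_nonneg (gg_nonneg k)
  refine ⟨(∫ x : EE k, gg k x) + 1, by linarith, fun a qs ha => ?_⟩
  rw [eq_gg k ha qs]
  constructor
  · exact ((gg_int k).comp_smul ha.ne').comp_sub_right qs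
  · have h1 : ∫ q : EE k, gg k (a • (q - qs)) = ∫ q : EE k, gg k (a • q) :=
      integral_sub_right_eq_self (fun q : EE k => gg k (a • q)) qs
    rw [h1, Measure.integral_comp_smul, finrank_euclideanSpace, Fintype.card_fin, smul_eq_mul,
      abs_of_pos (by positivity), mul_comm, ← inv_pow]
    apply mul_le_mul_of_nonneg_right _ (by positivity)
    linarith

end Pool.Agent.Lib.MP_a8dae7_an.D4
end

section
/-!
# Module FA: the Farey dissection
-/
set_option autoImplicit false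

open MeasureTheory

namespace Pool.Agent.Lib.MP_a8dae7_an.D4.FAM

open Pool.Agent.Lib.MP_a8dae7_an.D4

/-! ## Pairs of denominators -/

/-- the pairs of denominators of neighbours in the Farey sequence of order `Q` -/
def P (Q : ℕ) : Finset (ℕ × ℕ) :=
  ((Finset.Icc 1 Q) ×ˢ (Finset.Icc 1 Q)).filter fun z => Q < z.1 + z.2 ∧ Nat.Coprime z.2 z.1

theorem mem_P {Q : ℕ} {z : ℕ × ℕ} : z ∈ P Q ↔
    (1 ≤ z.1 ∧ z.1 ≤ Q) ∧ (1 ≤ z.2 ∧ z.2 ≤ Q) ∧ Q < z.1 + z.2 ∧ Nat.Coprime z.2 z.1 := by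
  simp only [P, Finset.mem_filter, Finset.mem_product, Finset.mem_Icc, and_assoc]

theorem P_succ {Q : ℕ} (hQ : 1 ≤ Q) : P (Q + 1) =
    ((P Q).filter (fun z => Q + 1 < z.1 + z.2) ∪
      ((P Q).filter (fun z => z.1 + z.2 = Q + 1)).image (fun z => (z.1, Q + 1))) ∪
      ((P Q).filter (fun z => z.1 + z.2 = Q + 1)).image (fun z => (Q + 1, z.2)) := by
  ext ⟨q, x⟩
  simp only [Finset.mem_union, Finset.mem_filter, Finset.mem_image, mem_P, Prod.mk.injEq,
    Prod.exists]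
  constructor
  · rintro ⟨⟨h1, h2⟩, ⟨h3, h4⟩, h5, h6⟩
    by_cases hx : x = Q + 1
    · subst hx
      have hq : q ≤ Q := by
        by_contra hcon
        have : q = Q + 1 := by omega
        subst this
        rw [Nat.coprime_self] at h6
        omega
      refine Or.inl (Or.inr ⟨q, Q + 1 - q, ⟨⟨⟨h1, hq⟩, ⟨by omega, by omega⟩, by omega, ?_⟩,
        by omega⟩, rfl, rfl⟩)
      exact (Nat.coprime_sub_self_left (by omega)).2 h6
    · by_cases hq : q = Q + 1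
      · subst hq
        refine Or.inr ⟨Q + 1 - x, x, ⟨⟨⟨by omega, by omega⟩, ⟨h3, by omega⟩, by omega, ?_⟩,
          by omega⟩, rfl, rfl⟩
        exact (Nat.coprime_sub_self_right (by omega)).2 h6
      · exact Or.inl (Or.inl ⟨⟨⟨h1, by omega⟩, ⟨h3, by omega⟩, by omega, h6⟩, h5⟩)
  · rintro ((⟨⟨⟨h1, h2⟩, ⟨h3, h4⟩, h5, h6⟩, h7⟩ | ⟨a, b, ⟨⟨⟨h1, h2⟩, ⟨h3, h4⟩, h5, h6⟩, h7⟩, rfl, rfl⟩) |
      ⟨a, b, ⟨⟨⟨h1, h2⟩, ⟨h3, h4⟩, h5, h6⟩, h7⟩, rfl, rfl⟩)
    · exact ⟨⟨h1, by omega⟩, ⟨h3, by omega⟩, h7, h6⟩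
    · refine ⟨⟨h1, by omega⟩, ⟨by omega, le_rfl⟩, by omega, ?_⟩
      rw [← h7, add_comm]
      simpa using h6
    · refine ⟨⟨by omega, le_rfl⟩, ⟨h3, by omega⟩, by omega, ?_⟩
      rw [← h7]
      simpa using h6

theorem sum_P_succ {f : ℕ → ℕ → ℂ}
    (hf : ∀ q x, 1 ≤ q → 1 ≤ x → Nat.Coprime x q → f q x = f q (q + x) + f (q + x) x)
    {Q : ℕ} (hQ : 1 ≤ Q) : ∑ z ∈ P (Q + 1), f z.1 z.2 = ∑ z ∈ P Q, f z.1 z.2 := by
  have hD : ∀ z ∈ (P Q).filter (fun z => z.1 + z.2 = Q + 1),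
      (1 ≤ z.1 ∧ z.1 ≤ Q) ∧ (1 ≤ z.2 ∧ z.2 ≤ Q) ∧ Nat.Coprime z.2 z.1 ∧ z.1 + z.2 = Q + 1 := by
    intro z hz
    obtain ⟨h1, h2⟩ := Finset.mem_filter.1 hz
    obtain ⟨h3, h4, h5, h6⟩ := mem_P.1 h1
    exact ⟨h3, h4, h6, h2⟩
  have hi1 : Set.InjOn (fun z : ℕ × ℕ => (z.1, Q + 1))
      ((P Q).filter (fun z => z.1 + z.2 = Q + 1)) := by
    intro z hz w hw h
    have h1 := (hD z hz).2.2.2
    have h2 := (hD w hw).2.2.2
    have h3 : z.1 = w.1 := (Prod.mk.inj h).1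
    exact Prod.ext h3 (by omega)
  have hi2 : Set.InjOn (fun z : ℕ × ℕ => (Q + 1, z.2))
      ((P Q).filter (fun z => z.1 + z.2 = Q + 1)) := by
    intro z hz w hw h
    have h1 := (hD z hz).2.2.2
    have h2 := (hD w hw).2.2.2
    have h3 : z.2 = w.2 := (Prod.mk.inj h).2
    exact Prod.ext (by omega) h3
  rw [P_succ hQ, Finset.sum_union, Finset.sum_union, Finset.sum_image hi1, Finset.sum_image hi2,
    ← Finset.sum_filter_add_sum_filter_not (P Q) (fun z => Q + 1 < z.1 + z.2), add_assoc]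
  · congr 1
    rw [← Finset.sum_add_distrib]
    have he : (P Q).filter (fun z => ¬ Q + 1 < z.1 + z.2) =
        (P Q).filter (fun z => z.1 + z.2 = Q + 1) := by
      refine Finset.filter_congr fun z hz => ?_
      have := (mem_P.1 hz).2.2.1
      omega
    rw [he]
    refine Finset.sum_congr rfl fun z hz => ?_
    obtain ⟨h1, h2, h3, h4⟩ := hD z hz
    rw [hf z.1 z.2 h1.1 h2.1 h3, h4]
  · rw [Finset.disjoint_left]
    intro z hz hz'
    obtain ⟨w, hw, rfl⟩ := Finset.mem_image.1 hz'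
    have h1 := (mem_P.1 (Finset.mem_filter.1 hz).1).2.1.2
    simp only at h1
    omega
  · rw [Finset.disjoint_left]
    intro z hz hz'
    obtain ⟨w, hw, rfl⟩ := Finset.mem_image.1 hz'
    obtain ⟨h1, h2, h3, h4⟩ := hD w hw
    rcases Finset.mem_union.1 hz with h | h
    · have h5 := (mem_P.1 (Finset.mem_filter.1 h).1).1.2
      simp only at h5
      omega
    · obtain ⟨v, hv, h5⟩ := Finset.mem_image.1 h
      have h6 := (hD v hv).1.2
      have h7 : v.1 = Q + 1 := (Prod.mk.inj h5).1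
      omega

theorem sum_P {f : ℕ → ℕ → ℂ}
    (hf : ∀ q x, 1 ≤ q → 1 ≤ x → Nat.Coprime x q → f q x = f q (q + x) + f (q + x) x)
    {Q : ℕ} (hQ : 1 ≤ Q) : ∑ z ∈ P Q, f z.1 z.2 = f 1 1 := by
  induction Q, hQ using Nat.le_induction with
  | base =>
    have : P 1 = {(1, 1)} := by decide
    rw [this, Finset.sum_singleton]
  | succ Q hQ ih => rw [sum_P_succ hf hQ, ih]

theorem sum_P_swap (g : ℕ → ℕ → ℂ) (Q : ℕ) :
    ∑ z ∈ P Q, g z.2 z.1 = ∑ z ∈ P Q, g z.1 z.2 := by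
  refine Finset.sum_nbij' Prod.swap Prod.swap ?_ ?_ (fun _ _ => rfl) (fun _ _ => rfl)
    (fun _ _ => rfl)
  · intro z hz
    obtain ⟨h1, h2, h3, h4⟩ := mem_P.1 hz
    exact mem_P.2 ⟨h2, h1, by simp only [Prod.fst_swap, Prod.snd_swap]; omega, h4.symm⟩
  · intro z hz
    obtain ⟨h1, h2, h3, h4⟩ := mem_P.1 hz
    exact mem_P.2 ⟨h2, h1, by simp only [Prod.fst_swap, Prod.snd_swap]; omega, h4.symm⟩

theorem sum_P_eq (g : ℕ → ℕ → ℂ) (Q : ℕ) : ∑ z ∈ P Q, g z.1 z.2 =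
    ∑ q ∈ Finset.Icc 1 Q,
      ∑ x ∈ (Finset.Ioc (Q - q) Q).filter (fun x => Nat.Coprime x q), g q x := by
  rw [P, Finset.sum_filter, Finset.sum_product]
  refine Finset.sum_congr rfl fun q hq => ?_
  rw [← Finset.sum_filter]
  refine Finset.sum_congr ?_ fun _ _ => rfl
  ext x
  simp only [Finset.mem_filter, Finset.mem_Icc, Finset.mem_Ioc] at hq ⊢
  constructor
  · rintro ⟨h1, h2, h3⟩
    exact ⟨⟨by omega, by omega⟩, h3⟩
  · rintro ⟨h1, h2⟩
    exact ⟨⟨by omega, by omega⟩, by omega, h2⟩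

/-! ## The inverse -/

theorem dvd_iv {q x : ℕ} (hq : 1 ≤ q) (h : Nat.Coprime x q) :
    ∃ a : ℕ, iv q x = (a : ℝ) ∧ (q : ℤ) ∣ 1 - a * x := by
  have : NeZero q := ⟨by omega⟩
  refine ⟨((x : ZMod q)⁻¹).val, rfl, ?_⟩
  rw [← ZMod.intCast_zmod_eq_zero_iff_dvd]
  push_cast
  rw [ZMod.natCast_zmod_val, mul_comm, ZMod.coe_mul_inv_eq_one x h, sub_self]

theorem per {H : ℝ → ℂ} (hH : ∀ t, H (t + 1) = H t) {s t : ℝ} (k : ℤ) (h : s = t + k) :
    H s = H t := by
  have h1 : Function.Periodic H 1 := hH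
  have h2 := (h1.int_mul k) t
  rw [mul_one] at h2
  rw [h, h2]

/-! ## The integrals -/

theorem cut {H : ℝ → ℂ} (hc : Continuous H) (hH : ∀ t, H (t + 1) = H t) {q x : ℕ} (hq : 1 ≤ q)
    (hx : 1 ≤ x) (h : Nat.Coprime x q) :
    ∫ be in (0 : ℝ)..(1 / ((q : ℝ) * x)), H (-(iv q x / q) + be) =
      (∫ be in (0 : ℝ)..(1 / ((q : ℝ) * ((q + x : ℕ) : ℝ))), H (-(iv q (q + x) / q) + be)) +
      ∫ be in (0 : ℝ)..(1 / (((q + x : ℕ) : ℝ) * x)),
        H (-(iv (q + x) x / ((q + x : ℕ) : ℝ)) + be) := by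
  have hq0 : (q : ℝ) ≠ 0 := by positivity
  have hx0 : (x : ℝ) ≠ 0 := by positivity
  have hqx0 : (q : ℝ) + x ≠ 0 := by positivity
  have e1 : iv q (q + x) = iv q x := by
    unfold iv
    rw [Nat.cast_add, ZMod.natCast_self, zero_add]
  obtain ⟨a, ha, hda⟩ := dvd_iv hq h
  obtain ⟨b, hb, hdb⟩ := dvd_iv (q := q + x) (x := x) (by omega) (by simpa using h)
  have hdvd : ((q : ℤ) * ((q + x : ℕ) : ℤ)) ∣ 1 - a * (q + x : ℤ) + b * q := by
    refine IsCoprime.mul_dvd ?_ ?_ ?_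
    · rw [Nat.isCoprime_iff_coprime]
      simpa [Nat.coprime_comm] using h
    · have : (1 : ℤ) - a * (q + x) + b * q = (1 - a * x) + q * (b - a) := by ring
      rw [this]
      exact dvd_add hda (dvd_mul_right _ _)
    · have : (1 : ℤ) - a * (q + x) + b * q = (1 - b * x) + ((q + x : ℕ) : ℤ) * (b - a) := by
        push_cast
        ring
      rw [this]
      exact dvd_add hdb (dvd_mul_right _ _)
  obtain ⟨k, hk⟩ := hdvd
  have hk' : (1 : ℝ) - a * (q + x) + b * q = q * (q + x) * k := by exact_mod_cast hk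
  have hG : Continuous fun be : ℝ => H (-(iv q x / q) + be) :=
    hc.comp (continuous_const.add continuous_id)
  have hi : ∀ s t : ℝ, IntervalIntegrable (fun be : ℝ => H (-(iv q x / q) + be)) volume s t :=
    fun s t => hG.intervalIntegrable s t
  rw [e1, ← intervalIntegral.integral_add_adjacent_intervals (hi 0 (1 / ((q : ℝ) * ((q + x : ℕ) : ℝ))))
    (hi _ (1 / ((q : ℝ) * x)))]
  congr 1
  have h2 := intervalIntegral.integral_comp_add_left (a := 0) (b := 1 / (((q + x : ℕ) : ℝ) * x))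
    (fun be : ℝ => H (-(iv q x / q) + be)) (1 / ((q : ℝ) * ((q + x : ℕ) : ℝ)))
  have e2 : 1 / ((q : ℝ) * ((q + x : ℕ) : ℝ)) + 1 / (((q + x : ℕ) : ℝ) * x) =
      1 / ((q : ℝ) * x) := by
    push_cast
    field_simp
    try ring
  rw [add_zero, e2] at h2
  rw [← h2]
  refine intervalIntegral.integral_congr fun be _ => ?_
  refine per hH k ?_
  rw [ha, hb]
  push_cast
  field_simp
  linear_combination hk'

theorem halves {H : ℝ → ℂ} (hc : Continuous H) (hH : ∀ t, H (t + 1) = H t) {q x : ℕ}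
    (hq : 1 ≤ q) (hx : 1 ≤ x) (h : Nat.Coprime x q) :
    ∫ be in (0 : ℝ)..(1 / ((q : ℝ) * x)), H (-(iv q x / q) + be) =
      (∫ be in (0 : ℝ)..(1 / ((q : ℝ) * (q + x))), H (-(iv q x / q) + be)) +
      ∫ be in (0 : ℝ)..(1 / ((x : ℝ) * (x + q))), H (iv x q / x - be) := by
  have hq0 : (q : ℝ) ≠ 0 := by positivity
  have hx0 : (x : ℝ) ≠ 0 := by positivity
  have hqx0 : (q : ℝ) + x ≠ 0 := by positivity
  obtain ⟨a, ha, hda⟩ := dvd_iv hq h
  obtain ⟨b, hb, hdb⟩ := dvd_iv hx h.symm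
  have hdvd : ((q : ℤ) * x) ∣ 1 - a * x - b * q := by
    refine IsCoprime.mul_dvd ?_ ?_ ?_
    · rw [Nat.isCoprime_iff_coprime]
      exact h.symm
    · exact dvd_sub hda (dvd_mul_left _ _)
    · have : (1 : ℤ) - a * x - b * q = (1 - b * q) - a * x := by ring
      rw [this]
      exact dvd_sub hdb (dvd_mul_left _ _)
  obtain ⟨k, hk⟩ := hdvd
  have hk' : (1 : ℝ) - a * x - b * q = q * x * k := by exact_mod_cast hk
  have hG : Continuous fun be : ℝ => H (-(iv q x / q) + be) :=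
    hc.comp (continuous_const.add continuous_id)
  have hi : ∀ s t : ℝ, IntervalIntegrable (fun be : ℝ => H (-(iv q x / q) + be)) volume s t :=
    fun s t => hG.intervalIntegrable s t
  rw [← intervalIntegral.integral_add_adjacent_intervals (hi 0 (1 / ((q : ℝ) * (q + x))))
    (hi _ (1 / ((q : ℝ) * x)))]
  congr 1
  have h2 := intervalIntegral.integral_comp_sub_left (a := 0) (b := 1 / ((x : ℝ) * (x + q)))
    (fun be : ℝ => H (-(iv q x / q) + be)) (1 / ((q : ℝ) * x))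
  have e2 : 1 / ((q : ℝ) * x) - 1 / ((x : ℝ) * (x + q)) = 1 / ((q : ℝ) * (q + x)) := by
    have : (x : ℝ) + q ≠ 0 := by positivity
    field_simp
    try ring
  rw [sub_zero, e2] at h2
  rw [← h2]
  refine intervalIntegral.integral_congr fun be _ => ?_
  refine per hH k ?_
  rw [ha, hb]
  field_simp
  linear_combination hk'

theorem specFA : SpecFA := by
  intro H hc hH Q hQ
  have h1 : ∑ z ∈ P Q, (∫ be in (0 : ℝ)..(1 / ((z.1 : ℝ) * (z.2 : ℝ))),
      H (-(iv z.1 z.2 / z.1) + be)) = ∫ be in (0 : ℝ)..1, H be := by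
    rw [sum_P (f := fun q x => ∫ be in (0 : ℝ)..(1 / ((q : ℝ) * (x : ℝ))),
      H (-(iv q x / q) + be)) (fun q x hq hx h => cut hc hH hq hx h) hQ]
    have e : iv 1 1 = 0 := by
      unfold iv
      rw [Nat.cast_eq_zero]
      exact Nat.lt_one_iff.1 (ZMod.val_lt _)
    simp [e]
  have h2 : ∑ z ∈ P Q, (∫ be in (0 : ℝ)..(1 / ((z.1 : ℝ) * (z.2 : ℝ))),
      H (-(iv z.1 z.2 / z.1) + be)) =
      ∑ z ∈ P Q, (∫ be in (0 : ℝ)..(1 / ((z.1 : ℝ) * (z.1 + z.2))),
        H (-(iv z.1 z.2 / z.1) + be)) +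
      ∑ z ∈ P Q, (∫ be in (0 : ℝ)..(1 / ((z.2 : ℝ) * (z.2 + z.1))), H (iv z.2 z.1 / z.2 - be)) := by
    rw [← Finset.sum_add_distrib]
    refine Finset.sum_congr rfl fun z hz => ?_
    obtain ⟨g1, g2, g3, g4⟩ := mem_P.1 hz
    exact halves hc hH g1.1 g2.1 g4
  rw [← h1, h2, sum_P_swap (fun q x => ∫ be in (0 : ℝ)..(1 / ((q : ℝ) * (q + x))),
    H (iv q x / q - be)), ← Finset.sum_add_distrib,
    sum_P_eq (fun q x => (∫ be in (0 : ℝ)..(1 / ((q : ℝ) * (q + x))), H (-(iv q x / q) + be)) +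
      ∫ be in (0 : ℝ)..(1 / ((q : ℝ) * (q + x))), H (iv q x / q - be))]

end Pool.Agent.Lib.MP_a8dae7_an.D4.FAM
end

section
/-!
# MP_a8dae7_an, D4, module SH: one cube
-/
set_option autoImplicit false

open MeasureTheory
open scoped ContDiff

namespace Pool.Agent.Lib.MP_a8dae7_an.D4.SHM

open Pool.Agent.Lib.MP_a8dae7_an.CV Pool.Agent.Lib.MP_a8dae7_an.D4

/-- Schur's inequality for a symmetric nonnegative matrix -/
lemma schur {ι : Type*} (s : Finset ι) (x : ι → ℝ) (B : ι → ι → ℝ) (M : ℝ)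
    (hB : ∀ i ∈ s, ∀ j ∈ s, B i j = B j i) (hB0 : ∀ i ∈ s, ∀ j ∈ s, 0 ≤ B i j)
    (hM : ∀ i ∈ s, ∑ j ∈ s, B i j ≤ M) :
    ∑ i ∈ s, ∑ j ∈ s, x i * x j * B i j ≤ M * ∑ i ∈ s, x i ^ 2 := by
  have h1 : ∑ i ∈ s, ∑ j ∈ s, x i * x j * B i j ≤
      ∑ i ∈ s, ∑ j ∈ s, (x i ^ 2 / 2 * B i j + x j ^ 2 / 2 * B i j) := by
    refine Finset.sum_le_sum fun i hi => Finset.sum_le_sum fun j hj => ?_
    have h2 : x i * x j ≤ x i ^ 2 / 2 + x j ^ 2 / 2 := by nlinarith [sq_nonneg (x i - x j)]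
    have h3 := mul_le_mul_of_nonneg_right h2 (hB0 i hi j hj)
    linarith
  have h2 : ∑ i ∈ s, ∑ j ∈ s, x j ^ 2 / 2 * B i j = ∑ i ∈ s, ∑ j ∈ s, x i ^ 2 / 2 * B i j := by
    rw [Finset.sum_comm]
    refine Finset.sum_congr rfl fun i hi => Finset.sum_congr rfl fun j hj => ?_
    rw [hB j hj i hi]
  have h3 : ∑ i ∈ s, ∑ j ∈ s, (x i ^ 2 / 2 * B i j + x j ^ 2 / 2 * B i j) =
      ∑ i ∈ s, x i ^ 2 * ∑ j ∈ s, B i j := by
    simp only [Finset.sum_add_distrib]
    rw [h2, ← Finset.sum_add_distrib]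
    refine Finset.sum_congr rfl fun i _ => ?_
    rw [← Finset.mul_sum]
    ring
  refine h1.trans (h3.le.trans ?_)
  rw [Finset.mul_sum]
  refine Finset.sum_le_sum fun i hi => ?_
  have := mul_le_mul_of_nonneg_left (hM i hi) (sq_nonneg (x i))
  linarith

lemma norm_ex {d : ℕ} (n x : EE d) : ‖ex n x‖ = 1 := by
  unfold ex
  rw [mul_comm]
  exact Complex.norm_exp_ofReal_mul_I _

lemma ex_cont {d : ℕ} (n : EE d) : Continuous (ex n) := by
  unfold ex
  fun_prop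

lemma es_cont {d : ℕ} (s : Finset (Fin d → ℤ)) (a : (Fin d → ℤ) → ℂ) : Continuous (es s a) := by
  unfold es
  exact continuous_finsetSum _ fun n _ => continuous_const.mul (ex_cont _)

lemma ex_mul_conj {d : ℕ} (n n' x : EE d) : ex n x * (starRingEnd ℂ) (ex n' x) = ex (n - n') x := by
  unfold ex
  rw [← Complex.exp_conj, ← Complex.exp_add]
  congr 1
  rw [inner_sub_left]
  simp
  ring

/-- from the ball to the cutoff -/
lemma ball_le {k : ℕ} (ch : CG.Chart k) (F : EE k → ℝ) (hF : Continuous F) (hF0 : ∀ q, 0 ≤ F q) :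
    ∫ q in Metric.closedBall (0 : EE k) (3 / 2 * ch.dl), F q ≤ ∫ q, CG.cut ch k q * F q := by
  have hcomp : IsCompact (Metric.closedBall (0 : EE k) (3 / 2 * ch.dl)) := isCompact_closedBall _ _
  rw [← integral_indicator hcomp.measurableSet]
  apply integral_mono
  · exact (hF.continuousOn.integrableOn_compact hcomp).integrable_indicator hcomp.measurableSet
  · apply Continuous.integrable_of_hasCompactSupport
    · exact (CG.cut ch k).continuous.mul hF
    · exact (CG.cut ch k).hasCompactSupport.mul_right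
  · intro q
    show _ ≤ CG.cut ch k q * F q
    by_cases h : q ∈ Metric.closedBall (0 : EE k) (3 / 2 * ch.dl)
    · have h1 : CG.cut ch k q = 1 := by
        apply (CG.cut ch k).one_of_mem_closedBall
        show q ∈ Metric.closedBall (0 : EE k) (2 * ch.dl)
        exact Metric.closedBall_subset_closedBall (by linarith [ch.dl_pos]) h
      rw [Set.indicator_of_mem h, h1, one_mul]
    · rw [Set.indicator_of_notMem h]
      exact mul_nonneg (CG.cut ch k).nonneg (hF0 q)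

/-- expansion of the square -/
lemma expand {k : ℕ} (ch : CG.Chart k) (s : Finset (Fin (k + 1) → ℤ)) (a : (Fin (k + 1) → ℤ) → ℂ)
    (B : (Fin (k + 1) → ℤ) → (Fin (k + 1) → ℤ) → ℝ)
    (hB : ∀ n ∈ s, ∀ n' ∈ s, ‖∫ q, ((CG.cut ch k q : ℝ) : ℂ) * ex (zv n - zv n') (ch.X q)‖ ≤ B n n') :
    ∫ q, CG.cut ch k q * ‖es s a (ch.X q)‖ ^ 2 ≤ ∑ n ∈ s, ∑ n' ∈ s, ‖a n‖ * ‖a n'‖ * B n n' := by
  have hX : Continuous ch.X := ch.smooth.continuous
  have hint : ∀ n n' : Fin (k + 1) → ℤ, Integrable fun q =>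
      (a n * (starRingEnd ℂ) (a n')) * (((CG.cut ch k q : ℝ) : ℂ) * ex (zv n - zv n') (ch.X q)) := by
    intro n n'
    apply Integrable.const_mul
    apply Continuous.integrable_of_hasCompactSupport
    · exact (Complex.continuous_ofReal.comp (CG.cut ch k).continuous).mul ((ex_cont _).comp hX)
    · refine HasCompactSupport.intro (CG.cut ch k).hasCompactSupport fun q hq => ?_
      have h7 : CG.cut ch k q = 0 := image_eq_zero_of_notMem_tsupport hq
      rw [h7]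
      simp
  have h1 : ∀ q, ((CG.cut ch k q * ‖es s a (ch.X q)‖ ^ 2 : ℝ) : ℂ) = ∑ n ∈ s, ∑ n' ∈ s,
      (a n * (starRingEnd ℂ) (a n')) * (((CG.cut ch k q : ℝ) : ℂ) * ex (zv n - zv n') (ch.X q)) := by
    intro q
    have h2 : ((‖es s a (ch.X q)‖ ^ 2 : ℝ) : ℂ) =
        es s a (ch.X q) * (starRingEnd ℂ) (es s a (ch.X q)) := by
      rw [RCLike.mul_conj]
      norm_cast
    rw [Complex.ofReal_mul, h2]
    unfold es
    rw [map_sum, Finset.sum_mul_sum, Finset.mul_sum]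
    refine Finset.sum_congr rfl fun n _ => ?_
    rw [Finset.mul_sum]
    refine Finset.sum_congr rfl fun n' _ => ?_
    rw [map_mul, ← ex_mul_conj]
    ring
  have h2 : ((∫ q, CG.cut ch k q * ‖es s a (ch.X q)‖ ^ 2 : ℝ) : ℂ) = ∑ n ∈ s, ∑ n' ∈ s,
      (a n * (starRingEnd ℂ) (a n')) * ∫ q, ((CG.cut ch k q : ℝ) : ℂ) * ex (zv n - zv n') (ch.X q) := by
    have h0 : ((∫ q, CG.cut ch k q * ‖es s a (ch.X q)‖ ^ 2 : ℝ) : ℂ) =
        ∫ q, ((CG.cut ch k q * ‖es s a (ch.X q)‖ ^ 2 : ℝ) : ℂ) := integral_complex_ofReal.symm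
    rw [h0, integral_congr_ae (Filter.Eventually.of_forall h1),
      integral_finsetSum _ fun n _ => integrable_finsetSum _ fun n' _ => hint n n']
    refine Finset.sum_congr rfl fun n _ => ?_
    rw [integral_finsetSum _ fun n' _ => hint n n']
    refine Finset.sum_congr rfl fun n' _ => ?_
    rw [integral_const_mul]
  calc ∫ q, CG.cut ch k q * ‖es s a (ch.X q)‖ ^ 2
      ≤ ‖((∫ q, CG.cut ch k q * ‖es s a (ch.X q)‖ ^ 2 : ℝ) : ℂ)‖ := by
        rw [Complex.norm_real]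
        exact le_abs_self _
    _ ≤ ∑ n ∈ s, ∑ n' ∈ s, ‖a n‖ * ‖a n'‖ * B n n' := by
        rw [h2]
        refine (norm_sum_le _ _).trans (Finset.sum_le_sum fun n hn => ?_)
        refine (norm_sum_le _ _).trans (Finset.sum_le_sum fun n' hn' => ?_)
        rw [norm_mul, norm_mul, RCLike.norm_conj]
        gcongr
        exact hB n hn n' hn'

/-- distances between lattice points -/
lemma one_le_dist {d : ℕ} {n n' : Fin d → ℤ} (h : n ≠ n') : 1 ≤ ‖zv n - zv n'‖ := by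
  obtain ⟨i, hi⟩ : ∃ i, n i ≠ n' i := by
    by_contra h1
    push Not at h1
    exact h (funext h1)
  have h2 : (1 : ℝ) ≤ |((n i - n' i : ℤ) : ℝ)| := by
    have : (1 : ℤ) ≤ |n i - n' i| := Int.one_le_abs (sub_ne_zero.2 hi)
    exact_mod_cast this
  have h3 : ‖(zv n - zv n') i‖ ≤ ‖zv n - zv n'‖ := PiLp.norm_apply_le _ i
  have h4 : ‖(zv n - zv n') i‖ = |((n i - n' i : ℤ) : ℝ)| := by
    rw [Real.norm_eq_abs]
    congr 1
    simp [zv]
  linarith

theorem specSH (hDE : SpecDE) (hSS : SpecSS) : SpecSH := by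
  intro ch c1 hND eps heps
  obtain ⟨C1, hC1, hDE⟩ := hDE 3 ch c1 (by norm_num) hND
  obtain ⟨C2, hC2, hSS⟩ := hSS eps heps
  set C0 : ℝ := ‖∫ q, ((CG.cut ch 3 q : ℝ) : ℂ) * ex (0 : EE 4) (ch.X q)‖ with hC0
  have hC00 : 0 ≤ C0 := norm_nonneg _
  refine ⟨C0 + C1 * C2, by positivity, ?_⟩
  intro lam s a hlam hs hd
  have hlam1 : 1 ≤ lam ^ eps := Real.one_le_rpow hlam heps.le
  refine (ball_le ch (fun q => ‖es s a (ch.X q)‖ ^ 2)
    (((es_cont s a).comp ch.smooth.continuous).norm.pow 2) (fun q => by positivity)).trans ?_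
  classical
  refine (expand ch s a (fun n n' => if n = n' then C0 else C1 * ‖zv n - zv n'‖ ^ (-(3 / 2) : ℝ))
    ?_).trans ?_
  · intro n _ n' _
    split_ifs with h
    · rw [h, sub_self]
    · have h1 := hDE (zv n - zv n') (one_le_dist h)
      have h2 : (-(((3 : ℕ) : ℝ) / 2)) = (-(3 / 2) : ℝ) := by norm_num
      rwa [h2] at h1
  · refine (schur s (fun n => ‖a n‖) _ ((C0 + C1 * C2) * lam ^ eps) ?_ ?_ ?_)
    · intro n _ n' _
      by_cases h : n = n'
      · rw [if_pos h, if_pos h.symm]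
      · rw [if_neg h, if_neg (fun h' => h h'.symm), norm_sub_rev]
    · intro n _ n' _
      split_ifs <;> positivity
    · intro n hn
      rw [← Finset.add_sum_erase s _ hn, if_pos rfl]
      have h1 : ∑ x ∈ s.erase n, (if n = x then C0 else C1 * ‖zv n - zv x‖ ^ (-(3 / 2) : ℝ)) =
          C1 * ∑ x ∈ s.erase n, ‖zv n - zv x‖ ^ (-(3 / 2) : ℝ) := by
        rw [Finset.mul_sum]
        refine Finset.sum_congr rfl fun x hx => ?_
        rw [if_neg (fun h => (Finset.ne_of_mem_erase hx) h.symm)]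
      rw [h1]
      have h2 := hSS lam s hlam hs n hn (fun n' hn' => hd n hn n' hn')
      have h3 := mul_le_mul_of_nonneg_left h2 hC1.le
      have h4 := mul_le_mul_of_nonneg_left hlam1 hC00
      nlinarith

end Pool.Agent.Lib.MP_a8dae7_an.D4.SHM
end

section
/-!
# MP_a8dae7_an, D4: module WP
-/
set_option autoImplicit false

open MeasureTheory
open scoped ContDiff

namespace Pool.Agent.Lib.MP_a8dae7_an.D4.WPM

open Pool.Agent.Lib.MP_a8dae7_an.D4

/-- sums of products of nonnegative summable functions -/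
theorem tsum_pi (n : ℕ) : ∀ f : Fin n → ℤ → ℝ, (∀ i m, 0 ≤ f i m) → (∀ i, Summable (f i)) →
    Summable (fun b : Fin n → ℤ => ∏ i, f i (b i)) ∧
      ∑' b : Fin n → ℤ, ∏ i, f i (b i) = ∏ i, ∑' m, f i m := by
  induction n with
  | zero =>
    intro f _ _
    refine ⟨(hasSum_unique _).summable, ?_⟩
    rw [tsum_fintype]
    simp
  | succ n ih =>
    intro f hf hs
    obtain ⟨h1, h2⟩ := ih (fun i => f i.succ) (fun i m => hf _ _) (fun i => hs _)
    have hp : Summable (fun x : ℤ × (Fin n → ℤ) => f 0 x.1 * ∏ i : Fin n, f i.succ (x.2 i)) :=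
      Summable.mul_of_nonneg (hs 0) h1 (fun m => hf 0 m)
        (fun b => Finset.prod_nonneg fun i _ => hf _ _)
    have e : ∀ x : ℤ × (Fin n → ℤ), (∏ i, f i ((Fin.consEquiv (fun _ => ℤ)) x i)) =
        f 0 x.1 * ∏ i : Fin n, f i.succ (x.2 i) := by
      intro x
      rw [Fin.prod_univ_succ]
      simp [Fin.consEquiv]
    constructor
    · rw [← (Fin.consEquiv (fun _ => ℤ)).summable_iff]
      refine hp.congr ?_
      intro x
      exact (e x).symm
    · rw [← (Fin.consEquiv (fun _ => ℤ)).tsum_eq, Fin.prod_univ_succ, ← h2,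
        Summable.tsum_mul_tsum (hs 0) h1 hp]
      exact tsum_congr e

theorem W4_eq (rho : ℝ) (c : Fin 4 → ℤ) (q : ℕ) (hr : 0 < rho) (hq : 1 ≤ q) (be : ℝ) (b : Fin 4 → ℤ) :
    W4 rho c q be b = rho ^ 4 / (1 + 4 * be ^ 2 * rho ^ 4) *
      ∏ i, Real.exp (-(Real.pi * (rho ^ 2 / ((q : ℝ) ^ 2 * (1 + 4 * be ^ 2 * rho ^ 4))) *
        ((b i : ℝ) - 2 * q * be * c i) ^ 2)) := by
  unfold W4
  rw [← Real.exp_sum]
  congr 2
  rw [Finset.sum_neg_distrib, Finset.mul_sum]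
  congr 1
  refine Finset.sum_congr rfl fun i _ => ?_
  have h1 : (0 : ℝ) < 1 + 4 * be ^ 2 * rho ^ 4 := by positivity
  have h2 : (0 : ℝ) < q := by exact_mod_cast hq
  field_simp

theorem specWP (hP : SpecPP) : SpecWP := by
  intro rho c q hr hq
  have h2 : (0 : ℝ) < q := by exact_mod_cast hq
  have h1 : ∀ be : ℝ, (0 : ℝ) < 1 + 4 * be ^ 2 * rho ^ 4 := fun be => by positivity
  have hg : ∀ be : ℝ, 0 < rho ^ 2 / ((q : ℝ) ^ 2 * (1 + 4 * be ^ 2 * rho ^ 4)) := fun be => by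
    have := h1 be
    positivity
  have key : ∀ be : ℝ, ∑' b : Fin 4 → ℤ, W4 rho c q be b =
      rho ^ 4 / (1 + 4 * be ^ 2 * rho ^ 4) *
        ∏ i, PG (rho ^ 2 / ((q : ℝ) ^ 2 * (1 + 4 * be ^ 2 * rho ^ 4))) (2 * q * be * c i) := by
    intro be
    simp_rw [W4_eq rho c q hr hq be]
    rw [tsum_mul_left]
    congr 1
    exact (tsum_pi 4 (fun i m => Real.exp (-(Real.pi * (rho ^ 2 / ((q : ℝ) ^ 2 *
      (1 + 4 * be ^ 2 * rho ^ 4))) * ((m : ℝ) - 2 * q * be * c i) ^ 2)))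
      (fun i m => (Real.exp_pos _).le) (fun i => hP.1 _ _ (hg be))).2
  refine ⟨key, ?_⟩
  rw [funext key]
  refine Continuous.mul ?_ (continuous_finsetProd _ fun i _ => ?_)
  · exact continuous_const.div (by fun_prop) (fun be => (h1 be).ne')
  · have hc : Continuous (fun be : ℝ => ((rho ^ 2 / ((q : ℝ) ^ 2 * (1 + 4 * be ^ 2 * rho ^ 4)),
        2 * (q : ℝ) * be * c i) : ℝ × ℝ)) := by
      refine Continuous.prodMk ?_ (by fun_prop)
      exact continuous_const.div (by fun_prop) (fun be => by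
        have := h1 be
        positivity)
    exact hP.2.1.comp_continuous hc (fun be => hg be)

end Pool.Agent.Lib.MP_a8dae7_an.D4.WPM
end
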