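import Pool.Agent.Lib.MP_a8dae7_an.D4.Spec
import Pool.Agent.Lib.MP_a8dae7_an.CG.IG
import Pool.Agent.Lib.MP_a8dae7_an.D4.WP
import Pool.Agent.Lib.MP_a8dae7_an.D4.DE
import Pool.Agent.Lib.MP_a8dae7_an.D4.GS
import Pool.Agent.Lib.MP_a8dae7_an.D4.PO
import Pool.Agent.Lib.MP_a8dae7_an.D4.KS
import Pool.Agent.Lib.MP_a8dae7_an.D4.SS
import Pool.Agent.Lib.MP_a8dae7_an.D4.PSM
import Pool.Agent.Lib.MP_a8dae7_an.CG.Z2
import Pool.Agent.Lib.MP_a8dae7_an.CG.FP
import Pool.Agent.Lib.MP_a8dae7_an.CG.GA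
import Pool.Agent.Lib.MP_a8dae7_an.CG.CT
import Pool.Agent.Lib.MP_a8dae7_an.CV.ZS
import Pool.Agent.Lib.MP_a8dae7_an.CV.NG
import Pool.Agent.Lib.MP_a8dae7_an.CV.HM
import Pool.Agent.Lib.MP_a8dae7_an.CV.Main

section
/-!
# MP_a8dae7_an, D4, module IC: nondegenerate charts

As `CG.IGM.specIG`, on a smaller ball, where the Gauss map is bi-Lipschitz.
-/
set_option autoImplicit false

open MeasureTheory Filter Topology
open scoped ContDiff

namespace Pool.Agent.Lib.MP_a8dae7_an.D4.ICM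

open Pool.Agent.Lib.MP_a8dae7_an.CV
open Pool.Agent.Lib.MP_a8dae7_an.CV.IFM
open Pool.Agent.Lib.MP_a8dae7_an.CG.IGM

variable {k : ℕ}

/-- a chart from a graph, with a bound for its size -/
theorem chart_of' (p : EE (k + 1)) {nu : EE (k + 1)} (J : EE k →ₗᵢ[ℝ] EE (k + 1)) {G : EE k → ℝ}
    (hnu : ‖nu‖ = 1) (hperp : ∀ v, inner ℝ nu (J v) = 0) (hG : ContDiff ℝ ∞ G)
    (hs : HasCompactSupport G) (h0 : fderiv ℝ G 0 = 0) {d0 : ℝ} (hd0 : 0 < d0) :
    ∃ ch : CG.Chart k, ch.X = XX p nu J G ∧ ch.V = gr G ∧ ch.dl ≤ d0 := by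
  have hV := gr_contDiff hG
  have hX := XX_contDiff p nu J hG
  have hV0 : gr G 0 = 0 := by
    rw [← norm_eq_zero, ← sq_eq_zero_iff, ← real_inner_self_eq_norm_sq, inner_gr, h0]
    rfl
  obtain ⟨δ₁, hδ₁, h₁⟩ := Metric.continuous_iff.1 hV.continuous 0 (1 / 16) (by norm_num)
  obtain ⟨δ₂, hδ₂, h₂⟩ := Metric.continuous_iff.1 hX.continuous 0 (1 / 8) (by norm_num)
  obtain ⟨dl, hdl⟩ : ∃ dl : ℝ, dl = min (min (1 / 64) d0) (min (δ₁ / 5) (δ₂ / 5)) := ⟨_, rfl⟩
  have hdl0 : 0 < dl := by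
    rw [hdl]
    exact lt_min (lt_min (by norm_num) hd0) (lt_min (by positivity) (by positivity))
  have hdl1 : dl ≤ 1 / 64 := by
    rw [hdl]
    exact (min_le_left _ _).trans (min_le_left _ _)
  have hdl2 : dl ≤ d0 := by
    rw [hdl]
    exact (min_le_left _ _).trans (min_le_right _ _)
  have hdl3 : dl ≤ δ₁ / 5 := by
    rw [hdl]
    exact (min_le_right _ _).trans (min_le_left _ _)
  have hdl4 : dl ≤ δ₂ / 5 := by
    rw [hdl]
    exact (min_le_right _ _).trans (min_le_right _ _)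
  have hVle : ∀ q, ‖q‖ ≤ 4 * dl → ‖gr G q‖ ≤ 1 / 16 := by
    intro q hq
    have h3 := h₁ q (by rw [dist_zero_right]; linarith)
    rw [hV0, dist_zero_right] at h3
    exact h3.le
  refine ⟨{ X := XX p nu J G
            nu := nu
            J := J
            V := gr G
            c := 1 / 2
            dl := dl
            smooth := hX
            smoothV := hV
            bdV := gr_bound hG hs
            nu_one := hnu
            nu_perp := hperp
            c_pos := by norm_num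
            c_le := by norm_num
            dl_pos := hdl0
            dl_le := hdl1
            V_le := hVle
            der := fun q v _ => XX_fderiv p nu J hG q v
            diam := ?_
            gram := ?_ }, rfl, rfl, hdl2⟩
  · intro q q' hq hq'
    have h3 := h₂ q (by rw [dist_zero_right]; linarith)
    have h4 := h₂ q' (by rw [dist_zero_right]; linarith)
    have h5 := dist_triangle_right (XX p nu J G q) (XX p nu J G q') (XX p nu J G 0)
    rw [← dist_eq_norm]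
    linarith
  · intro q q' v om hq hq' hom hJ
    rw [XX_fderiv p nu J hG, XX_fderiv p nu J hG]
    have h3 : ∀ q, ‖q‖ ≤ 4 * dl → |inner ℝ (gr G q) v| ≤ 1 / 16 * ‖v‖ := fun q hq =>
      (abs_real_inner_le_norm _ _).trans (mul_le_mul_of_nonneg_right (hVle q hq) (norm_nonneg _))
    exact gram_aux hnu hperp hom hJ (h3 q hq) (h3 q' hq')

/-- nondegenerate charts -/
theorem specIC : SpecIC := by
  intro k Sg p h
  obtain ⟨J, nu, g, rho, hnu, hperp, hg, _, hg1, hnd, hrho, hS⟩ := h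
  have hG := GG_contDiff hg
  have hG0 := GG_fderiv_zero hg1
  -- the Hessian
  have hev : fderiv ℝ (GG g) =ᶠ[𝓝 (0 : EE k)] fderiv ℝ g := by
    filter_upwards [Metric.ball_mem_nhds (0 : EE k) one_pos] with y hy
    refine Filter.EventuallyEq.fderiv_eq ?_
    filter_upwards [Metric.isOpen_ball.mem_nhds hy] with y' hy'
    exact GG_eq g (mem_ball_zero_iff.1 hy').le
  have hHess : fderiv ℝ (fderiv ℝ (GG g)) 0 = fderiv ℝ (fderiv ℝ g) 0 := hev.fderiv_eq
  obtain ⟨A, hA⟩ : ∃ A : EE k →L[ℝ] EE k, A = fderiv ℝ (gr (GG g)) 0 := ⟨_, rfl⟩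
  have hker : LinearMap.ker (A : EE k →ₗ[ℝ] EE k) = ⊥ := by
    rw [LinearMap.ker_eq_bot']
    intro u hu
    by_contra hne
    refine hnd u hne ?_
    rw [← hHess]
    ext v
    rw [← inner_fderiv_gr hG, ← hA]
    have hu' : A u = 0 := hu
    rw [hu', inner_zero_left]
    rfl
  obtain ⟨K, hK, hanti⟩ := LinearMap.exists_antilipschitzWith (A : EE k →ₗ[ℝ] EE k) hker
  have hK0 : (0 : ℝ) < K := by exact_mod_cast hK
  have hlow : ∀ u : EE k, ‖u‖ ≤ K * ‖A u‖ := by
    intro u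
    have h1 := hanti.le_mul_dist u 0
    rw [map_zero, dist_zero_right, dist_zero_right] at h1
    exact h1
  obtain ⟨c1, hc1⟩ : ∃ c1 : ℝ, c1 = 1 / (2 * K) := ⟨_, rfl⟩
  have hc10 : 0 < c1 := by rw [hc1]; positivity
  have hlow' : ∀ u : EE k, 2 * c1 * ‖u‖ ≤ ‖A u‖ := by
    intro u
    have h1 := hlow u
    have h2 : 2 * c1 * ‖u‖ ≤ 2 * c1 * (K * ‖A u‖) := mul_le_mul_of_nonneg_left h1 (by positivity)
    have h3 : 2 * c1 * (K * ‖A u‖) = ‖A u‖ := by
      rw [hc1]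
      field_simp
    linarith
  have hcont : Continuous (fderiv ℝ (gr (GG g))) :=
    ((gr_contDiff hG).fderiv_right (m := ∞) (by norm_num)).continuous
  obtain ⟨δ, hδ, hδ1⟩ := Metric.continuous_iff.1 hcont 0 c1 hc10
  obtain ⟨ch, hch, hchV, hchd⟩ := chart_of' p J hnu hperp hG (GG_support g) hG0
    (d0 := δ / 5) (by positivity)
  refine ⟨ch, c1, min rho ch.dl, ⟨hc10, ?_⟩, lt_min hrho ch.dl_pos, fun x hx hxp => ?_⟩
  · intro q q' hq hq'
    rw [hchV]
    have hdp := ch.dl_pos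
    have hmem : ∀ x : EE k, ‖x‖ ≤ 4 * ch.dl → x ∈ Metric.ball (0 : EE k) δ := fun x hx => by
      rw [mem_ball_zero_iff]
      linarith
    have hmv := (convex_ball (0 : EE k) δ).norm_image_sub_le_of_norm_fderiv_le' (𝕜 := ℝ)
      (f := gr (GG g)) (C := c1) (φ := A) (x := q') (y := q)
      (fun x _ => (gr_contDiff hG).differentiable (by norm_num) x) (fun x hx => by
        have h1 := hδ1 x (by rw [dist_zero_right]; exact mem_ball_zero_iff.1 hx)
        rw [dist_eq_norm, ← hA] at h1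
        exact h1.le) (hmem q' hq') (hmem q hq)
    have h1 := hlow' (q - q')
    have h2 := norm_sub_norm_le (A (q - q')) (A (q - q') - (gr (GG g) q - gr (GG g) q'))
    rw [sub_sub_cancel, norm_sub_rev (A (q - q'))] at h2
    linarith
  · obtain ⟨y, hy⟩ := hS x hx (hxp.trans_le (min_le_left _ _))
    have h1 := (norm_le hperp hy).trans (hxp.trans_le (min_le_right _ _)).le
    refine ⟨y, h1, ?_⟩
    rw [hch, hy]
    unfold XX
    rw [GG_eq g (h1.trans (ch.dl_le.trans (by norm_num)))]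

end Pool.Agent.Lib.MP_a8dae7_an.D4.ICM
end

section
/-!
# D4, ALL: the theorem for hypersurfaces of `ℝ⁴` with nonvanishing curvature from the modules
-/
set_option autoImplicit false

open MeasureTheory
open scoped ContDiff

namespace Pool.Agent.Lib.MP_a8dae7_an.D4

open Pool.Agent.Lib.MP_a8dae7_an.CV Pool.Agent.Lib.MP_1446ad_nt.SM

theorem all_specRD1 : CG.SpecRD1 :=
  CG.RD1M.specRD1 (CG.FPM.specFP (CV.NGM.specNG CV.NSM.specNS)) CG.GAM.specGA CV.ORM.specOR CV.TRM.specTR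
    CG.CTM.specCT

theorem all_specFI : SpecFI := by
  have hPP : SpecPP := PPM.specPP
  have hWP : SpecWP := WPM.specWP hPP
  have hMI : SpecMI := MIM.specMI hPP
  have hMB : SpecMB := MBM.specMB hWP hMI
  have hGM : SpecGM := GMM.specGM
  have hSB : SpecSB := SBM.specSB GAM.specGA hGM GSM.specGS specDEC
  have hPF : SpecPF := PFM.specPF POM.specPO
  have hKF : SpecKF := KFM.specKF hPF KSM.specKS hSB
  have hAR : SpecAR := ARM.specAR FAM.specFA
  have hJC : SpecJC := JCM.specJC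
  have hCC : SpecCC := CCM.specCC hJC hAR hKF hMB hWP PSMM.specPSM
  have hSS : SpecSS := SSM.specSS hCC
  have hDE : SpecDE := DEM.specDE specLW specDI
  have hSH : SpecSH := SHM.specSH hDE hSS
  have hCH : SpecCH := CHM.specCH all_specRD1 hSH
  exact FIM.specFI hCH ICM.specIC CV.HMM.specHM

/-- with the torus integral -/
theorem main4 (Sg : Set (EE 4)) (hc : IsCompact Sg) (hp : ∀ p ∈ Sg, NondegAt (k := 3) Sg p) (eps : ℝ)
    (he : 0 < eps) :
    ∃ C : ℝ, 0 < C ∧ ∀ (lam : ℝ) (s : Finset (Fin 4 → ℤ)) (a : (Fin 4 → ℤ) → ℂ),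
      1 ≤ lam → (∀ n ∈ s, ∑ i, (n i : ℝ) ^ 2 = lam ^ 2) →
      ∫⁻ x in Sg, ENNReal.ofReal (‖FP.wave s a (fun i => x i)‖ ^ 2)
        ∂(Measure.hausdorffMeasure (3 : ℝ))
        ≤ ENNReal.ofReal (C * lam ^ eps *
          ∫ x in Set.pi Set.univ (fun _ : Fin 4 => Set.Icc (0 : ℝ) (2 * Real.pi)),
            ‖FP.wave s a x‖ ^ 2) := by
  obtain ⟨C, hC, h⟩ := all_specFI Sg ⟨hc, hp⟩ eps he
  refine ⟨C, hC, fun lam s a hl hs => ?_⟩
  have h1 := h lam s a hl fun n hn => CV.MainM.norm_zv n (by linarith) (hs n hn)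
  have h2 := FP.specPAR 4 s a
  simp only [CV.MainM.es_eq] at h1
  refine h1.trans (ENNReal.ofReal_le_ofReal ?_)
  rw [h2]
  have h3 : (1 : ℝ) ≤ (2 * Real.pi) ^ 4 :=
    one_le_pow₀ (by have := Real.pi_gt_three; linarith)
  have h4 : 0 ≤ ∑ n ∈ s, ‖a n‖ ^ 2 := Finset.sum_nonneg fun n _ => by positivity
  have h5 : 0 ≤ C * lam ^ eps := by positivity
  have h6 : ∑ n ∈ s, ‖a n‖ ^ 2 ≤ (2 * Real.pi) ^ 4 * ∑ n ∈ s, ‖a n‖ ^ 2 :=
    le_mul_of_one_le_left h4 h3
  exact mul_le_mul_of_nonneg_left h6 h5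

end Pool.Agent.Lib.MP_a8dae7_an.D4
end
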