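import Pool.Agent.Lib.MP_1446ad_nt.SM.SpecK
import Pool.Agent.Lib.MP_a8dae7_an.CG.Spec

/-!
# MP_a8dae7_an, D4: hypersurfaces of the 4-dimensional torus with nonvanishing curvature. Definitions.

Paper: /team-store/MP_a8dae7_an_D4_h52.md
-/

set_option autoImplicit false

open MeasureTheory
open scoped ContDiff

namespace Pool.Agent.Lib.MP_a8dae7_an.D4

open Pool.Agent.Lib.MP_a8dae7_an.CV Pool.Agent.Lib.MP_1446ad_nt.SM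

/-! ## Number theory -/

/-- the Gauss sum `∑_{x mod q} e((a x² + b x)/q)` -/
noncomputable def Gs (q : ℕ) [NeZero q] (a b : ZMod q) : ℂ :=
  ∑ x : ZMod q, ZMod.stdAddChar (a * x ^ 2 + b * x)

/-- the complete sum `∑_{x unit mod q} ∏_{i<4} G(A x, b_i; q) e((B x + C x⁻¹)/q)` -/
noncomputable def Sc (q : ℕ) [NeZero q] (A B C : ℤ) (b : Fin 4 → ℤ) : ℂ :=
  ∑ x : (ZMod q)ˣ, (∏ i, Gs q ((A : ZMod q) * (x : ZMod q)) (b i : ZMod q)) *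
    ZMod.stdAddChar ((B : ZMod q) * (x : ZMod q) + (C : ZMod q) * ((x⁻¹ : (ZMod q)ˣ) : ZMod q))

/-- the inverse of `x` modulo `q`, as a real number -/
noncomputable def iv (q x : ℕ) : ℝ := ((((x : ZMod q)⁻¹).val : ℕ) : ℝ)

/-! ## Circle method -/

/-- `∑_{x ∈ ℤ} exp(-π (x-c)²/ρ²) e(α x²)` -/
noncomputable def th (rho : ℝ) (c : ℤ) (al : ℝ) : ℂ :=
  ∑' x : ℤ, Complex.exp (((-(Real.pi * ((x : ℝ) - c) ^ 2 / rho ^ 2) : ℝ) : ℂ) +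
    2 * Real.pi * Complex.I * ((al * (x : ℝ) ^ 2 : ℝ) : ℂ))

/-- the generating function of the weighted points of `ℤ⁴` near `c` -/
noncomputable def F4 (rho : ℝ) (c : Fin 4 → ℤ) (al : ℝ) : ℂ := ∏ i, th rho (c i) al

/-- `F(α) e(-N α)` -/
noncomputable def H4 (rho : ℝ) (c : Fin 4 → ℤ) (N : ℕ) (al : ℝ) : ℂ :=
  F4 rho c al * Complex.exp (-(2 * Real.pi * Complex.I * (((N : ℝ) * al : ℝ) : ℂ)))

/-- the absolute value of the dual term -/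
noncomputable def W4 (rho : ℝ) (c : Fin 4 → ℤ) (q : ℕ) (be : ℝ) (b : Fin 4 → ℤ) : ℝ :=
  rho ^ 4 / (1 + 4 * be ^ 2 * rho ^ 4) *
    Real.exp (-(Real.pi * rho ^ 2 / (1 + 4 * be ^ 2 * rho ^ 4) *
      ∑ i, ((b i : ℝ) / q - 2 * be * c i) ^ 2))

/-- the one-dimensional periodic Gaussian `∑_{m ∈ ℤ} exp(-π g (m - x)²)` -/
noncomputable def PG (g x : ℝ) : ℝ := ∑' m : ℤ, Real.exp (-(Real.pi * g * ((m : ℝ) - x) ^ 2))

/-! ## Analysis -/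

/-- nondegenerate chart: the Gauss map is bi-Lipschitz -/
def ND {k : ℕ} (ch : CG.Chart k) (c1 : ℝ) : Prop :=
  0 < c1 ∧ ∀ q q' : EE k, ‖q‖ ≤ 4 * ch.dl → ‖q'‖ ≤ 4 * ch.dl → c1 * ‖q - q'‖ ≤ ‖ch.V q - ch.V q'‖

/-- `Sg` is, near `p`, contained in the graph over its tangent hyperplane at `p` of a smooth function whose Hessian
at `p` is nondegenerate (any signature) -/
def NondegAt {k : ℕ} (Sg : Set (EE (k + 1))) (p : EE (k + 1)) : Prop :=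
  ∃ (J : EE k →ₗᵢ[ℝ] EE (k + 1)) (nu : EE (k + 1)) (g : EE k → ℝ) (rho : ℝ),
    ‖nu‖ = 1 ∧ (∀ v, inner ℝ nu (J v) = 0) ∧ ContDiff ℝ ∞ g ∧ g 0 = 0 ∧ fderiv ℝ g 0 = 0 ∧
    (∀ v : EE k, v ≠ 0 → fderiv ℝ (fderiv ℝ g) 0 v ≠ 0) ∧ 0 < rho ∧
    ∀ x ∈ Sg, ‖x - p‖ < rho → ∃ y : EE k, x = p + J y + g y • nu

/-- compact, with nonvanishing curvature -/
def Nondeg {k : ℕ} (Sg : Set (EE (k + 1))) : Prop := IsCompact Sg ∧ ∀ p ∈ Sg, NondegAt Sg p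

end Pool.Agent.Lib.MP_a8dae7_an.D4
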