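import Pool.Agent.Lib.MP_a8dae7_an.D4.Defs

/-!
# MP_a8dae7_an, D4: Specs

Every Spec is a closed proposition; its doc string contains a complete proof. Module `XXX` = file `D4/XXX.lean`, which
imports `D4.Spec` and proves `theorem specXXX (hYYY : SpecYYY) .. : SpecXXX` in the namespace
`Pool.Agent.Lib.MP_a8dae7_an.D4.XXXM`. Landed results of other files may be imported and used
(`Pool.Agent.Lib.MP_1446ad_nt.SM.*`, `Pool.Agent.Lib.MP_a8dae7_an.{CG,CV}.*`).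
-/

set_option autoImplicit false

open MeasureTheory
open scoped ContDiff

namespace Pool.Agent.Lib.MP_a8dae7_an.D4

open Pool.Agent.Lib.MP_a8dae7_an.CV Pool.Agent.Lib.MP_1446ad_nt.SM

/-! # N. Number theory -/

/-- **GA** (70 lines). `|G(a,b;q)|² ≤ 2q`, `a` a unit.
Proof. `|G|² = ∑_{x,y} ψ(a(x²-y²) + b(x-y))`; put `x = y + h`: `∑_h ψ(a h² + b h) ∑_y ψ(2 a h y)`. The inner sum is `q` if
`2 a h = 0`, i.e. `2 h = 0`, and `0` otherwise (`AddChar.sum_mulShift`, `ZMod.isPrimitive_stdAddChar`). So `|G|²` is at most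
`q #{h : ZMod q | 2 h = 0} ≤ 2 q` (`2 h = 0` means `q ∣ 2 h.val`, `h.val < q`: `h.val = 0` or `2 h.val = q`). -/
def SpecGA : Prop := ∀ (q : ℕ) [NeZero q] (a : (ZMod q)ˣ) (b : ZMod q), ‖Gs q a b‖ ^ 2 ≤ 2 * q

/-- **GF** (130 lines). Fourth power of the Gauss sum for odd squarefree `u`.
Proof. (i) `|G(a,0;u)|² = u`: as in GA, `2 h = 0` iff `h = 0` since 2 is a unit. (ii) There are `α β : ZMod u` with
`α² + β² = -1`: for `u` prime `ZMod.sq_add_sq`; in general induction on the squarefree `u` (`u = p u'`, coprime,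
`ZMod.chineseRemainder`). (iii) The map `(x,y) ↦ (α x - β y, β x + α y)` of `ZMod u × ZMod u` is a bijection (its square
composed with the adjoint: `(α y' .. )`; the determinant `α² + β² = -1` is a unit) and `x² + y²` goes to `-(x² + y²)`. Hence
`G(a,0)² = ∑_{x,y} ψ(a(x²+y²)) = ∑ ψ(-a(x²+y²)) = (conj G(a,0))²`, so `G⁴ = G² conj(G)² = |G|⁴ = u²`. -/
def SpecGF : Prop := ∀ (u : ℕ) [NeZero u], Odd u → Squarefree u → ∀ a : (ZMod u)ˣ, Gs u a 0 ^ 4 = (u : ℂ) ^ 2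

/-- **GM** (150 lines). Multiplicativity.
Proof. Take `α` with `α v = 1 mod u`, `β` with `β u = 1 mod v`. For an integer `t`: `e(t/(uv)) = e(α t/u) e(β t/v)`
(`α v + β u = 1 mod uv`; `ZMod.stdAddChar_coe`; compare `SM/KMU.lean`, where this is done with `ZMod.chineseRemainder`).
Gauss sums: in `G(a,b;uv) = ∑_y e((a y² + b y)/(uv))` write `y = v y₁ + u y₂`, `y₁ mod u`, `y₂ mod v` (a bijection):
`(a y² + b y)/(uv) = (a v y₁² + b y₁)/u + (a u y₂² + b y₂)/v mod 1`, so `G(a,b;uv) = G(a v,b;u) G(a u,b;v)`. The units `x`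
mod `uv` correspond to the pairs of units (`ZMod.unitsChineseRemainder..` or `Units.mapEquiv` of the ring isomorphism,
`MulEquiv.prodUnits`), and `e((B x + C x⁻¹)/(uv)) = e(α(B x₁ + C x₁⁻¹)/u) e(β(B x₂ + C x₂⁻¹)/v)`. -/
def SpecGM : Prop := ∀ (u v : ℕ) [NeZero u] [NeZero v] [NeZero (u * v)], Nat.Coprime u v →
  ∀ (A B C : ℤ) (b : Fin 4 → ℤ), ∃ α β : ℤ, Int.gcd α u = 1 ∧ Int.gcd β v = 1 ∧
    Sc (u * v) A B C b = Sc u (A * v) (α * B) (α * C) b * Sc v (A * u) (β * B) (β * C) b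

/-- **GS** (100 lines; from GF and `SM.SpecSQF`). Odd squarefree modulus.
Proof. 2 is a unit mod `u`. For a unit `a`: `a y² + b y = a (y + (2a)⁻¹ b)² - (4a)⁻¹ b²`, so
`G(a,b;u) = ψ(-(4a)⁻¹ b²) G(a,0;u)` (translation). By GF `∏_i G(A x, b_i; u) = u² ψ(-(4 A x)⁻¹ ∑ b_i²)`. So
`Sc u A B C b = u² ∑_x ψ(B x + (C - (4A)⁻¹ ∑ b_i²) x⁻¹) = u² kc u 1 B k` for an integer `k` representing
`C - (4A)⁻¹ ∑ b_i²` (`kc u 1 h k` is the sum over the pairs `x z = 1`, i.e. over the units). SQF with `c = 1`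
(`gcd(1,u) = 1`). -/
def SpecGS : Prop := ∀ (u : ℕ) [NeZero u], Odd u → Squarefree u → ∀ (A B C : ℤ) (b : Fin 4 → ℤ), Int.gcd A u = 1 →
  ‖Sc u A B C b‖ ≤ (u : ℝ) ^ 2 * (tau u * √(u : ℝ) * √(Int.gcd B u : ℝ))

/-- **SB** (120 lines; from GA, GM, GS and `SM.SpecDEC`). The bound for the complete sums.
Proof. Trivial bound: `‖Sc v A B C b‖ ≤ v (√(2v))⁴ = 4 v³` (`#units ≤ v`, GA; `A x` is a unit). Let `u₀ = uu q`, `v₀ = vv q`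
(DEC). If `u₀` is odd take `u = u₀`, `v = v₀`: GM, GS (`gcd(A v, u) = 1`, `gcd(α B, u) = gcd(B,u)`) give
`≤ u² τ(u) √u √gcd(B,u) 4 v³ = 4 q² τ(u) √u v √gcd(B,u) ≤ 2 q² er q B` (`τ(u) ≤ τ(q) ≤ τ(q)²`, `1 + log q ≥ 1`). If `u₀` is even,
`u₀ = 2u`, `u` odd squarefree, `v = 2 v₀` (coprime since `v₀` is odd: coprime to `u₀`; and `u` is odd and coprime to `v₀`):
`≤ 4 q² τ(u) √u (2 v₀) √gcd(B,u) ≤ 4 √2 q² τ(u₀) √u₀ v₀ √gcd(B,u₀) ≤ 4 q² er q B`. -/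
def SpecSB : Prop := ∀ (q : ℕ) [NeZero q] (A B C : ℤ) (b : Fin 4 → ℤ), Int.gcd A q = 1 →
  ‖Sc q A B C b‖ ≤ 4 * (q : ℝ) ^ 2 * er q B

/-- **PSM** (100 lines; from `SM.SpecAVG`). Partial summation.
Proof. Dyadic blocks `2^j ≤ q < 2^(j+1)`, `2^j ≤ Q`: by AVG with `X = 2^(j+1) - 1 ≤ 2Q` the block of `∑ er/q²` is at most
`2^(-2j) 2 T⁷ (2^(j+1))^(3/2) = 2^(5/2) T⁷ 2^(-j/2)`, that of `∑ er/q` at most `2^(5/2) T⁷ 2^(j/2)`;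
`2^(5/2)/(1 - 2^(-1/2)) ≤ 20`. (`er q c ≥ 0`.) -/
def SpecPSM : Prop := ∀ (T : ℝ) (Q : ℕ) (c : ℤ), 1 ≤ Q → c ≠ 0 →
  (∀ m : ℕ, 0 < m → m ≤ 2 * Q → tau m ≤ T ∧ 1 + Real.log m ≤ T) → tau c.natAbs ≤ T →
  ∑ q ∈ Finset.Ioc 0 Q, er q c / (q : ℝ) ^ 2 ≤ 20 * T ^ 7 ∧
  ∑ q ∈ Finset.Ioc 0 Q, er q c / (q : ℝ) ≤ 20 * T ^ 7 * √(Q : ℝ)

/-! # C. The circle method -/

/-- **KS** (100 lines; from `SM.SpecGEO`). Completion of incomplete sums.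
Proof. For `y : ZMod q` the number of `x ∈ (a,b]` with `x = y` is `(1/q) ∑_r ∑_{x ∈ (a,b]} ψ(r (y - x))`. So the sum is
`∑_r f(r) ∑_{y unit} Ψ(y) ψ(r y)`, `f(r) = (1/q) ∑_{x ∈ (a,b]} ψ(-r x)`, `|f(0)| ≤ 1` and for `r ≠ 0` GEO (the sum over
`(a,b]` is a unimodular factor times a sum over `range (b-a)`; replace `r` by `-r`) gives
`|f(r)| ≤ 1/(2 min(r, q-r))`; `∑_{0<r<q} 1/min(r,q-r) ≤ 2(1 + log q)`. -/
def SpecKS : Prop := ∀ (q : ℕ) [NeZero q] (Psi : ZMod q → ℂ) (M : ℝ) (a b : ℕ), b ≤ a + q →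
  (∀ r : ℤ, ‖∑ x : (ZMod q)ˣ, Psi x * ZMod.stdAddChar ((r : ZMod q) * (x : ZMod q))‖ ≤ M) →
  ‖∑ x ∈ (Finset.Ioc a b).filter (fun x => Nat.Coprime x q), Psi (x : ZMod q)‖ ≤ (2 + Real.log q) * M

/-- **FA** (200 lines). The Farey dissection, with Kloosterman's description of the arcs.
Proof. Step 1, by induction on `Q`: let `P_Q` be the set of the pairs `(q,q')`, `1 ≤ q,q' ≤ Q`, `q + q' > Q`, coprime, and for such a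
pair `a = a(q,q')` ANY integer with `a q' = -1 mod q` (`H` is 1-periodic, so `H(a/q + ·)` does not depend on the choice).
Then `∫_0^1 H = ∑_{P_Q} ∫_0^{1/(q q')} H(a/q + β) dβ`. `Q = 1`: the pair `(1,1)`. `Q → Q+1`: the pairs with `q + q' > Q+1` stay;
the pairs with `q + q' = Q + 1` are in bijection with the new pairs `(q,Q+1)` and with the new pairs `(Q+1,q')`. Cut at
`β = 1/(q(Q+1))`: `[0, 1/(q(Q+1))]` is the interval of `(q,Q+1)`, as `a (Q+1) = a q' = -1 mod q`. With `a' = (1 + a q')/q` (an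
integer), `a/q + 1/(q(Q+1)) = (a+a')/(Q+1)` and `(a+a') q' = a q' + a' q' = (a' q - 1) + a' q' = a'(Q+1) - 1`, so the rest, of
length `1/(q q') - 1/(q(Q+1)) = 1/(q'(Q+1))`, is the interval of `(Q+1,q')`. Step 2: cut `[0,1/(q q')]` at `1/(q(q+q'))`. On the
right part, `a/q + 1/(q q') = a'/q'` with `a' q = 1 mod q'`, substitute `β = 1/(q q') - β'`, `0 ≤ β' ≤ 1/(q'(q+q'))`. Exchange
the names of `q`, `q'` in the second sum (`P_Q` is symmetric). For `q ≤ Q` the `x` with `(q,x) ∈ P_Q` are the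
`x ∈ (Q-q, Q]` coprime to `q` (`Q - q < x` and `x ≥ 1`). Here `a = -x⁻¹`, resp. `x⁻¹` mod `q`. -/
def SpecFA : Prop := ∀ (H : ℝ → ℂ), Continuous H → (∀ t, H (t + 1) = H t) → ∀ Q : ℕ, 1 ≤ Q →
  ∫ t in (0 : ℝ)..1, H t = ∑ q ∈ Finset.Icc 1 Q, ∑ x ∈ (Finset.Ioc (Q - q) Q).filter (fun x => Nat.Coprime x q),
    ((∫ be in (0 : ℝ)..(1 / ((q : ℝ) * (q + x))), H (-(iv q x / q) + be)) +
      ∫ be in (0 : ℝ)..(1 / ((q : ℝ) * (q + x))), H (iv q x / q - be))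

/-- **AR** (120 lines; from FA). From bounds for the incomplete sums to the integral.
Proof. `1/(q(q+x)) ≤ 1/(qQ)` for `x > Q - q`, so `∫_0^{1/(q(q+x))} h = ∫_0^{1/(qQ)} 1_{β ≤ 1/(q(q+x))} h(β) dβ`. Put the sum over
`x` inside: for fixed `β > 0` the `x ∈ (Q-q, Q]` with `q (q+x) β ≤ 1` are those of an interval `(Q-q, b]`, `b ≤ Q` (the condition is
monotone in `x`; `b` = the largest such `x`, or `Q - q`), `b ≤ (Q-q) + q`. -/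
def SpecAR : Prop := ∀ (H : ℝ → ℂ) (Q : ℕ) (Bd : ℕ → ℝ → ℝ), Continuous H → (∀ t, H (t + 1) = H t) → 1 ≤ Q →
  (∀ q : ℕ, 1 ≤ q → q ≤ Q → Continuous (Bd q)) →
  (∀ (q a b : ℕ) (be : ℝ), 1 ≤ q → q ≤ Q → b ≤ a + q → 0 ≤ be → be ≤ 1 / ((q : ℝ) * Q) →
    ‖∑ x ∈ (Finset.Ioc a b).filter (fun x => Nat.Coprime x q), H (-(iv q x / q) + be)‖ ≤ Bd q be ∧
    ‖∑ x ∈ (Finset.Ioc a b).filter (fun x => Nat.Coprime x q), H (iv q x / q - be)‖ ≤ Bd q (-be)) →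
  ‖∫ t in (0 : ℝ)..1, H t‖ ≤ ∑ q ∈ Finset.Icc 1 Q, ∫ be in (-(1 / ((q : ℝ) * Q)))..(1 / ((q : ℝ) * Q)), Bd q be

/-- **PO** (150 lines). One-dimensional Poisson summation for each residue class.
Proof. `A = ρ⁻² - 2iβ`, `Re A > 0`. `th ρ c (a/q + β) = ∑_{r mod q} e(a r²/q) ∑_{j ∈ ℤ} exp(-π (x-c)²/ρ² + 2πiβx²)`, `x = r + q j` (the
integers are the `r + q j`, `0 ≤ r < q`; absolutely summable). The exponent is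
`-π A q² j² + 2π (c q ρ⁻² - A q r) j + (-π A r² + 2π c ρ⁻² r - π c² ρ⁻²)`, and `Complex.tsum_exp_neg_quadratic` with `a := A q²`,
`b := c q ρ⁻² - A q r` gives, after `(n + i b)²/(A q²) = (n + i c q ρ⁻²)²/(A q²) - 2 i r (n + i c q ρ⁻²)/q - A r²`, the sum
`(1/(A q²)^(1/2)) ∑_n exp(-π (n + i c q ρ⁻²)²/(A q²) - π c² ρ⁻²) e(r n/q)`. So `phi n = q (A q²)^(-1/2) exp(..)`, and
`|A q²|^(1/2) = q (ρ⁻⁴ + 4β²)^(1/4) = q ρ⁻¹ (1 + 4β²ρ⁴)^(1/4)`; `Re` of the exponent is `-π ρ² (n/q - 2βc)²/(1 + 4β²ρ⁴)` (exact: multiply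
`(n + i c q ρ⁻²)²` by `conj A = ρ⁻² + 2iβ`; `|A|² = ρ⁻⁴ (1 + 4β²ρ⁴)`). -/
def SpecPO : Prop := ∀ (rho : ℝ) (c : ℤ) (q : ℕ) [NeZero q] (be : ℝ), 0 < rho → ∃ phi : ℤ → ℂ,
  (∀ n, ‖phi n‖ = rho / (1 + 4 * be ^ 2 * rho ^ 4) ^ (1 / 4 : ℝ) *
    Real.exp (-(Real.pi * rho ^ 2 / (1 + 4 * be ^ 2 * rho ^ 4) * ((n : ℝ) / q - 2 * be * c) ^ 2))) ∧
  ∀ a : ℤ, th rho c ((a : ℝ) / q + be) = (1 / (q : ℂ)) * ∑' n : ℤ, Gs q (a : ZMod q) (n : ZMod q) * phi n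

/-- **PF** (100 lines; from PO). Four variables.
Proof. Product of four absolutely convergent series (`‖Gs‖ ≤ q`, Gaussian decay), `Phi b = ∏ phi_i (b i)`,
`∏_i (1 + 4β²ρ⁴)^(-1/4) = (1 + 4β²ρ⁴)^(-1)`. (A product of series over `Fin 4 → ℤ`: by induction on the number of
variables, `Summable.tsum_mul_tsum..`, `Fin.consEquiv`, or `HasSum` of products.) -/
def SpecPF : Prop := ∀ (rho : ℝ) (c : Fin 4 → ℤ) (q : ℕ) [NeZero q] (be : ℝ), 0 < rho → ∃ Phi : (Fin 4 → ℤ) → ℂ,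
  (∀ b, ‖Phi b‖ = W4 rho c q be b) ∧ Summable (W4 rho c q be) ∧
  ∀ a : ℤ, F4 rho c ((a : ℝ) / q + be) =
    (1 / (q : ℂ) ^ 4) * ∑' b : Fin 4 → ℤ, (∏ i, Gs q (a : ZMod q) (b i : ZMod q)) * Phi b

/-- **KF** (150 lines; from PF, KS, SB). The incomplete sums of `H4`.
Proof. First sum: `α = -iv/q + β`, so by PF with `a = -iv q x` the sum over `x` is
`q⁻⁴ e(-Nβ) ∑_b Phi(b) ∑_x ∏ G(-x⁻¹, b_i; q) ψ(N x⁻¹)` (`e(-N(-iv/q)) = ψ(N x⁻¹)`; the sum over `x` is finite, so it goes inside). For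
fixed `b` apply KS with `Psi(x) = ∏ G(-x⁻¹,b_i;q) ψ(N x⁻¹)` (`x⁻¹` in `ZMod q`): the complete sums are
`∑_{x unit} Psi(x) ψ(r x) = Sc q (-1) N r b` (replace `x` by `x⁻¹`), at most `4 q² er q N` by SB. Second sum: `α = iv/q - β`, PF with
`a = iv`, `-β`; `Sc q 1 (-N) r b`, `er q (-N) = er q N` (`Int.gcd (-N) = Int.gcd N`). -/
def SpecKF : Prop := ∀ (rho : ℝ) (c : Fin 4 → ℤ) (N q a b : ℕ) (be : ℝ), 0 < rho → 1 ≤ q → b ≤ a + q →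
  ‖∑ x ∈ (Finset.Ioc a b).filter (fun x => Nat.Coprime x q), H4 rho c N (-(iv q x / q) + be)‖ ≤
    (2 + Real.log q) * (4 * er q N / (q : ℝ) ^ 2) * ∑' d : Fin 4 → ℤ, W4 rho c q be d ∧
  ‖∑ x ∈ (Finset.Ioc a b).filter (fun x => Nat.Coprime x q), H4 rho c N (iv q x / q - be)‖ ≤
    (2 + Real.log q) * (4 * er q N / (q : ℝ) ^ 2) * ∑' d : Fin 4 → ℤ, W4 rho c q (-be) d

/-- **PP** (120 lines). The periodic Gaussian.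
Proof. Summable (Gaussian decay; `summable_exp_..` or comparison with a geometric series); continuity: locally uniform convergence in
`(g,x)`, `g ≥ g₀` (`continuous_tsum`/`continuousOn_tsum` on `{g ≥ g₀} × [-R,R]`: terms `≤ exp(-π g₀ (m²/2 - R²))`). Period 1 in `x`.
`∫_0^1 PG g x dx = ∫_ℝ exp(-π g x²) dx = g^(-1/2)`, so the integral over `[-Y,Y]`, covered by `≤ 2Y + 2` unit intervals, is at most
`(2Y+2) g^(-1/2)`. Bound for `g ≥ 1/17`: monotone in `g`, at most `2 + 2 ∑_{j ≥ 0} exp(-π j²/17) ≤ 20` (by periodicity `|x| ≤ 1/2`,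
`|m - x| ≥ |m| - 1/2`), any constant `≤ 100` is fine. -/
def SpecPP : Prop :=
  (∀ g x : ℝ, 0 < g → Summable fun m : ℤ => Real.exp (-(Real.pi * g * ((m : ℝ) - x) ^ 2))) ∧
  ContinuousOn (fun p : ℝ × ℝ => PG p.1 p.2) {p | 0 < p.1} ∧
  (∀ g Y : ℝ, 0 < g → 0 ≤ Y → ∫ x in (-Y)..Y, PG g x ≤ (2 * Y + 2) * √(1 / g)) ∧
  (∀ g x : ℝ, 1 / 17 ≤ g → PG g x ≤ 100)

/-- **WP** (80 lines; from PP). The sum over `b` is a product.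
Proof. `(b/q - 2βc)² ρ²/(1+4β²ρ⁴) = g (b - 2qβc)²` with `g = ρ²/(q²(1+4β²ρ⁴))`; product of four absolutely convergent series. Continuity
from that of `PG`. -/
def SpecWP : Prop := ∀ (rho : ℝ) (c : Fin 4 → ℤ) (q : ℕ), 0 < rho → 1 ≤ q →
  (∀ be : ℝ, ∑' b : Fin 4 → ℤ, W4 rho c q be b = rho ^ 4 / (1 + 4 * be ^ 2 * rho ^ 4) *
    ∏ i, PG (rho ^ 2 / ((q : ℝ) ^ 2 * (1 + 4 * be ^ 2 * rho ^ 4))) (2 * q * be * c i)) ∧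
  Continuous fun be : ℝ => ∑' b : Fin 4 → ℤ, W4 rho c q be b

/-- **MI** (200 lines; from PP). The one-dimensional integral (`s = 2βρ²`).
Proof. For `|s| ≤ 2^J`: `(1+s²)⁻¹ exp(-π a (1+s²)⁻¹ x²) ≤ ∑_{j ≤ J} 4·4^(-j) 1_{|s| ≤ 2^j} exp(-π (a/(2·4^j)) x²)` (take `j = 0` if
`|s| ≤ 1`, else the `j` with `2^(j-1) < |s| ≤ 2^j`: `(1+s²)⁻¹ ≤ 4·4^(-j)`, `1 + s² ≤ 2·4^j`), hence with `a = ρ²/q²`, `x = m - s q w/ρ²`,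
`(1+s²)⁻¹ PG(a/(1+s²)) ≤ ∑_j 4·4^(-j) 1_{|s|≤2^j} PG(a/(2·4^j))`. By PP, substituting `y = s κ`, `κ = q w/ρ²`:
`∫_{|s| ≤ 2^j} PG(g_j)(κ s) ds ≤ κ⁻¹ (2·2^j κ + 2) g_j^(-1/2)`, `g_j^(-1/2) = √2 (q/ρ) 2^j`. So the integral is at most
`∑_{j≤J} 4·4^(-j) (2·2^j + 2/κ) √2 (q/ρ) 2^j = ∑_j 8√2 (q/ρ + 2^(-j) ρ/w) ≤ 12 (J+1) q/ρ + 24 ρ/w`. Take `J` = the least with
`2^J ≥ 4ρ`: `J + 1 ≤ 2 + log₂(4ρ) + .. ≤ 6 (1 + log ρ)`. -/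
def SpecMI : Prop := ∀ (rho w : ℝ) (q : ℕ) (S : ℝ), 1 ≤ rho → 0 < w → 1 ≤ q → 0 ≤ S → S ≤ 4 * rho →
  ∫ s in (-S)..S, (1 + s ^ 2)⁻¹ * PG (rho ^ 2 / ((q : ℝ) ^ 2 * (1 + s ^ 2))) (s * q * w / rho ^ 2) ≤
    100 * ((q : ℝ) / rho * (1 + Real.log rho) + rho / w)

/-- **MB** (120 lines; from PP, WP, MI). The integral of the dual side.
Proof. Some `i` has `|c_i| ≥ lam/2 > 0`, put `w = |c_i|` (`PG g` is even in `x`, so the sign of `c_i` does not matter). For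
`|β| ≤ 1/(qQ)`, `Q ≥ ρ/2`, `q ≤ ρ`: `2|β|ρ² ≤ 4ρ/q`, `1 + 4β²ρ⁴ ≤ 17ρ²/q²`, `g ≥ 1/17`: the other three factors are `≤ 100` (PP). Then
`β = s/(2ρ²)`: `≤ 10⁶ (ρ²/2) ∫_{|s| ≤ 4ρ/q} (1+s²)⁻¹ PG(..)(s q w/ρ²) ds` (`2qβc_i = s q c_i/ρ²`; nonnegative integrand, so enlarge to
`S = 2ρ²/(qQ) ≤ 4ρ`), MI, `w ≥ lam/2`. -/
def SpecMB : Prop := ∃ C : ℝ, 0 < C ∧ ∀ (rho lam : ℝ) (c : Fin 4 → ℤ) (q Q : ℕ), 1 ≤ rho → 0 < lam →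
  ∑ i, (c i : ℝ) ^ 2 = lam ^ 2 → 1 ≤ q → q ≤ Q → (Q : ℝ) ≤ rho → rho ≤ 2 * Q →
  ∫ be in (-(1 / ((q : ℝ) * Q)))..(1 / ((q : ℝ) * Q)), ∑' b : Fin 4 → ℤ, W4 rho c q be b ≤
    C * (rho ^ 3 / lam + q * rho * (1 + Real.log rho))

/-- **JC** (150 lines). The integral counts points.
Proof. `F4 ρ c α = ∑_{n : Fin 4 → ℤ} exp(-π|n-c|²/ρ²) e(α|n|²)` (product of four absolutely convergent series). `H4` is continuous and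
1-periodic (`th` is: `e(x²) = 1`; continuity by `continuous_tsum`). Integrate termwise (dominated: `∑ exp(-π|n-c|²/ρ²) < ∞`;
`intervalIntegral.hasSum_integral_of_dominated..` or `integral_tsum`): `∫_0^1 H4 = ∑_{|n|² = N} exp(-π|n-c|²/ρ²)`, a nonnegative real, at
least the sum over `s`, at least `s.card exp(-π)`. -/
def SpecJC : Prop := ∀ (rho : ℝ) (c : Fin 4 → ℤ) (N : ℕ), 0 < rho →
  Continuous (H4 rho c N) ∧ (∀ t, H4 rho c N (t + 1) = H4 rho c N t) ∧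
  ∀ s : Finset (Fin 4 → ℤ), (∀ n ∈ s, ∑ i, n i ^ 2 = (N : ℤ) ∧ ∑ i, ((n i : ℝ) - c i) ^ 2 ≤ rho ^ 2) →
    (s.card : ℝ) * Real.exp (-Real.pi) ≤ ‖∫ t in (0 : ℝ)..1, H4 rho c N t‖

/-- **CC** (180 lines; from JC, AR, KF, MB, WP, PSM). Lattice points in caps of the 3-sphere.
Proof. `lam = √N`, `Q = ⌊ρ⌋` (`Q ≤ ρ ≤ 2Q`). AR with `Bd q β = (2 + log q)(4 er q N/q²) ∑_b W4 ρ c q β b` (KF; continuous by WP), MB: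
`s.card e^(-π) ≤ ∑_{q ≤ Q} (2 + log q) 4 er(q,N) q⁻² C (ρ³/lam + qρ(1 + log ρ))`. Divisor bound (`SM.specDIV` or
`Pool.Agent.Lib.MP_391708_nt.Div.card_divisors_le_rpow`): for `δ = eps/20` there is `C'` with `τ(m) ≤ C' N^δ`, `1 + log m ≤ C' N^δ` for
`0 < m ≤ 8N` (and `2Q ≤ 2ρ ≤ 8√N ≤ 8N`); `T = C' N^δ`. PSM: `∑ er/q² ≤ 20T⁷`, `∑ er/q ≤ 20 T⁷ √Q ≤ 20 T⁷ ρ^(1/2)`, so
`s.card ≤ C'' T⁹ (ρ³/lam + ρ^(3/2))`. -/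
def SpecCC : Prop := ∀ eps : ℝ, 0 < eps → ∃ C : ℝ, 0 < C ∧ ∀ (N : ℕ) (c : Fin 4 → ℤ) (rho : ℝ), 1 ≤ N →
  ∑ i, c i ^ 2 = (N : ℤ) → 1 ≤ rho → rho ≤ 4 * √(N : ℝ) → ∀ s : Finset (Fin 4 → ℤ),
  (∀ n ∈ s, ∑ i, n i ^ 2 = (N : ℤ) ∧ ∑ i, ((n i : ℝ) - c i) ^ 2 ≤ rho ^ 2) →
  (s.card : ℝ) ≤ C * (N : ℝ) ^ eps * (rho ^ 3 / √(N : ℝ) + rho ^ (3 / 2 : ℝ))

/-- **SS** (150 lines; from CC). The Schur sum.
Proof. `lam² = N` is a positive integer (if `s` is nonempty). Distances between different lattice points are `≥ 1`. Shells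
`2^j ≤ |n - n'| < 2^(j+1)`, `2^j ≤ 2 lam^(2/3)`: CC with `c = n`, `ρ = 2^(j+1) ≤ 4 lam^(2/3) ≤ 4 lam`, exponent `eps/8`: the shell contributes at
most `C lam^(eps/4) (2^(3(j+1))/lam + 2^(3(j+1)/2)) 2^(-3j/2) ≤ 8 C lam^(eps/4) (2^(3j/2)/lam + 1)`, and
`2^(3j/2) ≤ 3 lam`, so at most `32 C lam^(eps/4)`; the number of shells is `≤ 2 + 2 log lam ≤ C lam^(eps/4)`. -/
def SpecSS : Prop := ∀ eps : ℝ, 0 < eps → ∃ C : ℝ, 0 < C ∧ ∀ (lam : ℝ) (s : Finset (Fin 4 → ℤ)), 1 ≤ lam →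
  (∀ n ∈ s, ‖zv n‖ = lam) → ∀ n ∈ s, (∀ n' ∈ s, ‖zv n - zv n'‖ ≤ 2 * lam ^ (2 / 3 : ℝ)) →
  ∑ n' ∈ s.erase n, ‖zv n - zv n'‖ ^ (-(3 / 2) : ℝ) ≤ C * lam ^ eps

/-! # A. Analysis -/

/-- **LW** (100 lines). Lower bound for the gradient of `⟨η, X⟩`.
Proof. `⟨η, DX(q) v⟩ = ⟨η, J v⟩ + ⟨V q, v⟩⟨η, ν⟩ = ⟨w(q), v⟩`, `w(q) = J^*η + ⟨η,ν⟩ V(q)` (`ch.der`; `J^* = ` adjoint), and
`v = w/‖w‖` (or 0) gives `‖w(q)‖`. `‖η‖² = ‖J^*η‖² + ⟨η,ν⟩²` (`J` isometry, `ν ⊥ range J`, `dim = k+1`: expand `η` in the orthonormal basis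
`J e_i, ν`; compare CG/GA.lean, where this decomposition is proved). If `|⟨η,ν⟩| ≤ ‖η‖/2`: `‖w‖ ≥ (√3/2 - 1/32)‖η‖ ≥ ‖η‖/2` and
`‖q - q*‖ ≤ 6 dl ≤ 1`: any `q*`, e.g. `0`. Otherwise let `q*` minimise `‖w‖` on the closed ball of radius `3 dl`: `‖w(q) - w(q*)‖ ≤ 2‖w(q)‖`
and `= |⟨η,ν⟩| ‖V q - V q*‖ ≥ (‖η‖/2) c1 ‖q - q*‖`. So `c = min (1/2) (c1/4)`. -/
def SpecLW : Prop := ∀ (k : ℕ) (ch : CG.Chart k) (c1 : ℝ), ND ch c1 → ∃ c : ℝ, 0 < c ∧ c ≤ 1 ∧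
  ∀ eta : EE (k + 1), ∃ qs : EE k, ‖qs‖ ≤ 3 * ch.dl ∧ ∀ q : EE k, ‖q‖ ≤ 3 * ch.dl →
    ∃ v : EE k, ‖v‖ ≤ 1 ∧ c * ‖eta‖ * ‖q - qs‖ ≤ inner ℝ eta (fderiv ℝ ch.X q v)

/-- **DI** (80 lines). A scaled integral.
Proof. Translate and rescale `q = q* + x/a`: `a^(-k) ∫ min(1, |x|^(-(k+1))) dx`, and `min(1,|x|^(-(k+1))) ≤ 2^(k+1) (1+|x|)^(-(k+1))` is integrable on
`EE k` (`integrable_one_add_norm`, `finrank = k < k+1`). -/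
def SpecDI : Prop := ∀ k : ℕ, ∃ C : ℝ, 0 < C ∧ ∀ (a : ℝ) (qs : EE k), 0 < a →
  Integrable (fun q : EE k => min 1 ((a * ‖q - qs‖)⁻¹ ^ (k + 1))) ∧
  ∫ q : EE k, min 1 ((a * ‖q - qs‖)⁻¹ ^ (k + 1)) ≤ C * a⁻¹ ^ k

/-- **DE** (200 lines; from LW, DI and `CV.SpecNS`). Decay of the Fourier transform of the surface measure.
Proof. `rho = ‖η‖^(-1/2)`. If `‖η‖ ≤ 4/dl²` the trivial bound `vol(ball)` is enough. Otherwise `rho ≤ dl/2`. Averaging (as in CV/NG.lean): with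
`I_0 = ∫ bm > 0`, `∫ F = I_0⁻¹ rho^(-k) ∫ dq0 ∫ bm((q-q0)/rho) F(q) dq` (Fubini), `F(q) = cut(q) e^{i⟨η,X q⟩}`; the inner integral vanishes unless
`‖q0‖ ≤ 5/2 dl + rho/2 ≤ 3 dl`. For such `q0` it is `≤ C rho^k` trivially, and by NS with `N = k+1`, `Th q = i⟨η, X q⟩` (`Re Th = 0`), `a = cut`,
`H = rho |⟨η, DX(q0) v⟩|` from LW it is `≤ C rho^k H^(-(k+1))`, `H ≥ rho c ‖η‖ ‖q0 - q*‖ = c ‖η‖^(1/2) ‖q0 - q*‖` (if `q0 ≠ q*`). Hypotheses of NS: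
`‖D^j a‖ rho^j ≤ A` (`rho ≤ 1`, `cut` has compact support), `‖D^j Th‖ rho^j ≤ ‖η‖ ‖D^j X‖ rho^2 ≤ B` for `2 ≤ j` on the ball of radius `4 dl`
(continuity on a compact set, `j ≤ k + 3`), `Re DTh = 0`. So `|∫ F| ≤ C ∫_{q0} min(1, (c‖η‖^(1/2)‖q0-q*‖)^(-(k+1)))`, DI. -/
def SpecDE : Prop := ∀ (k : ℕ) (ch : CG.Chart k) (c1 : ℝ), 1 ≤ k → ND ch c1 → ∃ C : ℝ, 0 < C ∧ ∀ eta : EE (k + 1),
  1 ≤ ‖eta‖ → ‖∫ q, ((CG.cut ch k q : ℝ) : ℂ) * ex eta (ch.X q)‖ ≤ C * ‖eta‖ ^ (-((k : ℝ) / 2))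

/-- **SH** (130 lines; from DE, SS). One cube.
Proof. `cut = 1` on `‖q‖ ≤ 2dl`, `0 ≤ cut`: `∫_{‖q‖ ≤ 3/2 dl} |u|² ≤ ∫ cut |u|² = ∑_{n,n'} a_n conj(a_n') ∫ cut e^{i⟨n-n',X⟩}`, and the last integral is
at most `C |n-n'|^(-3/2)` for `n ≠ n'` (DE, `|n-n'| ≥ 1`), at most `vol` for `n = n'`. Schur: `|a_n a_n'| ≤ (|a_n|² + |a_n'|²)/2`, SS. -/
def SpecSH : Prop := ∀ (ch : CG.Chart 3) (c1 : ℝ), ND ch c1 → ∀ eps : ℝ, 0 < eps → ∃ C : ℝ, 0 < C ∧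
  ∀ (lam : ℝ) (s : Finset (Fin 4 → ℤ)) (a : (Fin 4 → ℤ) → ℂ), 1 ≤ lam → (∀ n ∈ s, ‖zv n‖ = lam) →
  (∀ n ∈ s, ∀ n' ∈ s, ‖zv n - zv n'‖ ≤ 2 * lam ^ (2 / 3 : ℝ)) →
  ∫ q in Metric.closedBall (0 : EE 3) (3 / 2 * ch.dl), ‖es s a (ch.X q)‖ ^ 2 ≤
    C * lam ^ eps * ∑ n ∈ s, ‖a n‖ ^ 2

/-- **CH** (100 lines; from `CG.SpecRD1`, SH). The inequality on a nondegenerate chart.
Proof. RD1 with a small exponent `e'`, `K e' ≤ eps/2`, `e' ≤ 1/10`; two points of a cube `cb (lam^(2/3-e')) n = c` differ by less than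
`lam^(2/3-e')` in each of the 4 coordinates, so by at most `2 lam^(2/3)`; SH with `eps/2` on each cube, and the cubes partition `s`. -/
def SpecCH : Prop := ∀ (ch : CG.Chart 3) (c1 : ℝ), ND ch c1 → ∀ eps : ℝ, 0 < eps → ∃ C : ℝ, 0 < C ∧
  ∀ (lam : ℝ) (s : Finset (Fin 4 → ℤ)) (a : (Fin 4 → ℤ) → ℂ), 1 ≤ lam → (∀ n ∈ s, ‖zv n‖ = lam) →
  ∫ q in Metric.closedBall (0 : EE 3) ch.dl, ‖es s a (ch.X q)‖ ^ 2 ≤ C * lam ^ eps * ∑ n ∈ s, ‖a n‖ ^ 2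

/-- **IC** (150 lines). Nondegenerate charts.
Proof. As `CG.IGM.specIG` (CG/IG.lean: `GG`, `gr`, `XX`, `chart_of`), with a smaller `dl`: `V = gr G` is smooth, `V 0 = 0`, and
`⟨DV(0) u, v⟩ = D²G(0) u v`, so `DV(0)` is injective on the finite dimensional space `EE k`: `‖DV(0) u‖ ≥ 2 c1 ‖u‖` for some `c1 > 0`
(`LinearMap.exists_antilipschitzWith` / compactness of the sphere). `‖DV(q) - DV(0)‖ ≤ c1` for `‖q‖ ≤ 4dl`, `dl` small, so by the mean value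
inequality for `V - DV(0)` on the convex ball `‖V q - V q' - DV(0)(q - q')‖ ≤ c1 ‖q - q'‖`, hence `‖V q - V q'‖ ≥ c1 ‖q - q'‖`. (All fields of the chart
hold for every smaller `dl`: repeat `chart_of` with an additional bound `dl ≤ d0`, returning also `ch.V = gr G` and `ch.dl ≤ d0`.) -/
def SpecIC : Prop := ∀ (k : ℕ) (Sg : Set (EE (k + 1))) (p : EE (k + 1)), NondegAt Sg p →
  ∃ (ch : CG.Chart k) (c1 rho : ℝ), ND ch c1 ∧ 0 < rho ∧ ∀ x ∈ Sg, ‖x - p‖ < rho → ∃ q : EE k, ‖q‖ ≤ ch.dl ∧ ch.X q = x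

/-- **FI** (120 lines; from CH, IC and `CV.SpecHM`). From the charts to the set.
Proof. `CG/FIN.lean` (`cover`, `chart`, `fin_gen`; `FINM.chart` can be used directly with `CX ch eps`), with the charts of IC. -/
def SpecFI : Prop := ∀ (Sg : Set (EE 4)), Nondeg (k := 3) Sg → ∀ eps : ℝ, 0 < eps →
  ∃ C : ℝ, 0 < C ∧ ∀ (lam : ℝ) (s : Finset (Fin 4 → ℤ)) (a : (Fin 4 → ℤ) → ℂ), 1 ≤ lam →
  (∀ n ∈ s, ‖zv n‖ = lam) →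
  ∫⁻ x in Sg, ENNReal.ofReal (‖es s a x‖ ^ 2) ∂(Measure.hausdorffMeasure (3 : ℝ)) ≤
    ENNReal.ofReal (C * lam ^ eps * ∑ n ∈ s, ‖a n‖ ^ 2)

end Pool.Agent.Lib.MP_a8dae7_an.D4
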